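import Mathlib

/-! # The weight function on exponents -/

namespace MPadc574

noncomputable section

variable {σ : Type*} [Fintype σ] [DecidableEq σ]

/-- Coefficients of the quadratic form: `1` at three chosen indices, `2` elsewhere. -/
def kap (j : Fin 3 → σ) (i : σ) : ℤ := if i = j 0 ∨ i = j 1 ∨ i = j 2 then 1 else 2

/-- The colour (an element of `{0, 1, 2}`) of an exponent. -/
def col (j : Fin 3 → σ) (m : σ →₀ ℕ) : ℕ := (m (j 1) + 2 * m (j 2)) % 3

/-- The weight of an exponent. -/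
def wt (j : Fin 3 → σ) (m : σ →₀ ℕ) : ℤ := 2 * ∑ i, kap j i * (m i : ℤ) ^ 2 + col j m

/-- The weight relative to `w`. -/
def rel (j : Fin 3 → σ) (w m : σ →₀ ℕ) : ℤ :=
  2 * ∑ i, kap j i * ((m i : ℤ) - w i) ^ 2 + col j m - col j w

theorem kap_pos (j : Fin 3 → σ) (i : σ) : 1 ≤ kap j i := by
  unfold kap
  split_ifs <;> norm_num

theorem col_lt (j : Fin 3 → σ) (m : σ →₀ ℕ) : col j m < 3 := Nat.mod_lt _ (by norm_num)

theorem wt_nonneg (j : Fin 3 → σ) (m : σ →₀ ℕ) : 0 ≤ wt j m := by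
  unfold wt
  have : 0 ≤ ∑ i, kap j i * (m i : ℤ) ^ 2 :=
    Finset.sum_nonneg (fun i _ => mul_nonneg (by linarith [kap_pos j i]) (sq_nonneg _))
  positivity

theorem wt_pos_of (j : Fin 3 → σ) (m : σ →₀ ℕ) : wt j m = 2 * ∑ i, kap j i * (m i : ℤ) ^ 2 + col j m :=
  rfl

@[simp] theorem rel_self (j : Fin 3 → σ) (w : σ →₀ ℕ) : rel j w w = 0 := by
  simp [rel]

/-- Linear terms cancel in a relation `∑ t i = N • w`. -/
theorem sum_wt {α : Type*} (s : Finset α) (j : Fin 3 → σ) (t : α → σ →₀ ℕ) (w : σ →₀ ℕ)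
    (h : ∑ a ∈ s, t a = s.card • w) :
    ∑ a ∈ s, wt j (t a) - s.card * wt j w = ∑ a ∈ s, rel j w (t a) := by
  have h1 : ∀ i, ∑ a ∈ s, ((t a i : ℤ) - w i) = 0 := by
    intro i
    have h2 := DFunLike.congr_fun h i
    rw [Finsupp.finsetSum_apply, Finsupp.smul_apply, smul_eq_mul] at h2
    rw [Finset.sum_sub_distrib, Finset.sum_const, nsmul_eq_mul, sub_eq_zero]
    exact_mod_cast h2
  have h2 : ∑ a ∈ s, wt j (t a) - s.card * wt j w = ∑ a ∈ s, (wt j (t a) - wt j w) := by
    rw [Finset.sum_sub_distrib, Finset.sum_const, nsmul_eq_mul]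
  rw [h2]
  have h3 : ∀ a, wt j (t a) - wt j w = rel j w (t a) +
      ∑ i, 4 * kap j i * w i * ((t a i : ℤ) - w i) := by
    intro a
    unfold wt rel
    have h4 : ∑ i, kap j i * (t a i : ℤ) ^ 2 - ∑ i, kap j i * (w i : ℤ) ^ 2 =
        ∑ i, kap j i * ((t a i : ℤ) - w i) ^ 2 + ∑ i, 2 * kap j i * w i * ((t a i : ℤ) - w i) := by
      rw [← Finset.sum_sub_distrib, ← Finset.sum_add_distrib]
      apply Finset.sum_congr rfl
      intro i _
      ring
    have h5 : ∑ i, 4 * kap j i * w i * ((t a i : ℤ) - w i) =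
        2 * ∑ i, 2 * kap j i * w i * ((t a i : ℤ) - w i) := by
      rw [Finset.mul_sum]
      apply Finset.sum_congr rfl
      intro i _
      ring
    rw [h5]
    linarith
  rw [Finset.sum_congr rfl (fun a _ => h3 a), Finset.sum_add_distrib, Finset.sum_comm (s := s)]
  have h4 : ∑ i, ∑ a ∈ s, 4 * kap j i * w i * ((t a i : ℤ) - w i) = 0 := by
    apply Finset.sum_eq_zero
    intro i _
    rw [← Finset.mul_sum, h1, mul_zero]
  rw [h4, add_zero]

theorem exists_pos_neg {w m : σ →₀ ℕ} (hd : ∑ i, m i = ∑ i, w i) (hne : m ≠ w) :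
    ∃ a b, w a < m a ∧ m b < w b := by
  have h1 : ∃ a, w a < m a := by
    by_contra hcon
    push Not at hcon
    apply hne
    ext i
    have h2 := (Finset.sum_eq_sum_iff_of_le (fun i _ => hcon i)).1 hd
    exact h2 i (Finset.mem_univ i)
  have h2 : ∃ b, m b < w b := by
    by_contra hcon
    push Not at hcon
    apply hne
    ext i
    have h2 := (Finset.sum_eq_sum_iff_of_le (fun i _ => hcon i)).1 hd.symm
    exact (h2 i (Finset.mem_univ i)).symm
  obtain ⟨a, ha⟩ := h1
  obtain ⟨b, hb⟩ := h2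
  exact ⟨a, b, ha, hb⟩

theorem sq_ge_aux (j : Fin 3 → σ) {w m : σ →₀ ℕ} {a b : σ} (ha : w a < m a) (hb : m b < w b) :
    kap j a + kap j b ≤ ∑ i, kap j i * ((m i : ℤ) - w i) ^ 2 ∧
    (∑ i, kap j i * ((m i : ℤ) - w i) ^ 2 ≤ 2 → m a = w a + 1 ∧ w b = m b + 1 ∧
      (∀ i, i ≠ a → i ≠ b → m i = w i) ∧ kap j a = 1 ∧ kap j b = 1) := by
  have hab : a ≠ b := by
    rintro rfl
    omega
  have hnn : ∀ i, 0 ≤ kap j i * ((m i : ℤ) - w i) ^ 2 := fun i =>
    mul_nonneg (by linarith [kap_pos j i]) (sq_nonneg _)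
  have hsplit : ∑ i, kap j i * ((m i : ℤ) - w i) ^ 2 =
      kap j a * ((m a : ℤ) - w a) ^ 2 + (kap j b * ((m b : ℤ) - w b) ^ 2 +
        ∑ i ∈ (Finset.univ.erase a).erase b, kap j i * ((m i : ℤ) - w i) ^ 2) := by
    rw [← Finset.add_sum_erase _ _ (Finset.mem_univ a),
      ← Finset.add_sum_erase _ _ (Finset.mem_erase.2 ⟨hab.symm, Finset.mem_univ b⟩)]
  have hrest : 0 ≤ ∑ i ∈ (Finset.univ.erase a).erase b, kap j i * ((m i : ℤ) - w i) ^ 2 :=
    Finset.sum_nonneg (fun i _ => hnn i)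
  have ha1 : (1 : ℤ) ≤ (m a : ℤ) - w a := by omega
  have hb1 : (1 : ℤ) ≤ (w b : ℤ) - m b := by omega
  have ha2 : kap j a ≤ kap j a * ((m a : ℤ) - w a) ^ 2 :=
    le_mul_of_one_le_right (by linarith [kap_pos j a]) (one_le_pow₀ ha1)
  have hb2 : kap j b ≤ kap j b * ((m b : ℤ) - w b) ^ 2 := by
    apply le_mul_of_one_le_right (by linarith [kap_pos j b])
    rw [← neg_sq, neg_sub]
    exact one_le_pow₀ hb1
  constructor
  · rw [hsplit]
    linarith
  · intro h
    rw [hsplit] at h
    have hka := kap_pos j a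
    have hkb := kap_pos j b
    have h1 : kap j a * ((m a : ℤ) - w a) ^ 2 ≤ 1 := by linarith
    have h2 : kap j b * ((m b : ℤ) - w b) ^ 2 ≤ 1 := by linarith
    have h3 : ∑ i ∈ (Finset.univ.erase a).erase b, kap j i * ((m i : ℤ) - w i) ^ 2 = 0 := by
      linarith
    have h4 : (m a : ℤ) - w a ≤ 1 := by nlinarith
    have h5 : (w b : ℤ) - m b ≤ 1 := by nlinarith
    refine ⟨by omega, by omega, ?_, by linarith, by linarith⟩
    intro i hia hib
    have h6 := (Finset.sum_eq_zero_iff_of_nonneg (fun i _ => hnn i)).1 h3 i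
      (Finset.mem_erase.2 ⟨hib, Finset.mem_erase.2 ⟨hia, Finset.mem_univ i⟩⟩)
    have h7 : ((m i : ℤ) - w i) ^ 2 = 0 := by
      rcases mul_eq_zero.1 h6 with h | h
      · have := kap_pos j i
        omega
      · exact h
    have h8 := pow_eq_zero_iff (two_ne_zero) |>.1 h7
    omega

theorem rel_pos (j : Fin 3 → σ) {w m : σ →₀ ℕ} (hd : ∑ i, m i = ∑ i, w i) (hne : m ≠ w) :
    0 < rel j w m := by
  obtain ⟨a, b, ha, hb⟩ := exists_pos_neg hd hne
  have h1 := (sq_ge_aux j ha hb).1
  have h2 := kap_pos j a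
  have h3 := kap_pos j b
  have h4 := col_lt j w
  unfold rel
  have h5 : (0 : ℤ) ≤ col j m := Int.natCast_nonneg _
  have h6 : (col j w : ℤ) < 3 := by exact_mod_cast h4
  linarith

theorem rel_nonneg (j : Fin 3 → σ) {w m : σ →₀ ℕ} (hd : ∑ i, m i = ∑ i, w i) :
    0 ≤ rel j w m := by
  by_cases h : m = w
  · rw [h, rel_self]
  · exact (rel_pos j hd h).le

/-- The raise at `w`. -/
def rho (j : Fin 3 → σ) (w : σ →₀ ℕ) : ℕ := (if col j w = 0 then 5 else 4) - col j w

/-- The three neighbours used at `w`, in cyclic order; `s` is `1` or `2`. -/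
def nb (j : Fin 3 → σ) (w : σ →₀ ℕ) (k : Fin 3) : σ →₀ ℕ :=
  if col j w = 1 then w + Finsupp.single (j k) 1 - Finsupp.single (j (k + 1)) 1
  else w + Finsupp.single (j (k + 1)) 1 - Finsupp.single (j k) 1

theorem rho_cast (j : Fin 3 → σ) (w : σ →₀ ℕ) :
    (rho j w : ℤ) = (if col j w = 0 then 5 else 4) - col j w := by
  have h := col_lt j w
  unfold rho
  split_ifs with h1
  · rw [h1]; norm_num
  · push_cast [Nat.cast_sub (show col j w ≤ 4 by omega)]
    ring

theorem rho_pos (j : Fin 3 → σ) (w : σ →₀ ℕ) : 0 < rho j w := by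
  have h := col_lt j w
  unfold rho
  split_ifs with h1 <;> omega

theorem eq_step {w m : σ →₀ ℕ} {a b : σ} (hab : a ≠ b) (ha : m a = w a + 1) (hb : w b = m b + 1)
    (ho : ∀ i, i ≠ a → i ≠ b → m i = w i) :
    m = w + Finsupp.single a 1 - Finsupp.single b 1 := by
  ext i
  rw [Finsupp.tsub_apply, Finsupp.add_apply, Finsupp.single_apply, Finsupp.single_apply]
  by_cases hia : i = a
  · subst hia
    rw [if_pos rfl, if_neg (fun h => hab h.symm)]
    omega
  · by_cases hib : i = b
    · subst hib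
      rw [if_neg (fun h => hia h.symm), if_pos rfl]
      omega
    · rw [if_neg (fun h => hia h.symm), if_neg (fun h => hib h.symm), ho i hia hib]
      omega

theorem rel_ge (j : Fin 3 → σ) (hj : Function.Injective j) {w m : σ →₀ ℕ}
    (hd : ∑ i, m i = ∑ i, w i) (hne : m ≠ w) :
    (rho j w : ℤ) ≤ rel j w m ∧ (rel j w m = rho j w → ∃ k, m = nb j w k) := by
  obtain ⟨a, b, ha, hb⟩ := exists_pos_neg hd hne
  obtain ⟨h1, h2⟩ := sq_ge_aux j ha hb
  have hka := kap_pos j a
  have hkb := kap_pos j b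
  have hcw := col_lt j w
  have hcm := col_lt j m
  have h01 : j 0 ≠ j 1 := fun h => absurd (hj h) (by decide)
  have h02 : j 0 ≠ j 2 := fun h => absurd (hj h) (by decide)
  have h12 : j 1 ≠ j 2 := fun h => absurd (hj h) (by decide)
  rw [rho_cast]
  by_cases h3 : ∑ i, kap j i * ((m i : ℤ) - w i) ^ 2 ≤ 2
  · obtain ⟨h4, h5, h6, h7, h8⟩ := h2 h3
    have h9 : ∑ i, kap j i * ((m i : ℤ) - w i) ^ 2 = 2 := by linarith
    have hrel : rel j w m = 4 + col j m - col j w := by
      unfold rel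
      rw [h9]
      ring
    have hab : a ≠ b := by
      rintro rfl
      omega
    have ha3 : a = j 0 ∨ a = j 1 ∨ a = j 2 := by
      by_contra hcon
      unfold kap at h7
      rw [if_neg hcon] at h7
      norm_num at h7
    have hb3 : b = j 0 ∨ b = j 1 ∨ b = j 2 := by
      by_contra hcon
      unfold kap at h8
      rw [if_neg hcon] at h8
      norm_num at h8
    have hstep := eq_step hab h4 h5 h6
    rw [hrel]
    have key : ∀ (k : Fin 3), (a = j (k + 1) ∧ b = j k → (m (j 1) + 2 * m (j 2)) % 3 =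
        (w (j 1) + 2 * w (j 2) + 1) % 3) ∧ (a = j k ∧ b = j (k + 1) →
        (m (j 1) + 2 * m (j 2)) % 3 = (w (j 1) + 2 * w (j 2) + 2) % 3) := by
      intro k
      fin_cases k
      · constructor
        · rintro ⟨rfl, rfl⟩
          have := h6 (j 2) h12.symm h02.symm
          change m (j 1) = w (j 1) + 1 at h4
          omega
        · rintro ⟨rfl, rfl⟩
          have := h6 (j 2) h02.symm h12.symm
          change w (j 1) = m (j 1) + 1 at h5
          omega
      · constructor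
        · rintro ⟨rfl, rfl⟩
          change m (j 2) = w (j 2) + 1 at h4
          change w (j 1) = m (j 1) + 1 at h5
          omega
        · rintro ⟨rfl, rfl⟩
          change w (j 2) = m (j 2) + 1 at h5
          change m (j 1) = w (j 1) + 1 at h4
          omega
      · constructor
        · rintro ⟨rfl, rfl⟩
          have := h6 (j 1) h01.symm h12
          change w (j 2) = m (j 2) + 1 at h5
          omega
        · rintro ⟨rfl, rfl⟩
          have := h6 (j 1) h12 h01.symm
          change m (j 2) = w (j 2) + 1 at h4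
          omega
    have hk : ∃ k : Fin 3, (a = j (k + 1) ∧ b = j k) ∨ (a = j k ∧ b = j (k + 1)) := by
      rcases ha3 with h | h | h <;> rcases hb3 with h' | h' | h'
      · exact absurd (h.trans h'.symm) hab
      · exact ⟨0, Or.inr ⟨h, h'⟩⟩
      · exact ⟨2, Or.inl ⟨h, h'⟩⟩
      · exact ⟨0, Or.inl ⟨h, h'⟩⟩
      · exact absurd (h.trans h'.symm) hab
      · exact ⟨1, Or.inr ⟨h, h'⟩⟩
      · exact ⟨2, Or.inr ⟨h, h'⟩⟩
      · exact ⟨1, Or.inl ⟨h, h'⟩⟩
      · exact absurd (h.trans h'.symm) hab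
    obtain ⟨k, hk⟩ := hk
    rcases hk with hk | hk
    · have h10 := (key k).1 hk
      obtain ⟨rfl, rfl⟩ := hk
      constructor
      · unfold col at *
        split_ifs with h11 <;> omega
      · intro h11
        refine ⟨k, ?_⟩
        unfold nb
        rw [if_neg, ← hstep]
        intro h12
        unfold col at *
        rw [if_neg (by omega)] at h11
        omega
    · have h10 := (key k).2 hk
      obtain ⟨rfl, rfl⟩ := hk
      constructor
      · unfold col at *
        split_ifs with h11 <;> omega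
      · intro h11
        refine ⟨k, ?_⟩
        unfold nb
        rw [if_pos, ← hstep]
        by_contra h12
        unfold col at *
        split_ifs at h11 <;> omega
  · push Not at h3
    have h4 : (col j w : ℤ) < 3 := by exact_mod_cast hcw
    have h5 : (0 : ℤ) ≤ col j m := Int.natCast_nonneg _
    have hrel : 6 - (col j w : ℤ) ≤ rel j w m := by
      unfold rel
      linarith
    constructor
    · split_ifs with h6
      · linarith
      · linarith
    · intro h6
      exfalso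
      split_ifs at h6 with h7
      · linarith
      · linarith

/-- The sign of the triangle. -/
def sgn (j : Fin 3 → σ) (w : σ →₀ ℕ) : ℤ := if col j w = 1 then -1 else 1

theorem sgn_ne_zero (j : Fin 3 → σ) (w : σ →₀ ℕ) : sgn j w ≠ 0 := by
  unfold sgn
  split_ifs <;> norm_num

theorem nb_sub (j : Fin 3 → σ) (hj : Function.Injective j) {w : σ →₀ ℕ} (hw : ∀ i, 1 ≤ w i)
    (k : Fin 3) (i : σ) : (nb j w k i : ℤ) - w i =
      sgn j w * ((if i = j (k + 1) then 1 else 0) - (if i = j k then 1 else 0)) := by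
  have hkk : j k ≠ j (k + 1) := by
    intro h
    have := hj h
    revert this
    fin_cases k <;> decide
  have hwi := hw i
  unfold nb sgn
  split_ifs with h1 h2 h3 h3 h2 h3 h3
  all_goals
    rw [Finsupp.tsub_apply, Finsupp.add_apply, Finsupp.single_apply, Finsupp.single_apply]
  · exact absurd (h3.symm.trans h2) hkk
  · subst h2
    rw [if_neg hkk, if_pos rfl]
    push_cast [Nat.cast_sub (show 1 ≤ w (j (k + 1)) + 0 by omega)]
    ring
  · subst h3
    rw [if_pos rfl, if_neg (fun h => hkk h.symm)]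
    push_cast
    ring
  · rw [if_neg (fun h => h3 h.symm), if_neg (fun h => h2 h.symm)]
    simp
  · exact absurd (h3.symm.trans h2) hkk
  · subst h2
    rw [if_pos rfl, if_neg hkk]
    push_cast
    ring
  · subst h3
    rw [if_neg (fun h => hkk h.symm), if_pos rfl]
    push_cast [Nat.cast_sub (show 1 ≤ w (j k) + 0 by omega)]
    ring
  · rw [if_neg (fun h => h2 h.symm), if_neg (fun h => h3 h.symm)]
    simp

/-- `g 3 = w` and `g 0, g 1, g 2` are the neighbours. -/
def gg (j : Fin 3 → σ) (w : σ →₀ ℕ) (k : Fin 4) : σ →₀ ℕ :=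
  if h : k.1 < 3 then nb j w ⟨k.1, h⟩ else w

theorem gg_three (j : Fin 3 → σ) (w : σ →₀ ℕ) : gg j w 3 = w := by
  unfold gg
  rw [dif_neg (by decide)]

theorem gg_zero (j : Fin 3 → σ) (w : σ →₀ ℕ) : gg j w 0 = nb j w 0 := rfl
theorem gg_one (j : Fin 3 → σ) (w : σ →₀ ℕ) : gg j w 1 = nb j w 1 := rfl
theorem gg_two (j : Fin 3 → σ) (w : σ →₀ ℕ) : gg j w 2 = nb j w 2 := rfl

/-- The number of indices with value `k`. -/
def cnt {r : ℕ} (t : Fin r → Fin 4) (k : Fin 4) : ℕ := (Finset.univ.filter (fun a => t a = k)).card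

theorem sum_cnt {r : ℕ} (t : Fin r → Fin 4) : cnt t 0 + cnt t 1 + cnt t 2 + cnt t 3 = r := by
  have h := Finset.card_eq_sum_card_fiberwise (s := (Finset.univ : Finset (Fin r)))
    (t := (Finset.univ : Finset (Fin 4))) (f := t) (fun _ _ => Finset.mem_univ _)
  rw [Finset.card_univ, Fintype.card_fin, Fin.sum_univ_four] at h
  unfold cnt
  omega

theorem sum_comp_cnt {r : ℕ} (t : Fin r → Fin 4) (f : Fin 4 → ℤ) :
    ∑ a, f (t a) = cnt t 0 * f 0 + cnt t 1 * f 1 + cnt t 2 * f 2 + cnt t 3 * f 3 := by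
  rw [← Finset.sum_fiberwise_of_maps_to (s := (Finset.univ : Finset (Fin r)))
    (t := (Finset.univ : Finset (Fin 4))) (g := t) (fun _ _ => Finset.mem_univ _)]
  have h : ∀ k : Fin 4, ∑ a ∈ Finset.univ.filter (fun a => t a = k), f (t a) = cnt t k * f k := by
    intro k
    rw [Finset.sum_congr rfl (g := fun _ => f k)]
    · rw [Finset.sum_const, nsmul_eq_mul]
      rfl
    · intro a ha
      rw [(Finset.mem_filter.1 ha).2]
  rw [Fin.sum_univ_four, h, h, h, h]

theorem good_iff (j : Fin 3 → σ) (hj : Function.Injective j) {w : σ →₀ ℕ} (hw : ∀ i, 1 ≤ w i)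
    {r : ℕ} (t : Fin r → Fin 4) :
    ∑ a, gg j w (t a) = r • w ↔ cnt t 0 = cnt t 1 ∧ cnt t 1 = cnt t 2 := by
  have h01 : j 0 ≠ j 1 := fun h => absurd (hj h) (by decide)
  have h02 : j 0 ≠ j 2 := fun h => absurd (hj h) (by decide)
  have h12 : j 1 ≠ j 2 := fun h => absurd (hj h) (by decide)
  have hval : ∀ i, ∑ a, ((gg j w (t a) i : ℤ) - w i) = sgn j w *
      (cnt t 0 * ((if i = j 1 then 1 else 0) - (if i = j 0 then 1 else 0)) +
       cnt t 1 * ((if i = j 2 then 1 else 0) - (if i = j 1 then 1 else 0)) +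
       cnt t 2 * ((if i = j 0 then 1 else 0) - (if i = j 2 then 1 else 0))) := by
    intro i
    rw [sum_comp_cnt t (fun k => (gg j w k i : ℤ) - w i)]
    simp only [gg_three, gg_zero, gg_one, gg_two]
    rw [nb_sub j hj hw, nb_sub j hj hw, nb_sub j hj hw]
    have e0 : (0 : Fin 3) + 1 = 1 := rfl
    have e1 : (1 : Fin 3) + 1 = 2 := rfl
    have e2 : (2 : Fin 3) + 1 = 0 := rfl
    rw [e0, e1, e2]
    ring
  have hiff : ∑ a, gg j w (t a) = r • w ↔ ∀ i, ∑ a, ((gg j w (t a) i : ℤ) - w i) = 0 := by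
    rw [DFunLike.ext_iff]
    apply forall_congr'
    intro i
    rw [Finsupp.finsetSum_apply, Finsupp.smul_apply, smul_eq_mul, Finset.sum_sub_distrib,
      Finset.sum_const, Finset.card_univ, Fintype.card_fin, nsmul_eq_mul, sub_eq_zero]
    constructor
    · intro h
      exact_mod_cast h
    · intro h
      exact_mod_cast h
  rw [hiff]
  constructor
  · intro h
    have h0 := (hval (j 0)).symm.trans (h (j 0))
    have h1 := (hval (j 1)).symm.trans (h (j 1))
    rw [if_neg h01, if_pos rfl, if_neg h02] at h0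
    rw [if_pos rfl, if_neg h01.symm, if_neg h12] at h1
    have h0' := (mul_eq_zero.1 h0).resolve_left (sgn_ne_zero j w)
    have h1' := (mul_eq_zero.1 h1).resolve_left (sgn_ne_zero j w)
    constructor <;> [skip; skip] <;> omega
  · rintro ⟨h0, h1⟩ i
    rw [hval, h0, h1]
    ring

end

end MPadc574
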