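import Mathlib
import Pool.Agent.Lib.MP_adc574_ag.Hyp.Comb

/-! # The Hasse-Witt determinant over a valued field -/

namespace MPadc574

open MvPolynomial

noncomputable section

section General

variable {k : Type*} [Field k] (W : ValuationSubring k)

theorem val_sum_lt {α : Type*} (s : Finset α) (f : α → k) (h : ∀ a ∈ s, W.valuation (f a) < 1) :
    W.valuation (∑ a ∈ s, f a) < 1 :=
  Valuation.map_sum_lt _ one_ne_zero h

theorem val_prod_le {α : Type*} (s : Finset α) (f : α → k) (h : ∀ a ∈ s, W.valuation (f a) ≤ 1) :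
    W.valuation (∏ a ∈ s, f a) ≤ 1 := by
  rw [map_prod]
  exact Finset.prod_le_one' h

theorem val_prod_lt {α : Type*} [DecidableEq α] (s : Finset α) (f : α → k)
    (h : ∀ a ∈ s, W.valuation (f a) ≤ 1) (h' : ∃ a ∈ s, W.valuation (f a) < 1) :
    W.valuation (∏ a ∈ s, f a) < 1 := by
  obtain ⟨a, ha, hlt⟩ := h'
  rw [← Finset.mul_prod_erase s f ha, map_mul]
  exact mul_lt_one_of_lt_of_le hlt (val_prod_le W _ _ (fun b hb => h b (Finset.mem_of_mem_erase hb)))

theorem val_one_add {x y : k} (hx : W.valuation x = 1) (hy : W.valuation y < 1) :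
    W.valuation (x + y) = 1 := by
  rw [Valuation.map_add_eq_of_lt_left _ (by rw [hx]; exact hy), hx]

/-- A matrix which is a unit up to the maximal ideal. -/
theorem det_val_one {I : Type*} [Fintype I] [DecidableEq I] (N : Matrix I I k) (Sp : I → Prop)
    (hSp : ∀ w w', Sp w → Sp w' → w = w') (hle : ∀ u w, W.valuation (N u w) ≤ 1)
    (hoff : ∀ u w, u ≠ w → ¬ Sp w → W.valuation (N u w) < 1)
    (hdiag : ∀ w, W.valuation (N w w) = 1) : N.det ≠ 0 := by
  classical
  have h1 : W.valuation N.det = 1 := by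
    rw [Matrix.det_apply, ← Finset.add_sum_erase _ _ (Finset.mem_univ (1 : Equiv.Perm I))]
    apply val_one_add
    · simp only [Equiv.Perm.sign_one, one_smul, Equiv.Perm.coe_one, id]
      rw [map_prod]
      exact Finset.prod_eq_one (fun i _ => hdiag i)
    · apply val_sum_lt
      intro s hs
      have hs1 := Finset.ne_of_mem_erase hs
      have hex : ∃ i, s i ≠ i ∧ ¬ Sp i := by
        have h2 : ∃ x, s x ≠ x := by
          by_contra hcon
          push Not at hcon
          exact hs1 (Equiv.ext hcon)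
        obtain ⟨x, hx⟩ := h2
        by_cases h3 : Sp x
        · refine ⟨s x, fun h => hx (s.injective h), fun h4 => hx (hSp _ _ h4 h3)⟩
        · exact ⟨x, hx, h3⟩
      obtain ⟨i, hi, hSi⟩ := hex
      have h2 : W.valuation (∏ i, N (s i) i) < 1 :=
        val_prod_lt W _ _ (fun a _ => hle _ _) ⟨i, Finset.mem_univ i, hoff _ _ hi hSi⟩
      rcases Int.units_eq_one_or (Equiv.Perm.sign s) with h | h
      · rw [h, one_smul]
        exact h2
      · rw [h, Units.neg_smul, one_smul, Valuation.map_neg]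
        exact h2
  intro h
  rw [h, map_zero] at h1
  exact zero_ne_one h1

theorem det_ne_zero_of_scaled {I : Type*} [Fintype I] [DecidableEq I] (C N : Matrix I I k)
    (s s' : I → k) (h : ∀ u w, s u * C u w = N u w * s' w) (hs' : ∀ w, s' w ≠ 0) (hN : N.det ≠ 0) :
    C.det ≠ 0 := by
  intro h0
  have h1 : Matrix.diagonal s * C = N * Matrix.diagonal s' := by
    ext u w
    rw [Matrix.diagonal_mul, Matrix.mul_diagonal]
    exact h u w
  have h2 := congrArg Matrix.det h1
  rw [Matrix.det_mul, Matrix.det_mul, h0, mul_zero, Matrix.det_diagonal] at h2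
  exact mul_ne_zero hN (Finset.prod_ne_zero_iff.2 (fun w _ => hs' w)) h2.symm

end General

section Expand

variable {σ : Type*} [Fintype σ] [DecidableEq σ]

theorem prod_monomial {R : Type*} [CommRing R] {α : Type*} (s : Finset α) (t : α → σ →₀ ℕ)
    (c : α → R) : ∏ a ∈ s, monomial (t a) (c a) = monomial (∑ a ∈ s, t a) (∏ a ∈ s, c a) := by
  classical
  induction s using Finset.induction_on with
  | empty => simp
  | insert a s ha ih =>
    rw [Finset.prod_insert ha, ih, monomial_mul, Finset.sum_insert ha, Finset.prod_insert ha]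

theorem coeff_expand {R : Type*} [CommRing R] (M : Finset (σ →₀ ℕ)) (c : (σ →₀ ℕ) → R)
    (r : ℕ) (u v : σ →₀ ℕ) :
    coeff v (monomial u 1 * (∑ m ∈ M, monomial m (c m)) ^ r) =
      ∑ t ∈ Fintype.piFinset (fun _ : Fin r => M),
        if u + ∑ a, t a = v then ∏ a, c (t a) else 0 := by
  have h1 : (∑ m ∈ M, monomial m (c m)) ^ r =
      ∑ t ∈ Fintype.piFinset (fun _ : Fin r => M), monomial (∑ a, t a) (∏ a, c (t a)) := by
    rw [← Fin.prod_const, Finset.prod_univ_sum]
    apply Finset.sum_congr rfl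
    intro t _
    exact prod_monomial _ _ _
  rw [h1, Finset.mul_sum, coeff_sum]
  apply Finset.sum_congr rfl
  intro t _
  rw [monomial_mul, coeff_monomial, one_mul]

end Expand

section Scale

variable {k : Type*} [Field k] {σ : Type*} [Fintype σ] [DecidableEq σ]

/-- The exponents of degree `d`. -/
def Mon (σ : Type*) [Fintype σ] [DecidableEq σ] (d : ℕ) : Finset (σ →₀ ℕ) :=
  Finset.finsuppAntidiag Finset.univ d

theorem mem_Mon {d : ℕ} {m : σ →₀ ℕ} : m ∈ Mon σ d ↔ ∑ i, m i = d := by
  unfold Mon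
  rw [Finset.mem_finsuppAntidiag]
  constructor
  · rintro ⟨h, _⟩
    exact h
  · intro h
    exact ⟨h, Finset.subset_univ _⟩

theorem prod_zpow_sum {α : Type*} (s : Finset α) (τ : k) (hτ : τ ≠ 0) (f : α → ℤ) :
    ∏ a ∈ s, τ ^ (f a) = τ ^ (∑ a ∈ s, f a) := by
  classical
  induction s using Finset.induction_on with
  | empty => simp
  | insert a s ha ih => rw [Finset.prod_insert ha, Finset.sum_insert ha, zpow_add₀ hτ, ih]

/-- The factor of `m` relative to `w`. -/
def phi (j : Fin 3 → σ) (τ : k) (g : (σ →₀ ℕ) → k) (w m : σ →₀ ℕ) : k :=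
  τ ^ (rel j w m) * (g m / g w)

theorem phi_self (j : Fin 3 → σ) (τ : k) (g : (σ →₀ ℕ) → k) (hg : ∀ m, g m ≠ 0) (w : σ →₀ ℕ) :
    phi j τ g w w = 1 := by
  unfold phi
  rw [rel_self, zpow_zero, one_mul, div_self (hg w)]

theorem prod_scale {α : Type*} (s : Finset α) (j : Fin 3 → σ) (τ : k) (hτ : τ ≠ 0)
    (g : (σ →₀ ℕ) → k) (hg : ∀ m, g m ≠ 0) (t : α → σ →₀ ℕ) (w : σ →₀ ℕ)
    (h : ∑ a ∈ s, t a = s.card • w) :
    ∏ a ∈ s, (τ ^ (wt j (t a)) * g (t a)) =
      (∏ a ∈ s, phi j τ g w (t a)) * (τ ^ (wt j w) * g w) ^ s.card := by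
  have h1 := sum_wt s j t w h
  have h2 : ∑ a ∈ s, wt j (t a) = ∑ a ∈ s, rel j w (t a) + s.card * wt j w := by linarith
  unfold phi
  rw [Finset.prod_mul_distrib, Finset.prod_mul_distrib, prod_zpow_sum s τ hτ,
    prod_zpow_sum s τ hτ, h2, zpow_add₀ hτ, Finset.prod_div_distrib, Finset.prod_const, mul_pow]
  have h3 : g w ^ s.card ≠ 0 := pow_ne_zero _ (hg w)
  have h4 : τ ^ ((s.card : ℤ) * wt j w) = (τ ^ (wt j w)) ^ s.card := by
    rw [mul_comm, zpow_mul, zpow_natCast]
  rw [h4]
  field_simp

theorem hw_factor {p : ℕ} (hp : 0 < p) (j : Fin 3 → σ) (τ : k) (hτ : τ ≠ 0)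
    (g bt : (σ →₀ ℕ) → k) (hg : ∀ m, g m ≠ 0) (M : Finset (σ →₀ ℕ)) (u w : σ →₀ ℕ) :
    (τ ^ (wt j u) * g u) *
      coeff (p • w) (monomial u 1 *
        (∑ m ∈ M, monomial m (bt m * (τ ^ (wt j m) * g m))) ^ (p - 1)) =
      (∑ t ∈ Fintype.piFinset (fun _ : Fin (p - 1) => M), if u + ∑ a, t a = p • w then
        phi j τ g w u * ∏ a, (bt (t a) * phi j τ g w (t a)) else 0) *
        (τ ^ (wt j w) * g w) ^ p := by
  rw [coeff_expand, Finset.mul_sum, Finset.sum_mul]
  apply Finset.sum_congr rfl
  intro t _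
  split_ifs with h
  · have hcard : (Finset.univ : Finset (Option (Fin (p - 1)))).card = p := by
      rw [Finset.card_univ, Fintype.card_option, Fintype.card_fin]
      omega
    have h1 := prod_scale (Finset.univ : Finset (Option (Fin (p - 1)))) j τ hτ g hg
      (fun o => o.elim u t) w (by
        rw [Fintype.sum_option, hcard]
        exact h)
    rw [Fintype.prod_option, Fintype.prod_option, hcard] at h1
    simp only [Option.elim] at h1
    have h2 : ∏ a, bt (t a) * (τ ^ (wt j (t a)) * g (t a)) =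
        (∏ a, bt (t a)) * ∏ a, (τ ^ (wt j (t a)) * g (t a)) := Finset.prod_mul_distrib
    have h3 : ∏ a, (bt (t a) * phi j τ g w (t a)) =
        (∏ a, bt (t a)) * ∏ a, phi j τ g w (t a) := Finset.prod_mul_distrib
    rw [h2, h3]
    linear_combination (∏ a, bt (t a)) * h1
  · rw [mul_zero, zero_mul]

end Scale

section HW

variable {k : Type*} [Field k] (W : ValuationSubring k) {σ : Type*} [Fintype σ] [DecidableEq σ]

/-- The normalised matrix entry. -/
def NN (p : ℕ) (j : Fin 3 → σ) (τ : k) (g bt : (σ →₀ ℕ) → k) (M : Finset (σ →₀ ℕ))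
    (u w : σ →₀ ℕ) : k :=
  ∑ t ∈ Fintype.piFinset (fun _ : Fin (p - 1) => M), if u + ∑ a, t a = p • w then
        phi j τ g w u * ∏ a, (bt (t a) * phi j τ g w (t a)) else 0

theorem hw_det_general {p : ℕ} (hp : 0 < p) (j : Fin 3 → σ) (τ : k) (hτ : τ ≠ 0)
    (g bt : (σ →₀ ℕ) → k) (hg : ∀ m, g m ≠ 0) (M : Finset (σ →₀ ℕ))
    {I : Type*} [Fintype I] [DecidableEq I] (e : I → σ →₀ ℕ) (he : Function.Injective e)
    (heM : ∀ i, e i ∈ M) (Sp : (σ →₀ ℕ) → Prop) (hSp : ∀ w w', Sp w → Sp w' → w = w')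
    (hle : ∀ i, ∀ m ∈ M, W.valuation (phi j τ g (e i) m) ≤ 1)
    (hlt : ∀ i, ¬ Sp (e i) → ∀ m ∈ M, m ≠ e i → W.valuation (phi j τ g (e i) m) < 1)
    (hbt : ∀ m ∈ M, W.valuation (bt m) ≤ 1)
    (hbt1 : ∀ i, ¬ Sp (e i) → W.valuation (bt (e i)) = 1)
    (hspecial : ∀ i, Sp (e i) → W.valuation (NN p j τ g bt M (e i) (e i)) = 1) :
    (Matrix.of (fun u w : I => coeff (p • e w) (monomial (e u) 1 *
        (∑ m ∈ M, monomial m (bt m * (τ ^ (wt j m) * g m))) ^ (p - 1)))).det ≠ 0 := by
  classical
  have hs : ∀ m, τ ^ (wt j m) * g m ≠ 0 := fun m => mul_ne_zero (zpow_ne_zero _ hτ) (hg m)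
  have hprod : ∀ i, ∀ t ∈ Fintype.piFinset (fun _ : Fin (p - 1) => M), ∀ a,
      W.valuation (bt (t a) * phi j τ g (e i) (t a)) ≤ 1 := by
    intro i t ht a
    have hta : t a ∈ M := Fintype.mem_piFinset.1 ht a
    rw [map_mul]
    exact mul_le_one' (hbt _ hta) (hle i _ hta)
  refine det_ne_zero_of_scaled _ (Matrix.of (fun u w : I => NN p j τ g bt M (e u) (e w)))
    (fun u => τ ^ (wt j (e u)) * g (e u)) (fun w => (τ ^ (wt j (e w)) * g (e w)) ^ p) ?_
    (fun w => pow_ne_zero _ (hs _)) ?_
  · intro u w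
    simp only [Matrix.of_apply]
    exact hw_factor hp j τ hτ g bt hg M (e u) (e w)
  · apply det_val_one W _ (fun i => Sp (e i)) (fun w w' h h' => he (hSp _ _ h h'))
    · intro u w
      simp only [Matrix.of_apply, NN]
      apply Valuation.map_sum_le
      intro t ht
      split_ifs with h
      · rw [map_mul]
        exact mul_le_one' (hle w _ (heM u)) (val_prod_le W _ _ (fun a _ => hprod w t ht a))
      · rw [map_zero]
        exact zero_le_one
    · intro u w huw hw
      simp only [Matrix.of_apply, NN]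
      apply val_sum_lt
      intro t ht
      split_ifs with h
      · rw [map_mul]
        exact mul_lt_one_of_lt_of_le (hlt w hw _ (heM u) (fun h => huw (he h)))
          (val_prod_le W _ _ (fun a _ => hprod w t ht a))
      · rw [map_zero]
        exact zero_lt_one
    · intro w
      by_cases hw : Sp (e w)
      · exact hspecial w hw
      · simp only [Matrix.of_apply, NN]
        have hmem : (fun _ => e w) ∈ Fintype.piFinset (fun _ : Fin (p - 1) => M) :=
          Fintype.mem_piFinset.2 (fun _ => heM w)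
        rw [← Finset.add_sum_erase _ _ hmem]
        apply val_one_add
        · rw [if_pos, phi_self j τ g hg, one_mul]
          · simp only [phi_self j τ g hg, mul_one]
            rw [Finset.prod_const, map_pow, hbt1 w hw, one_pow]
          rw [Finset.sum_const, Finset.card_univ, Fintype.card_fin]
          conv_rhs => rw [show p = 1 + (p - 1) by omega, add_smul, one_smul]
        · apply val_sum_lt
          intro t ht
          have ht1 := Finset.mem_of_mem_erase ht
          split_ifs with h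
          · rw [phi_self j τ g hg, one_mul]
            apply val_prod_lt W _ _ (fun a _ => hprod w t ht1 a)
            have h2 : ∃ a, t a ≠ e w := by
              by_contra hcon
              push Not at hcon
              exact Finset.ne_of_mem_erase ht (funext hcon)
            obtain ⟨a, ha⟩ := h2
            refine ⟨a, Finset.mem_univ a, ?_⟩
            have hta : t a ∈ M := Fintype.mem_piFinset.1 ht1 a
            rw [map_mul]
            rw [mul_comm]
            exact mul_lt_one_of_lt_of_le (hlt w hw _ hta ha) (hbt _ hta)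
          · rw [map_zero]
            exact zero_lt_one

end HW

end

end MPadc574
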