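import Mathlib
import Pool.Agent.Lib.MP_adc574_ag.Hyp.Det

/-! # The special entry of the Hasse-Witt matrix -/

namespace MPadc574

open MvPolynomial

noncomputable section

section Comb2

variable {σ : Type*} [Fintype σ] [DecidableEq σ]

theorem kap_j (j : Fin 3 → σ) (k : Fin 3) : kap j (j k) = 1 := by
  unfold kap
  fin_cases k <;> simp

theorem ne_succ (j : Fin 3 → σ) (hj : Function.Injective j) (k : Fin 3) : j k ≠ j (k + 1) := by
  intro h
  have := hj h
  revert this
  fin_cases k <;> decide

theorem sum_nb (j : Fin 3 → σ) (hj : Function.Injective j) {w : σ →₀ ℕ} (hw : ∀ i, 1 ≤ w i)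
    (k : Fin 3) : ∑ i, nb j w k i = ∑ i, w i := by
  have h1 : ∑ i, ((nb j w k i : ℤ) - w i) = 0 := by
    rw [Finset.sum_congr rfl (fun i _ => nb_sub j hj hw k i), ← Finset.mul_sum,
      Finset.sum_sub_distrib, Finset.sum_ite_eq', Finset.sum_ite_eq']
    simp
  rw [Finset.sum_sub_distrib, sub_eq_zero] at h1
  exact_mod_cast h1

theorem sum_kap_nb (j : Fin 3 → σ) (hj : Function.Injective j) {w : σ →₀ ℕ} (hw : ∀ i, 1 ≤ w i)
    (k : Fin 3) : ∑ i, kap j i * ((nb j w k i : ℤ) - w i) ^ 2 = 2 := by
  have hkk := ne_succ j hj k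
  have h1 : ∀ i, kap j i * ((nb j w k i : ℤ) - w i) ^ 2 =
      (if i = j (k + 1) then kap j i else 0) + (if i = j k then kap j i else 0) := by
    intro i
    rw [nb_sub j hj hw, mul_pow]
    have hs : sgn j w ^ 2 = 1 := by
      unfold sgn
      split_ifs <;> norm_num
    rw [hs]
    split_ifs with h2 h3 h3
    · exact absurd (h3.symm.trans h2) hkk
    · ring
    · ring
    · ring
  rw [Finset.sum_congr rfl (fun i _ => h1 i), Finset.sum_add_distrib, Finset.sum_ite_eq',
    Finset.sum_ite_eq', if_pos (Finset.mem_univ _), if_pos (Finset.mem_univ _), kap_j, kap_j]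
  norm_num

theorem rel_nb (j : Fin 3 → σ) (hj : Function.Injective j) {w : σ →₀ ℕ} (hw : ∀ i, 1 ≤ w i)
    (k : Fin 3) : rel j w (nb j w k) = rho j w := by
  have h01 : j 0 ≠ j 1 := fun h => absurd (hj h) (by decide)
  have h02 : j 0 ≠ j 2 := fun h => absurd (hj h) (by decide)
  have h12 : j 1 ≠ j 2 := fun h => absurd (hj h) (by decide)
  have h1 := nb_sub j hj hw k (j 1)
  have h2 := nb_sub j hj hw k (j 2)
  unfold rel
  rw [sum_kap_nb j hj hw, rho_cast]
  have hc := col_lt j w
  have e0 : (0 : Fin 3) + 1 = 1 := rfl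
  have e1 : (1 : Fin 3) + 1 = 2 := rfl
  have e2 : (2 : Fin 3) + 1 = 0 := rfl
  unfold sgn at h1 h2
  have key : (col j w = 1 → col j (nb j w k) = 0) ∧ (col j w = 0 → col j (nb j w k) = 1) ∧
      (col j w = 2 → col j (nb j w k) = 0) := by
    fin_cases k
    · simp only [Fin.zero_eta, e0, if_true, if_neg h01.symm, if_neg h12.symm, if_neg h02.symm] at h1 h2
      refine ⟨fun h => ?_, fun h => ?_, fun h => ?_⟩
      · rw [if_pos h] at h1 h2
        unfold col at *
        simp only [Fin.zero_eta] at *
        omega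
      · rw [if_neg (by omega)] at h1 h2
        unfold col at *
        simp only [Fin.zero_eta] at *
        omega
      · rw [if_neg (by omega)] at h1 h2
        unfold col at *
        simp only [Fin.zero_eta] at *
        omega
    · simp only [Fin.mk_one, e1, if_true, if_neg h12, if_neg h12.symm] at h1 h2
      refine ⟨fun h => ?_, fun h => ?_, fun h => ?_⟩
      · rw [if_pos h] at h1 h2
        unfold col at *
        simp only [Fin.mk_one] at *
        omega
      · rw [if_neg (by omega)] at h1 h2
        unfold col at *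
        simp only [Fin.mk_one] at *
        omega
      · rw [if_neg (by omega)] at h1 h2
        unfold col at *
        simp only [Fin.mk_one] at *
        omega
    · simp only [Fin.reduceFinMk, e2, if_true, if_neg h01.symm, if_neg h12, if_neg h02.symm] at h1 h2
      refine ⟨fun h => ?_, fun h => ?_, fun h => ?_⟩
      · rw [if_pos h] at h1 h2
        unfold col at *
        simp only [Fin.reduceFinMk] at *
        omega
      · rw [if_neg (by omega)] at h1 h2
        unfold col at *
        simp only [Fin.reduceFinMk] at *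
        omega
      · rw [if_neg (by omega)] at h1 h2
        unfold col at *
        simp only [Fin.reduceFinMk] at *
        omega
  obtain ⟨k1, k2, k3⟩ := key
  rcases (show col j w = 0 ∨ col j w = 1 ∨ col j w = 2 by omega) with h | h | h
  · rw [k2 h, h]
    norm_num
  · rw [k1 h, h]
    norm_num
  · rw [k3 h, h]
    norm_num

theorem nb_ne_self (j : Fin 3 → σ) (hj : Function.Injective j) {w : σ →₀ ℕ} (hw : ∀ i, 1 ≤ w i)
    (k : Fin 3) : nb j w k ≠ w := by
  intro h
  have h1 := rel_nb j hj hw k
  rw [h, rel_self] at h1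
  have := rho_pos j w
  omega

theorem nb_injective (j : Fin 3 → σ) (hj : Function.Injective j) {w : σ →₀ ℕ}
    (hw : ∀ i, 1 ≤ w i) {k k' : Fin 3} (h : nb j w k = nb j w k') : k = k' := by
  by_contra hne
  have h1 := nb_sub j hj hw k (j k)
  have h2 := nb_sub j hj hw k' (j k)
  rw [h, h2] at h1
  have h3 := mul_left_cancel₀ (sgn_ne_zero j w) h1
  rw [if_pos rfl, if_neg (ne_succ j hj k), if_neg (fun h => hne (hj h))] at h3
  split_ifs at h3 <;> norm_num at h3

theorem gg_injective (j : Fin 3 → σ) (hj : Function.Injective j) {w : σ →₀ ℕ}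
    (hw : ∀ i, 1 ≤ w i) : Function.Injective (gg j w) := by
  intro k k' h
  unfold gg at h
  split_ifs at h with h1 h2 h2
  · have := nb_injective j hj hw h
    exact Fin.ext (Fin.mk.inj this)
  · exact absurd h (nb_ne_self j hj hw _)
  · exact absurd h.symm (nb_ne_self j hj hw _)
  · exact Fin.ext (by omega)

end Comb2

theorem prod_comp_cnt {R : Type*} [CommMonoid R] {r : ℕ} (t : Fin r → Fin 4) (f : Fin 4 → R) :
    ∏ a, f (t a) = f 0 ^ cnt t 0 * f 1 ^ cnt t 1 * f 2 ^ cnt t 2 * f 3 ^ cnt t 3 := by
  rw [← Finset.prod_fiberwise_of_maps_to (s := (Finset.univ : Finset (Fin r)))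
    (t := (Finset.univ : Finset (Fin 4))) (g := t) (fun _ _ => Finset.mem_univ _)]
  have h : ∀ k : Fin 4, ∏ a ∈ Finset.univ.filter (fun a => t a = k), f (t a) = f k ^ cnt t k := by
    intro k
    rw [Finset.prod_congr rfl (g := fun _ => f k)]
    · rw [Finset.prod_const]
      rfl
    · intro a ha
      rw [(Finset.mem_filter.1 ha).2]
  rw [Fin.prod_univ_four, h, h, h, h]

/-- The Hasse polynomial of the pencil `x³ + y³ + w³ + z x y w`. -/
def HH {R : Type*} [CommSemiring R] (r : ℕ) (z : R) : R :=
  ∑ t : Fin r → Fin 4, if cnt t 0 = cnt t 1 ∧ cnt t 1 = cnt t 2 then z ^ cnt t 3 else 0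

section HW

variable {k : Type*} [Field k] (W : ValuationSubring k) {σ : Type*} [Fintype σ] [DecidableEq σ]

theorem val_zpow_le {τ : k} (hv : W.valuation τ ≤ 1) {n : ℤ} (hn : 0 ≤ n) :
    W.valuation (τ ^ n) ≤ 1 := by
  lift n to ℕ using hn
  rw [zpow_natCast, map_pow]
  exact pow_le_one' hv n

theorem val_zpow_lt {τ : k} (hv : W.valuation τ < 1) {n : ℤ} (hn : 0 < n) :
    W.valuation (τ ^ n) < 1 := by
  lift n to ℕ using hn.le
  rw [zpow_natCast, map_pow]
  exact pow_lt_one' hv (by omega)

theorem special_entry {p : ℕ} (hp : 0 < p) (j : Fin 3 → σ) (hj : Function.Injective j) (τ : k)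
    (hτ : τ ≠ 0) (hv : W.valuation τ < 1) (b : (σ →₀ ℕ) → k) (d : ℕ) (w : σ →₀ ℕ)
    (hw : ∀ i, 1 ≤ w i) (hwd : ∑ i, w i = d)
    (hb : ∀ m ∈ Mon σ d, m ≠ w → W.valuation (b m) = 1) (ξ δ : k) (hξ : W.valuation ξ ≤ 1)
    (hδ : W.valuation δ = 1) (hδ3 : δ ^ 3 = b (nb j w 0) * b (nb j w 1) * b (nb j w 2))
    (hH : W.valuation (HH (p - 1) ξ) = 1) :
    W.valuation (NN p j τ (fun m => if m = w then δ * τ ^ rho j w else 1)
      (fun m => if m = w then ξ else b m) (Mon σ d) w w) = 1 := by
  classical
  set g : (σ →₀ ℕ) → k := fun m => if m = w then δ * τ ^ rho j w else 1 with hg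
  set bt : (σ →₀ ℕ) → k := fun m => if m = w then ξ else b m with hbt
  have hδ0 : δ ≠ 0 := by
    intro h
    rw [h, map_zero] at hδ
    exact zero_ne_one hδ
  have hgw : g w = δ * τ ^ rho j w := if_pos rfl
  have hg0 : ∀ m, g m ≠ 0 := by
    intro m
    simp only [hg]
    split_ifs
    · exact mul_ne_zero hδ0 (pow_ne_zero _ hτ)
    · exact one_ne_zero
  set ψ : (σ →₀ ℕ) → k := fun m => bt m * phi j τ g w m with hψ
  have hψw : ψ w = ξ := by
    simp only [hψ, hbt, if_true]
    rw [phi_self j τ g hg0, mul_one]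
  have hψm : ∀ m, m ≠ w → ψ m = b m * τ ^ (rel j w m - rho j w) / δ := by
    intro m hm
    simp only [hψ, hbt]
    rw [if_neg hm]
    unfold phi
    rw [hgw]
    simp only [hg]
    rw [if_neg hm, zpow_sub₀ hτ, zpow_natCast]
    have h1 : τ ^ rho j w ≠ 0 := pow_ne_zero _ hτ
    field_simp
  have hnb : ∀ k', ψ (nb j w k') = b (nb j w k') / δ := by
    intro k'
    rw [hψm _ (nb_ne_self j hj hw k'), rel_nb j hj hw, sub_self, zpow_zero, mul_one]
  set G : Finset (σ →₀ ℕ) := Finset.univ.image (gg j w) with hG
  have hnbM : ∀ k', nb j w k' ∈ Mon σ d := by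
    intro k'
    rw [mem_Mon, sum_nb j hj hw, hwd]
  have hwM : w ∈ Mon σ d := mem_Mon.2 hwd
  have hggM : ∀ k', gg j w k' ∈ Mon σ d := by
    intro k'
    unfold gg
    split_ifs
    · exact hnbM _
    · exact hwM
  have hGM : G ⊆ Mon σ d := by
    intro m hm
    obtain ⟨k', _, rfl⟩ := Finset.mem_image.1 hm
    exact hggM k'
  have hψlt : ∀ m ∈ Mon σ d, m ∉ G → W.valuation (ψ m) < 1 := by
    intro m hm hmG
    have hmw : m ≠ w := by
      rintro rfl
      apply hmG
      rw [hG, Finset.mem_image]
      exact ⟨3, Finset.mem_univ _, gg_three j m⟩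
    have h1 : ∑ i, m i = ∑ i, w i := by rw [mem_Mon.1 hm, hwd]
    obtain ⟨h2, h3⟩ := rel_ge j hj h1 hmw
    have h4 : rel j w m ≠ rho j w := by
      intro h
      obtain ⟨k', hk'⟩ := h3 h
      apply hmG
      rw [hG, Finset.mem_image]
      refine ⟨Fin.castSucc k', Finset.mem_univ _, ?_⟩
      rw [hk']
      unfold gg
      rw [dif_pos (by simp)]
      rfl
    rw [hψm m hmw, map_div₀, map_mul, hb m hm hmw, hδ, one_mul, div_one]
    apply val_zpow_lt W hv
    omega
  have hψle : ∀ m ∈ Mon σ d, W.valuation (ψ m) ≤ 1 := by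
    intro m hm
    by_cases hmG : m ∈ G
    · obtain ⟨k', _, rfl⟩ := Finset.mem_image.1 hmG
      unfold gg
      split_ifs
      · rw [hnb, map_div₀, hδ, div_one, hb _ (hnbM _) (nb_ne_self j hj hw _)]
      · rw [hψw]
        exact hξ
    · exact (hψlt m hm hmG).le
  have hNN : NN p j τ g bt (Mon σ d) w w =
      ∑ t ∈ Fintype.piFinset (fun _ : Fin (p - 1) => Mon σ d),
        if w + ∑ a, t a = p • w then ∏ a, ψ (t a) else 0 := by
    unfold NN
    apply Finset.sum_congr rfl
    intro t _
    rw [phi_self j τ g hg0, one_mul]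
  rw [hNN]
  have hsub : Fintype.piFinset (fun _ : Fin (p - 1) => G) ⊆
      Fintype.piFinset (fun _ : Fin (p - 1) => Mon σ d) := by
    intro t ht
    rw [Fintype.mem_piFinset] at ht ⊢
    exact fun a => hGM (ht a)
  rw [← Finset.sum_sdiff hsub, add_comm]
  apply val_one_add
  · have himg : Fintype.piFinset (fun _ : Fin (p - 1) => G) =
        Finset.univ.image (fun t : Fin (p - 1) → Fin 4 => fun a => gg j w (t a)) := by
      ext t
      rw [Fintype.mem_piFinset, Finset.mem_image]
      constructor
      · intro h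
        have h1 : ∀ a, ∃ k', gg j w k' = t a := by
          intro a
          obtain ⟨k', _, hk'⟩ := Finset.mem_image.1 (h a)
          exact ⟨k', hk'⟩
        choose t' ht' using h1
        exact ⟨t', Finset.mem_univ _, funext ht'⟩
      · rintro ⟨t', _, rfl⟩ a
        exact Finset.mem_image_of_mem _ (Finset.mem_univ _)
    rw [himg, Finset.sum_image]
    · convert hH using 2
      unfold HH
      apply Finset.sum_congr rfl
      intro t _
      have hiff : w + ∑ a, gg j w (t a) = p • w ↔ cnt t 0 = cnt t 1 ∧ cnt t 1 = cnt t 2 := by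
        rw [← good_iff j hj hw t]
        constructor
        · intro h
          have h1 : w + ∑ a, gg j w (t a) = w + (p - 1) • w := by
            rw [h]
            conv_lhs => rw [show p = 1 + (p - 1) by omega, add_smul, one_smul]
          exact add_left_cancel h1
        · intro h
          rw [h]
          conv_rhs => rw [show p = 1 + (p - 1) by omega, add_smul, one_smul]
      by_cases hc : cnt t 0 = cnt t 1 ∧ cnt t 1 = cnt t 2
      · rw [if_pos hc, if_pos (hiff.2 hc), prod_comp_cnt t (fun k' => ψ (gg j w k'))]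
        simp only [gg_zero, gg_one, gg_two, gg_three, hnb, hψw]
        rw [← hc.2, ← hc.1, ← mul_pow, ← mul_pow]
        have h1 : b (nb j w 0) / δ * (b (nb j w 1) / δ) * (b (nb j w 2) / δ) = 1 := by
          rw [div_mul_div_comm, div_mul_div_comm, ← hδ3]
          have h2 : δ * δ * δ = δ ^ 3 := by ring
          rw [h2, div_self (pow_ne_zero _ hδ0)]
        rw [h1, one_pow, one_mul]
      · rw [if_neg hc, if_neg (fun h => hc (hiff.1 h))]
    · intro t _ t' _ h
      funext a
      exact gg_injective j hj hw (congrFun h a)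
  · apply val_sum_lt
    intro t ht
    rw [Finset.mem_sdiff, Fintype.mem_piFinset, Fintype.mem_piFinset] at ht
    obtain ⟨ht1, ht2⟩ := ht
    push Not at ht2
    obtain ⟨a, ha⟩ := ht2
    split_ifs
    · exact val_prod_lt W _ _ (fun a _ => hψle _ (ht1 a)) ⟨a, Finset.mem_univ _, hψlt _ (ht1 a) ha⟩
    · rw [map_zero]
      exact zero_lt_one

/-- The Hasse-Witt determinant does not vanish. -/
theorem hw_det_ne_zero {p : ℕ} (hp : 0 < p) (j : Fin 3 → σ) (hj : Function.Injective j) (τ : k)
    (hτ : τ ≠ 0) (hv : W.valuation τ < 1) (b : (σ →₀ ℕ) → k) (d : ℕ) (m1 : σ →₀ ℕ)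
    (hb : ∀ m ∈ Mon σ d, m ≠ m1 → W.valuation (b m) = 1)
    (hb1 : W.valuation (b m1) ≤ 1)
    {I : Type*} [Fintype I] [DecidableEq I] (e : I → σ →₀ ℕ) (he : Function.Injective e)
    (hed : ∀ i, ∑ l, e i l = d) (hei : ∀ i l, 1 ≤ e i l)
    (hcase : (∀ i, e i ≠ m1) ∨ W.valuation (τ ^ rho j m1) < W.valuation (b m1) ∨
      ∃ ξ δ : k, W.valuation ξ ≤ 1 ∧ W.valuation δ = 1 ∧
        δ ^ 3 = b (nb j m1 0) * b (nb j m1 1) * b (nb j m1 2) ∧
        b m1 = ξ * (δ * τ ^ rho j m1) ∧ W.valuation (HH (p - 1) ξ) = 1) :
    (Matrix.of (fun u w : I => coeff (p • e w) (monomial (e u) 1 *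
        (∑ m ∈ Mon σ d, monomial m (b m * τ ^ (wt j m))) ^ (p - 1)))).det ≠ 0 := by
  classical
  have heM : ∀ i, e i ∈ Mon σ d := fun i => mem_Mon.2 (hed i)
  have hdd : ∀ i, ∀ m ∈ Mon σ d, ∑ l, m l = ∑ l, e i l := by
    intro i m hm
    rw [hed, mem_Mon.1 hm]
  by_cases hA : ∀ i, e i ≠ m1
  · -- no special column
    have h := hw_det_general W hp j τ hτ (fun _ => 1) b (fun _ => one_ne_zero) (Mon σ d) e he heM
      (fun _ => False) (fun _ _ h => h.elim) ?_ ?_ ?_ ?_ (fun _ h => h.elim)
    · simpa only [mul_one] using h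
    · intro i m hm
      unfold phi
      rw [div_one, mul_one]
      exact val_zpow_le W hv.le (rel_nonneg j (hdd i m hm))
    · intro i _ m hm hne
      unfold phi
      rw [div_one, mul_one]
      exact val_zpow_lt W hv (rel_pos j (hdd i m hm) hne)
    · intro m hm
      by_cases h : m = m1
      · rw [h]
        exact hb1
      · exact (hb m hm h).le
    · intro i _
      exact hb _ (heM i) (hA i)
  · push Not at hA
    obtain ⟨i1, hi1⟩ := hA
    have hm1 : ∀ l, 1 ≤ m1 l := by
      rw [← hi1]
      exact hei i1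
    have hm1d : ∑ l, m1 l = d := by
      rw [← hi1]
      exact hed i1
    have hm1M : m1 ∈ Mon σ d := mem_Mon.2 hm1d
    rcases hcase with hcase | hcase | ⟨ξ, δ, hξ, hδ, hδ3, hb1', hH⟩
    · exact absurd hi1 (hcase i1)
    · -- large value at `m1`
      have hbm : b m1 ≠ 0 := by
        intro h
        rw [h, map_zero] at hcase
        exact absurd hcase (not_lt.2 zero_le)
      set g : (σ →₀ ℕ) → k := fun m => if m = m1 then b m1 else 1 with hg
      have hg0 : ∀ m, g m ≠ 0 := by
        intro m
        simp only [hg]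
        split_ifs
        · exact hbm
        · exact one_ne_zero
      have hg1 : ∀ m, W.valuation (g m) ≤ 1 := by
        intro m
        simp only [hg]
        split_ifs
        · exact hb1
        · rw [map_one]
      have hgne : ∀ m, m ≠ m1 → g m = 1 := fun m hm => if_neg hm
      have hgm : g m1 = b m1 := if_pos rfl
      have hphi : ∀ i, ∀ m ∈ Mon σ d, m ≠ e i → W.valuation (phi j τ g (e i) m) < 1 := by
        intro i m hm hne
        unfold phi
        by_cases h : e i = m1
        · rw [h, hgm, hgne m (by rw [← h]; exact hne), map_mul, map_div₀, map_one, one_div,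
            ← div_eq_mul_inv]
          rw [div_lt_one₀ (by rw [Valuation.pos_iff]; exact hbm)]
          refine lt_of_le_of_lt ?_ hcase
          obtain ⟨h2, _⟩ := rel_ge j hj (hdd i m hm) hne
          rw [h] at h2
          have h3 : rel j m1 m = (rho j m1 : ℤ) + (rel j m1 m - rho j m1) := by ring
          rw [h3, zpow_add₀ hτ, zpow_natCast, map_mul]
          exact mul_le_of_le_one_right' (val_zpow_le W hv.le (by omega))
        · rw [hgne _ h, div_one, map_mul]
          exact mul_lt_one_of_lt_of_le (val_zpow_lt W hv (rel_pos j (hdd i m hm) hne)) (hg1 m)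
      have h := hw_det_general W hp j τ hτ g (fun m => if m = m1 then 1 else b m) hg0 (Mon σ d) e
        he heM (fun _ => False) (fun _ _ h => h.elim) ?_ ?_ ?_ ?_ (fun _ h => h.elim)
      · have hfun : ∀ m, (if m = m1 then 1 else b m) * (τ ^ (wt j m) * g m) = b m * τ ^ (wt j m) := by
          intro m
          simp only [hg]
          split_ifs with h
          · rw [h]
            ring
          · ring
        simpa only [hfun] using h
      · intro i m hm
        by_cases h : m = e i
        · rw [h, phi_self j τ g hg0, map_one]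
        · exact (hphi i m hm h).le
      · intro i _ m hm hne
        exact hphi i m hm hne
      · intro m hm
        split_ifs with h
        · rw [map_one]
        · exact (hb m hm h).le
      · intro i _
        split_ifs with h
        · rw [map_one]
        · exact hb _ (heM i) h
    · -- small value at `m1`
      have hδ0 : δ ≠ 0 := by
        intro h
        rw [h, map_zero] at hδ
        exact zero_ne_one hδ
      set g : (σ →₀ ℕ) → k := fun m => if m = m1 then δ * τ ^ rho j m1 else 1 with hg
      have hg0 : ∀ m, g m ≠ 0 := by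
        intro m
        simp only [hg]
        split_ifs
        · exact mul_ne_zero hδ0 (pow_ne_zero _ hτ)
        · exact one_ne_zero
      have hg1 : ∀ m, W.valuation (g m) ≤ 1 := by
        intro m
        simp only [hg]
        split_ifs
        · rw [map_mul, hδ, one_mul, map_pow]
          exact pow_le_one' hv.le _
        · rw [map_one]
      have hgne : ∀ m, m ≠ m1 → g m = 1 := fun m hm => if_neg hm
      have hgm : g m1 = δ * τ ^ rho j m1 := if_pos rfl
      have h := hw_det_general W hp j τ hτ g (fun m => if m = m1 then ξ else b m) hg0 (Mon σ d) e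
        he heM (fun w => w = m1) (fun _ _ h h' => h.trans h'.symm) ?_ ?_ ?_ ?_ ?_
      · have hfun : ∀ m, (if m = m1 then ξ else b m) * (τ ^ (wt j m) * g m) = b m * τ ^ (wt j m) := by
          intro m
          simp only [hg]
          split_ifs with h
          · rw [h, hb1']
            ring
          · ring
        simpa only [hfun] using h
      · intro i m hm
        by_cases hne : m = e i
        · rw [hne, phi_self j τ g hg0, map_one]
        · unfold phi
          by_cases h : e i = m1
          · rw [h, hgm, hgne m (by rw [← h]; exact hne), map_mul, map_div₀, map_one, map_mul, hδ,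
              one_mul]
            obtain ⟨h2, _⟩ := rel_ge j hj (hdd i m hm) hne
            rw [h] at h2
            have h3 : rel j m1 m = (rho j m1 : ℤ) + (rel j m1 m - rho j m1) := by ring
            rw [h3, zpow_add₀ hτ, zpow_natCast, map_mul, one_div, mul_comm, ← mul_assoc,
              inv_mul_cancel₀ (by rw [Valuation.ne_zero_iff]; exact pow_ne_zero _ hτ), one_mul]
            exact val_zpow_le W hv.le (by omega)
          · rw [hgne _ h, div_one, map_mul]
            exact mul_le_one' (val_zpow_le W hv.le (rel_nonneg j (hdd i m hm))) (hg1 m)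
      · intro i hi m hm hne
        unfold phi
        rw [hgne _ hi, div_one, map_mul]
        exact mul_lt_one_of_lt_of_le (val_zpow_lt W hv (rel_pos j (hdd i m hm) hne)) (hg1 m)
      · intro m hm
        split_ifs with h
        · exact hξ
        · exact (hb m hm h).le
      · intro i hi
        rw [if_neg hi]
        exact hb _ (heM i) hi
      · intro i hi
        rw [hi]
        exact special_entry W hp j hj τ hτ hv b d m1 hm1 hm1d hb ξ δ hξ hδ hδ3 hH

end HW

end

end MPadc574
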