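import Mathlib
import Pool.Agent.Lib.MP_adc574_ag.Hyp.Spec
import Pool.Agent.Lib.MP_adc574_ag.CharSum

/-! # The Hasse invariants of the Hesse pencil modulo `p = 1 (mod 9)` -/

namespace MPadc574

noncomputable section

variable {p : ℕ} [Fact p.Prime]

theorem sum3 {F R : Type*} [Fintype F] [CommRing R] (f g h : F → R) :
    ∑ v : F × F × F, f v.1 * g v.2.1 * h v.2.2 = (∑ x, f x) * (∑ x, g x) * (∑ x, h x) := by
  rw [Fintype.sum_prod_type, Finset.sum_mul_sum, Finset.sum_mul]
  apply Finset.sum_congr rfl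
  intro x _
  rw [Fintype.sum_prod_type, Finset.sum_mul_sum]

theorem pow_expand {R : Type*} [CommRing R] (r : ℕ) (h : Fin 4 → R) :
    (h 0 + h 1 + h 2 + h 3) ^ r = ∑ t : Fin r → Fin 4, ∏ a, h (t a) := by
  rw [← Fin.sum_univ_four h, ← Fin.prod_const, Finset.prod_univ_sum, Fintype.piFinset_univ]

theorem sum_HH (z : ZMod p) : ∑ v : ZMod p × ZMod p × ZMod p,
    (v.1 ^ 3 + v.2.1 ^ 3 + v.2.2 ^ 3 + z * v.1 * v.2.1 * v.2.2) ^ (p - 1) = - HH (p - 1) z := by
  classical
  have hp1 : 1 < p := (Fact.out : p.Prime).one_lt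
  have h1 : ∀ v : ZMod p × ZMod p × ZMod p,
      (v.1 ^ 3 + v.2.1 ^ 3 + v.2.2 ^ 3 + z * v.1 * v.2.1 * v.2.2) ^ (p - 1) =
      ∑ t : Fin (p - 1) → Fin 4, z ^ cnt t 3 * (v.1 ^ (3 * cnt t 0 + cnt t 3) *
        v.2.1 ^ (3 * cnt t 1 + cnt t 3) * v.2.2 ^ (3 * cnt t 2 + cnt t 3)) := by
    intro v
    have h2 := pow_expand (p - 1) ![v.1 ^ 3, v.2.1 ^ 3, v.2.2 ^ 3, z * v.1 * v.2.1 * v.2.2]
    simp only [Matrix.cons_val] at h2
    rw [h2]
    apply Finset.sum_congr rfl
    intro t _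
    rw [prod_comp_cnt t ![v.1 ^ 3, v.2.1 ^ 3, v.2.2 ^ 3, z * v.1 * v.2.1 * v.2.2]]
    simp only [Matrix.cons_val]
    rw [pow_add, pow_add, pow_add, pow_mul, pow_mul, pow_mul, mul_pow, mul_pow, mul_pow]
    ring
  rw [Finset.sum_congr rfl (fun v _ => h1 v), Finset.sum_comm]
  unfold HH
  rw [← Finset.sum_neg_distrib]
  apply Finset.sum_congr rfl
  intro t _
  rw [← Finset.mul_sum, sum3 (fun x => x ^ (3 * cnt t 0 + cnt t 3))
    (fun x => x ^ (3 * cnt t 1 + cnt t 3)) (fun x => x ^ (3 * cnt t 2 + cnt t 3)),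
    sum_pow_zmod, sum_pow_zmod, sum_pow_zmod]
  have hc := sum_cnt t
  by_cases hgood : cnt t 0 = cnt t 1 ∧ cnt t 1 = cnt t 2
  · have e0 : 3 * cnt t 0 + cnt t 3 = p - 1 := by omega
    have e1 : 3 * cnt t 1 + cnt t 3 = p - 1 := by omega
    have e2 : 3 * cnt t 2 + cnt t 3 = p - 1 := by omega
    rw [if_pos hgood, e0, e1, e2, if_pos ⟨by omega, dvd_rfl⟩]
    ring
  · rw [if_neg hgood]
    have hlt : 3 * cnt t 0 + cnt t 3 < p - 1 ∨ 3 * cnt t 1 + cnt t 3 < p - 1 ∨
        3 * cnt t 2 + cnt t 3 < p - 1 := by omega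
    have hz : ∀ a : ℕ, a < p - 1 → (if a ≠ 0 ∧ (p - 1) ∣ a then (-1 : ZMod p) else 0) = 0 := by
      intro a ha
      rw [if_neg]
      rintro ⟨h0, h1⟩
      have := Nat.le_of_dvd (Nat.pos_of_ne_zero h0) h1
      omega
    rcases hlt with h | h | h
    · rw [hz _ h]
      ring
    · rw [hz _ h]
      ring
    · rw [hz _ h]
      ring

theorem exists_omega (h3 : 3 ∣ p - 1) : ∃ ω : ZMod p, ω ^ 2 + ω + 1 = 0 ∧ ω ≠ 1 := by
  have hp1 : 1 < p := (Fact.out : p.Prime).one_lt
  have hcard : Fintype.card (ZMod p)ˣ = p - 1 := ZMod.card_units p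
  have hp3 : Fact (Nat.Prime 3) := ⟨Nat.prime_three⟩
  obtain ⟨ω, hω⟩ := exists_prime_orderOf_dvd_card (G := (ZMod p)ˣ) 3 (by rw [hcard]; exact h3)
  have h1 : ω ^ 3 = 1 := by rw [← hω, pow_orderOf_eq_one]
  have h2 : ω ≠ 1 := by
    rintro rfl
    rw [orderOf_one] at hω
    norm_num at hω
  have h2' : (ω : ZMod p) ≠ 1 := fun h => h2 (Units.ext h)
  refine ⟨ω, ?_, h2'⟩
  have h4 : (ω : ZMod p) ^ 3 = 1 := by
    rw [← Units.val_pow_eq_pow_val, h1, Units.val_one]
  have h5 : ((ω : ZMod p) - 1) * ((ω : ZMod p) ^ 2 + ω + 1) = 0 := by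
    linear_combination h4
  rcases mul_eq_zero.1 h5 with h | h
  · exact absurd (sub_eq_zero.1 h) h2'
  · exact h

section Count

variable {ω : ZMod p} (hω : ω ^ 2 + ω + 1 = 0) (hω1 : ω ≠ 1)

include hω hω1

omit hω1 in
theorem cube_eq_iff (x y : ZMod p) : y ^ 3 = x ^ 3 ↔ y = x ∨ y = ω * x ∨ y = ω ^ 2 * x := by
  constructor
  · intro h
    have h1 : (y - x) * ((y - ω * x) * (y - ω ^ 2 * x)) = 0 := by
      linear_combination h + (-x * y ^ 2 + ω * x ^ 2 * y + (1 - ω) * x ^ 3) * hω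
    rcases mul_eq_zero.1 h1 with h | h
    · exact Or.inl (sub_eq_zero.1 h)
    · rcases mul_eq_zero.1 h with h | h
      · exact Or.inr (Or.inl (sub_eq_zero.1 h))
      · exact Or.inr (Or.inr (sub_eq_zero.1 h))
  · have h3 : ω ^ 3 = 1 := by linear_combination (ω - 1) * hω
    rintro (h | h | h)
    · rw [h]
    · rw [h, mul_pow, h3, one_mul]
    · rw [h, mul_pow, ← pow_mul, show 2 * 3 = 3 * 2 by norm_num, pow_mul, h3, one_pow, one_mul]

theorem omega_ne : ω ≠ 0 ∧ ω ^ 2 ≠ 1 ∧ ω ^ 2 ≠ ω := by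
  have h0 : ω ≠ 0 := by
    rintro rfl
    norm_num at hω
  have h3 : ω ^ 3 = 1 := by linear_combination (ω - 1) * hω
  refine ⟨h0, ?_, ?_⟩
  · intro h
    apply hω1
    have : ω ^ 3 = ω := by rw [pow_succ, h, one_mul]
    rw [← this, h3]
  · intro h
    apply hω1
    have h4 : ω * (ω - 1) = 0 := by linear_combination h
    exact sub_eq_zero.1 ((mul_eq_zero.1 h4).resolve_left h0)

theorem card_cube (x : ZMod p) (hx : x ≠ 0) :
    (Finset.univ.filter (fun y : ZMod p => y ^ 3 = x ^ 3)).card = 3 := by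
  classical
  obtain ⟨h0, h1, h2⟩ := omega_ne hω hω1
  rw [Finset.card_eq_three]
  refine ⟨x, ω * x, ω ^ 2 * x, ?_, ?_, ?_, ?_⟩
  · intro h
    apply hω1
    have : (ω - 1) * x = 0 := by linear_combination -h
    exact sub_eq_zero.1 ((mul_eq_zero.1 this).resolve_right hx)
  · intro h
    apply h1
    have : (ω ^ 2 - 1) * x = 0 := by linear_combination -h
    exact sub_eq_zero.1 ((mul_eq_zero.1 this).resolve_right hx)
  · intro h
    apply h2
    have : (ω ^ 2 - ω) * x = 0 := by linear_combination -h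
    exact sub_eq_zero.1 ((mul_eq_zero.1 this).resolve_right hx)
  · ext y
    rw [Finset.mem_filter, Finset.mem_insert, Finset.mem_insert, Finset.mem_singleton,
      cube_eq_iff hω]
    simp

/-- The points of the Hesse cubic with nonzero coordinates. -/
def UU (z : ZMod p) : Finset (ZMod p × ZMod p) :=
  Finset.univ.filter (fun v => v.1 ≠ 0 ∧ v.2 ≠ 0 ∧ v.1 ^ 3 + v.2 ^ 3 + 1 + z * v.1 * v.2 = 0)

omit hω hω1 in
theorem mem_UU {z : ZMod p} {v : ZMod p × ZMod p} : v ∈ UU z ↔
    v.1 ≠ 0 ∧ v.2 ≠ 0 ∧ v.1 ^ 3 + v.2 ^ 3 + 1 + z * v.1 * v.2 = 0 := by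
  simp [UU]

/-- The image of `UU` in the quotient by the first automorphism. -/
def QQ (z : ZMod p) : Finset (ZMod p × ZMod p) := (UU z).image (fun v => (v.1 ^ 3, v.1 * v.2))

omit hω hω1 in
theorem mem_QQ {z : ZMod p} {v : ZMod p × ZMod p} : v ∈ QQ z ↔
    ∃ u ∈ UU z, (u.1 ^ 3, u.1 * u.2) = v := Finset.mem_image

theorem card_UU (z : ZMod p) : (UU z).card = 3 * (QQ z).card := by
  classical
  have h3 : ω ^ 3 = 1 := by linear_combination (ω - 1) * hω
  obtain ⟨h0, h1, h2⟩ := omega_ne hω hω1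
  rw [Finset.card_eq_sum_card_image (fun v : ZMod p × ZMod p => (v.1 ^ 3, v.1 * v.2)) (UU z)]
  rw [mul_comm]
  apply Finset.sum_const_nat
  intro b hb
  obtain ⟨⟨x, y⟩, huv, rfl⟩ := Finset.mem_image.1 hb
  obtain ⟨hx, hy, he⟩ := mem_UU.1 huv
  dsimp only at hx hy he ⊢
  rw [Finset.card_eq_three]
  refine ⟨(x, y), (ω * x, ω ^ 2 * y), (ω ^ 2 * x, ω * y), ?_, ?_, ?_, ?_⟩
  · intro h
    apply hω1
    have h := congrArg Prod.fst h
    dsimp only at h
    have : (ω - 1) * x = 0 := by linear_combination -h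
    exact sub_eq_zero.1 ((mul_eq_zero.1 this).resolve_right hx)
  · intro h
    apply h1
    have h := congrArg Prod.fst h
    dsimp only at h
    have : (ω ^ 2 - 1) * x = 0 := by linear_combination -h
    exact sub_eq_zero.1 ((mul_eq_zero.1 this).resolve_right hx)
  · intro h
    apply h2
    have h := congrArg Prod.fst h
    dsimp only at h
    have : (ω ^ 2 - ω) * x = 0 := by linear_combination -h
    exact sub_eq_zero.1 ((mul_eq_zero.1 this).resolve_right hx)
  · ext ⟨x', y'⟩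
    rw [Finset.mem_filter, Finset.mem_insert, Finset.mem_insert, Finset.mem_singleton, mem_UU]
    simp only [Prod.mk.injEq]
    constructor
    · rintro ⟨_, hc, hm⟩
      rcases (cube_eq_iff hω x x').1 hc with h | h | h
      · left
        refine ⟨h, ?_⟩
        rw [h] at hm
        exact mul_left_cancel₀ hx hm
      · right; left
        refine ⟨h, ?_⟩
        rw [h] at hm
        have : ω * x * y' = ω * x * (ω ^ 2 * y) := by linear_combination hm - x * y * h3
        exact mul_left_cancel₀ (mul_ne_zero h0 hx) this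
      · right; right
        refine ⟨h, ?_⟩
        rw [h] at hm
        have : ω ^ 2 * x * y' = ω ^ 2 * x * (ω * y) := by linear_combination hm - x * y * h3
        exact mul_left_cancel₀ (mul_ne_zero (pow_ne_zero 2 h0) hx) this
    · rintro (⟨rfl, rfl⟩ | ⟨rfl, rfl⟩ | ⟨rfl, rfl⟩)
      · exact ⟨⟨hx, hy, he⟩, rfl, rfl⟩
      · refine ⟨⟨mul_ne_zero h0 hx, mul_ne_zero (pow_ne_zero 2 h0) hy, ?_⟩, ?_, ?_⟩
        · linear_combination he + (x ^ 3 + (ω ^ 3 + 1) * y ^ 3 + z * x * y) * h3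
        · linear_combination x ^ 3 * h3
        · linear_combination x * y * h3
      · refine ⟨⟨mul_ne_zero (pow_ne_zero 2 h0) hx, mul_ne_zero h0 hy, ?_⟩, ?_, ?_⟩
        · linear_combination he + ((ω ^ 3 + 1) * x ^ 3 + y ^ 3 + z * x * y) * h3
        · linear_combination (ω ^ 3 + 1) * x ^ 3 * h3
        · linear_combination x * y * h3

omit hω hω1 in
theorem QQ_step {z : ZMod p} {v : ZMod p × ZMod p} (hv : v ∈ QQ z) :
    (v.2 ^ 3 / v.1 ^ 2, v.2 / v.1) ∈ QQ z := by
  obtain ⟨⟨x, y⟩, hu, rfl⟩ := mem_QQ.1 hv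
  obtain ⟨hx, hy, he⟩ := mem_UU.1 hu
  dsimp only at hx hy he ⊢
  rw [mem_QQ]
  refine ⟨(y / x, 1 / x), ?_, ?_⟩
  · rw [mem_UU]
    refine ⟨div_ne_zero hy hx, one_div_ne_zero hx, ?_⟩
    dsimp only
    field_simp
    linear_combination he
  · dsimp only
    rw [Prod.mk.injEq]
    constructor
    · field_simp
    · field_simp

omit hω hω1 in
theorem QQ_ne {z : ZMod p} {v : ZMod p × ZMod p} (hv : v ∈ QQ z) : v.1 ≠ 0 ∧ v.2 ≠ 0 := by
  obtain ⟨⟨x, y⟩, hu, rfl⟩ := mem_QQ.1 hv
  obtain ⟨hx, hy, he⟩ := mem_UU.1 hu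
  exact ⟨pow_ne_zero 3 hx, mul_ne_zero hx hy⟩

omit hω hω1 in
theorem QQ_eq {z : ZMod p} {v : ZMod p × ZMod p} (hv : v ∈ QQ z) :
    v.1 ^ 2 + (1 + z * v.2) * v.1 + v.2 ^ 3 = 0 := by
  obtain ⟨⟨x, y⟩, hu, rfl⟩ := mem_QQ.1 hv
  obtain ⟨hx, hy, he⟩ := mem_UU.1 hu
  dsimp only at hx hy he ⊢
  linear_combination x ^ 3 * he

omit hω hω1 in
theorem card_QQ_mod {z : ZMod p} (hz : z ^ 3 ≠ -27) : 3 ∣ (QQ z).card := by
  classical
  let f : Function.End (QQ z) := fun v => ⟨(v.1.2 ^ 3 / v.1.1 ^ 2, v.1.2 / v.1.1), QQ_step v.2⟩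
  have hf : f ^ 3 ^ 1 = 1 := by
    funext v
    obtain ⟨⟨X, P⟩, hv⟩ := v
    obtain ⟨hX, hP⟩ := QQ_ne hv
    apply Subtype.ext
    change _ = (X, P)
    dsimp only at hX hP
    rw [pow_one]
    change (((P / X) / (P ^ 3 / X ^ 2)) ^ 3 / ((P / X) ^ 3 / (P ^ 3 / X ^ 2) ^ 2) ^ 2,
      ((P / X) / (P ^ 3 / X ^ 2)) / ((P / X) ^ 3 / (P ^ 3 / X ^ 2) ^ 2)) = (X, P)
    rw [Prod.mk.injEq]
    constructor
    · field_simp
    · field_simp
  have h3 : Fact (Nat.Prime 3) := ⟨Nat.prime_three⟩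
  have h := Equiv.Perm.card_fixedPoints_modEq hf
  have hfix : IsEmpty f.fixedPoints := by
    constructor
    rintro ⟨⟨v, hv⟩, hfv⟩
    have h1 : (v.2 ^ 3 / v.1 ^ 2, v.2 / v.1) = v := congrArg Subtype.val hfv
    obtain ⟨⟨x, y⟩, hu, rfl⟩ := mem_QQ.1 hv
    obtain ⟨hx, hy, he⟩ := mem_UU.1 hu
    dsimp only at hx hy he h1
    rw [Prod.mk.injEq] at h1
    obtain ⟨h2, h4⟩ := h1
    have hx3 : x ^ 3 = 1 := by
      have h5 := (div_eq_iff (pow_ne_zero 3 hx)).1 h4
      have h6 : x * y * x ^ 3 = x * y * 1 := by linear_combination -h5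
      exact mul_left_cancel₀ (mul_ne_zero hx hy) h6
    apply hz
    have hy3 : y ^ 3 = 1 := by
      have h5 := (div_eq_iff (pow_ne_zero 2 (pow_ne_zero 3 hx))).1 h2
      rw [mul_pow, hx3] at h5
      linear_combination h5
    have h5 : z * (x * y) = -3 := by linear_combination he - hx3 - hy3
    have h6 : z ^ 3 = (z * (x * y)) ^ 3 := by
      rw [mul_pow, mul_pow, hx3, hy3]
      ring
    rw [h6, h5]
    norm_num
  rw [Fintype.card_eq_zero_iff.2 hfix, Fintype.card_coe] at h
  exact (Nat.modEq_zero_iff_dvd).1 h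

omit hω hω1 in
theorem card_QQ_le (z : ZMod p) : (QQ z).card ≤ 2 * p := by
  classical
  refine (Finset.card_le_mul_card_image (f := Prod.snd) (QQ z) 2 ?_).trans ?_
  · intro P _
    by_cases hne : ((QQ z).filter (fun v => v.2 = P)).Nonempty
    · obtain ⟨⟨X, P'⟩, hv⟩ := hne
      rw [Finset.mem_filter] at hv
      obtain ⟨hv, hP⟩ := hv
      dsimp only at hP
      subst hP
      have h1 := QQ_eq hv
      dsimp only at h1
      have hsub : (QQ z).filter (fun v => v.2 = P') ⊆ {(X, P'), (-(1 + z * P') - X, P')} := by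
        rintro ⟨X', P''⟩ hv'
        rw [Finset.mem_filter] at hv'
        obtain ⟨hv', hP'⟩ := hv'
        dsimp only at hP'
        subst hP'
        have h2 := QQ_eq hv'
        dsimp only at h2
        have h3 : (X' - X) * (X' - (-(1 + z * P'') - X)) = 0 := by linear_combination h2 - h1
        rw [Finset.mem_insert, Finset.mem_singleton]
        rcases mul_eq_zero.1 h3 with h | h
        · left
          rw [sub_eq_zero.1 h]
        · right
          rw [sub_eq_zero.1 h]
      exact (Finset.card_le_card hsub).trans Finset.card_le_two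
    · rw [Finset.not_nonempty_iff_eq_empty] at hne
      rw [hne, Finset.card_empty]
      norm_num
  · apply Nat.mul_le_mul_left
    have := Finset.card_le_univ ((QQ z).image Prod.snd)
    rwa [ZMod.card] at this

omit hω1 in
/-- The number of zeros of the Hesse cubic, modulo `p`. -/
theorem HH_eq_card (z : ZMod p) (hω1 : ω ≠ 1) :
    HH (p - 1) z = -(8 + ((UU z).card : ZMod p)) := by
  classical
  have hp1 : 1 < p := (Fact.out : p.Prime).one_lt
  have h1 := sum_HH z
  have hpow : ∀ a : ZMod p, a ^ (p - 1) = 1 - if a = 0 then 1 else 0 := by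
    intro a
    by_cases ha : a = 0
    · rw [if_pos ha, ha, zero_pow (by omega), sub_self]
    · rw [if_neg ha, ZMod.pow_card_sub_one_eq_one ha, sub_zero]
  have h2 : HH (p - 1) z = ∑ v : ZMod p × ZMod p × ZMod p,
      if v.1 ^ 3 + v.2.1 ^ 3 + v.2.2 ^ 3 + z * v.1 * v.2.1 * v.2.2 = 0 then (1 : ZMod p) else 0 := by
    rw [← neg_inj, ← h1, Finset.sum_congr rfl (fun v _ => hpow _), Finset.sum_sub_distrib]
    simp
  rw [h2, Fintype.sum_prod_type]
  -- the slices
  have hS0 : ∑ y : ZMod p, ∑ w : ZMod p, (if y ^ 3 + w ^ 3 = 0 then (1 : ZMod p) else 0) = -2 := by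
    have h3 : ∀ y : ZMod p, ∑ w : ZMod p, (if y ^ 3 + w ^ 3 = 0 then (1 : ZMod p) else 0) =
        3 - (if y = 0 then 2 else 0) := by
      intro y
      by_cases hy : y = 0
      · subst hy
        rw [if_pos rfl, Finset.sum_eq_single 0]
        · norm_num
        · intro w _ hw
          rw [if_neg]
          intro h
          apply hw
          have : w ^ 3 = 0 := by linear_combination h
          exact pow_eq_zero_iff (three_ne_zero) |>.1 this
        · intro h
          exact absurd (Finset.mem_univ _) h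
      · rw [if_neg hy, sub_zero, Finset.sum_boole]
        have h4 := card_cube hω hω1 (-y) (neg_ne_zero.2 hy)
        have h5 : (Finset.univ.filter (fun w : ZMod p => y ^ 3 + w ^ 3 = 0)) =
            Finset.univ.filter (fun w : ZMod p => w ^ 3 = (-y) ^ 3) := by
          apply Finset.filter_congr
          intro w _
          constructor
          · intro h
            linear_combination h
          · intro h
            linear_combination h
        rw [h5, h4]
        norm_num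
    rw [Finset.sum_congr rfl (fun y _ => h3 y), Finset.sum_sub_distrib]
    simp
  have hS1 : ∑ y : ZMod p, ∑ w : ZMod p,
      (if y ^ 3 + w ^ 3 + 1 + z * y * w = 0 then (1 : ZMod p) else 0) = 6 + ((UU z).card : ZMod p) := by
    have h3 : ∀ y w : ZMod p, (if y ^ 3 + w ^ 3 + 1 + z * y * w = 0 then (1 : ZMod p) else 0) =
        (if (y, w) ∈ UU z then 1 else 0) + ((if y = 0 then (if w ^ 3 = (-1) ^ 3 then 1 else 0) else 0)
          + (if w = 0 then (if y ^ 3 = (-1) ^ 3 then 1 else 0) else 0)) := by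
      intro y w
      simp only [mem_UU]
      by_cases hy : y = 0
      · subst hy
        by_cases hw : w = 0
        · subst hw
          norm_num
        · have : (0 : ZMod p) ^ 3 + w ^ 3 + 1 + z * 0 * w = 0 ↔ w ^ 3 = (-1) ^ 3 := by
            constructor
            · intro h
              linear_combination h
            · intro h
              linear_combination h
          simp only [this]
          simp [hw]
      · by_cases hw : w = 0
        · subst hw
          have : y ^ 3 + (0 : ZMod p) ^ 3 + 1 + z * y * 0 = 0 ↔ y ^ 3 = (-1) ^ 3 := by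
            constructor
            · intro h
              linear_combination h
            · intro h
              linear_combination h
          simp only [this]
          simp [hy]
        · rw [if_neg hy, if_neg hw]
          simp [hy, hw]
    have h4 := card_cube hω hω1 (-1) (neg_ne_zero.2 one_ne_zero)
    simp only [h3, Finset.sum_add_distrib]
    have h5 : ∑ y : ZMod p, ∑ w : ZMod p, (if (y, w) ∈ UU z then (1 : ZMod p) else 0) =
        ((UU z).card : ZMod p) := by
      rw [← Fintype.sum_prod_type (f := fun v : ZMod p × ZMod p => if v ∈ UU z then (1 : ZMod p) else 0),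
        Finset.sum_boole]
      simp
    rw [h5]
    have h6 : ∑ y : ZMod p, ∑ w : ZMod p,
        (if y = 0 then (if w ^ 3 = (-1) ^ 3 then (1 : ZMod p) else 0) else 0) = 3 := by
      rw [Finset.sum_eq_single 0]
      · simp only [if_true]
        rw [Finset.sum_boole, h4]
        norm_num
      · intro y _ hy
        simp [hy]
      · intro h
        exact absurd (Finset.mem_univ _) h
    have h7 : ∑ y : ZMod p, ∑ w : ZMod p,
        (if w = 0 then (if y ^ 3 = (-1) ^ 3 then (1 : ZMod p) else 0) else 0) = 3 := by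
      rw [Finset.sum_comm]
      exact h6
    rw [h6, h7]
    ring
  have hslice : ∀ x : ZMod p, ∑ v : ZMod p × ZMod p,
      (if x ^ 3 + v.1 ^ 3 + v.2 ^ 3 + z * x * v.1 * v.2 = 0 then (1 : ZMod p) else 0) =
      (6 + ((UU z).card : ZMod p)) - (if x = 0 then 8 + ((UU z).card : ZMod p) else 0) := by
    intro x
    by_cases hx : x = 0
    · subst hx
      rw [if_pos rfl, Fintype.sum_prod_type]
      have : ∀ y w : ZMod p, (0 : ZMod p) ^ 3 + y ^ 3 + w ^ 3 + z * 0 * y * w = y ^ 3 + w ^ 3 := by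
        intro y w
        ring
      simp only [this]
      rw [hS0]
      ring
    · rw [if_neg hx, sub_zero, ← hS1, Fintype.sum_prod_type]
      rw [← Equiv.sum_comp (Equiv.mulLeft₀ x hx)]
      apply Finset.sum_congr rfl
      intro y _
      rw [← Equiv.sum_comp (Equiv.mulLeft₀ x hx)]
      apply Finset.sum_congr rfl
      intro w _
      have hy' : (Equiv.mulLeft₀ x hx) y = x * y := rfl
      have hw' : (Equiv.mulLeft₀ x hx) w = x * w := rfl
      rw [hy', hw']
      have : x ^ 3 + (x * y) ^ 3 + (x * w) ^ 3 + z * x * (x * y) * (x * w) = 0 ↔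
          y ^ 3 + w ^ 3 + 1 + z * y * w = 0 := by
        constructor
        · intro h
          have h1 : x ^ 3 * (y ^ 3 + w ^ 3 + 1 + z * y * w) = 0 := by linear_combination h
          exact (mul_eq_zero.1 h1).resolve_left (pow_ne_zero 3 hx)
        · intro h
          linear_combination x ^ 3 * h
      simp only [this]
  rw [Finset.sum_congr rfl (fun x _ => hslice x), Finset.sum_sub_distrib]
  simp

/-- The degenerate members of the pencil. -/
theorem HH_degenerate (hp3 : (3 : ZMod p) ≠ 0) {z : ZMod p} (hz : z ^ 3 = -27) :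
    HH (p - 1) z = 1 := by
  classical
  have h1 := sum_HH z
  obtain ⟨ζ, rfl⟩ : ∃ ζ : ZMod p, z = -3 * ζ := ⟨-z / 3, by field_simp⟩
  have hζ : ζ ^ 3 = 1 := by
    have h2 : (3 : ZMod p) ^ 3 * (ζ ^ 3 - 1) = 0 := by linear_combination -hz
    exact sub_eq_zero.1 ((mul_eq_zero.1 h2).resolve_left (pow_ne_zero 3 hp3))
  have h3 : ω ^ 3 = 1 := by linear_combination (ω - 1) * hω
  obtain ⟨h0, h12, h22⟩ := omega_ne hω hω1
  have hζ0 : ζ ≠ 0 := by
    rintro rfl
    norm_num at hζ
  let L : ZMod p × ZMod p × ZMod p → ZMod p × ZMod p × ZMod p := fun v =>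
    (v.1 + v.2.1 + ζ * v.2.2, v.1 + ω * v.2.1 + ω ^ 2 * (ζ * v.2.2),
      v.1 + ω ^ 2 * v.2.1 + ω * (ζ * v.2.2))
  have hL : Function.Injective L := by
    rintro ⟨x, y, w⟩ ⟨x', y', w'⟩ h
    simp only [L, Prod.mk.injEq] at h
    obtain ⟨e1, e2, e3⟩ := h
    have hx : 3 * (x - x') = 0 := by
      linear_combination e1 + e2 + e3 - (y - y' + ζ * (w - w')) * hω
    have hx' : x = x' := sub_eq_zero.1 ((mul_eq_zero.1 hx).resolve_left hp3)
    have hy : 3 * (y - y') = 0 := by
      linear_combination e1 + ω ^ 2 * e2 + ω * e3 - (x - x' + ω * ζ * (w - w')) * hω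
        - (2 * (y - y') + (ω - 1) * ζ * (w - w')) * h3
    have hy' : y = y' := sub_eq_zero.1 ((mul_eq_zero.1 hy).resolve_left hp3)
    subst hx' hy'
    have hw : ζ * w = ζ * w' := by linear_combination e1
    rw [mul_left_cancel₀ hζ0 hw]
  have hLb : Function.Bijective L := Finite.injective_iff_bijective.1 hL
  have h4 : ∀ v : ZMod p × ZMod p × ZMod p,
      (v.1 ^ 3 + v.2.1 ^ 3 + v.2.2 ^ 3 + -3 * ζ * v.1 * v.2.1 * v.2.2) ^ (p - 1) =
      (L v).1 ^ (p - 1) * (L v).2.1 ^ (p - 1) * (L v).2.2 ^ (p - 1) := by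
    intro v
    rw [← mul_pow, ← mul_pow]
    congr 1
    obtain ⟨x, y, w⟩ := v
    simp only [L]
    linear_combination -w ^ 3 * hζ
      - (x + y + ζ * w) * (x * y + x * (ζ * w) + y * (ζ * w)) * hω
      - (x + y + ζ * w) * (y ^ 2 + (ζ * w) ^ 2 + ω * y * (ζ * w)) * h3
  rw [Finset.sum_congr rfl (fun v _ => h4 v),
    hLb.sum_comp (fun v => v.1 ^ (p - 1) * v.2.1 ^ (p - 1) * v.2.2 ^ (p - 1)), 
    sum3 (fun x => x ^ (p - 1)) (fun x => x ^ (p - 1)) (fun x => x ^ (p - 1)), sum_pow_zmod,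
    if_pos ⟨by have := (Fact.out : p.Prime).one_lt; omega, dvd_rfl⟩] at h1
  linear_combination h1

end Count

/-- The Hasse invariants of the Hesse pencil do not vanish modulo `p` if `p = 1 (mod 9)`. -/
theorem HH_ne_zero (h9 : 9 ∣ p - 1) (z : ZMod p) : HH (p - 1) z ≠ 0 := by
  have hp1 : 1 < p := (Fact.out : p.Prime).one_lt
  have hp10 : 10 ≤ p := by
    have := Nat.le_of_dvd (by omega) h9
    omega
  obtain ⟨ω, hω, hω1⟩ := exists_omega (p := p) (dvd_trans (by norm_num) h9)
  have hp3 : (3 : ZMod p) ≠ 0 := by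
    intro h
    have h1 : ((3 : ℕ) : ZMod p) = 0 := by exact_mod_cast h
    rw [ZMod.natCast_eq_zero_iff] at h1
    have := Nat.le_of_dvd (by norm_num) h1
    omega
  by_cases hz : z ^ 3 = -27
  · rw [HH_degenerate hω hω1 hp3 hz]
    exact one_ne_zero
  · rw [HH_eq_card hω z hω1]
    intro h
    have h1 : ((8 + (UU z).card : ℕ) : ZMod p) = 0 := by
      push_cast
      exact neg_eq_zero.1 h
    rw [ZMod.natCast_eq_zero_iff] at h1
    rw [card_UU hω hω1] at h1
    obtain ⟨q, hq⟩ := card_QQ_mod hz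
    have hle := card_QQ_le z
    obtain ⟨k, hk⟩ := h1
    obtain ⟨e, he⟩ := h9
    rw [hq] at hk hle
    have hk7 : k < 8 := by
      by_contra hcon
      push Not at hcon
      have : p * 8 ≤ p * k := Nat.mul_le_mul_left _ hcon
      omega
    have hpe : p = 9 * e + 1 := by omega
    subst hpe
    interval_cases k <;> omega

end

end MPadc574
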