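import Mathlib
import Pool.Agent.Lib.MP_adc574_ag.Main
import Pool.Agent.Lib.MP_adc574_ag.General

/-! # Transfer of a valued field of characteristic zero to characteristic `p` -/

namespace MPadc574

open IsLocalRing

noncomputable section

universe u v

theorem transfer {A : Type v} {K : Type u} [CommRing A] [IsDomain A] [Algebra.FiniteType ℤ A]
    [Field K] [Algebra A K] [CharZero K] (hAK : Function.Injective (algebraMap A K))
    (V : ValuationSubring K) (hVQ : ∀ q : ℚ, (q : K) ∈ V) (S : Finset K) (hS : ∀ y ∈ S, y ∈ V)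
    (c : A) (hc : c ≠ 0) (m : ℕ) (hm : 0 < m) (N : ℕ) :
    ∃ p : ℕ, p.Prime ∧ N < p ∧ m ∣ p - 1 ∧ ∃ (k : Type u) (_ : Field k) (_ : CharP k p)
      (T : Subring K) (F : T →+* k) (W : ValuationSubring k) (hAT : ∀ y : A, algebraMap A K y ∈ T)
      (hST : ∀ y ∈ S, y ∈ T), F ⟨algebraMap A K c, hAT c⟩ ≠ 0 ∧
      ∀ (y : K) (hy : y ∈ S), F ⟨y, hST y hy⟩ ∈ W ∧
        (V.valuation y < 1 → W.valuation (F ⟨y, hST y hy⟩) < 1) ∧
        ∃ n : ℕ, W.valuation (F ⟨y, hST y hy⟩ - n) < 1 := by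
  classical
  obtain ⟨s, hs⟩ := (inferInstance : Algebra.FiniteType ℤ A).out
  let gen : A → K := fun y => if algebraMap A K y ∈ V then algebraMap A K y else (algebraMap A K y)⁻¹
  set T : Finset K := S ∪ s.image gen with hT
  have hTV : ∀ y ∈ T, y ∈ V := by
    intro y hy
    rw [hT, Finset.mem_union] at hy
    rcases hy with hy | hy
    · exact hS y hy
    · obtain ⟨z, hz, rfl⟩ := Finset.mem_image.1 hy
      simp only [gen]
      split_ifs with h
      · exact h
      · exact (V.mem_or_inv_mem _).resolve_left h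
  set B : Subring K := Subring.closure (T : Set K) with hB
  have hBV : B ≤ V.toSubring := by
    rw [hB, Subring.closure_le]
    intro y hy
    exact hTV y hy
  have : Algebra.FiniteType ℤ B := finiteType_closure T
  have : IsNoetherianRing B := Algebra.FiniteType.isNoetherianRing ℤ B
  have hSB : ∀ y ∈ S, y ∈ B := by
    intro y hy
    apply Subring.subset_closure
    rw [Finset.mem_coe, hT, Finset.mem_union]
    exact Or.inl hy
  have hgen : ∀ y ∈ s, algebraMap A K y ∈ B ∨ (algebraMap A K y)⁻¹ ∈ B := by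
    intro y hy
    have h1 : gen y ∈ B := by
      apply Subring.subset_closure
      rw [Finset.mem_coe, hT, Finset.mem_union]
      right
      exact Finset.mem_image_of_mem _ hy
    simp only [gen] at h1
    split_ifs at h1 with h2
    · exact Or.inl h1
    · exact Or.inr h1
  obtain ⟨β0, hβ0B, hβ0, hden⟩ := exists_denom s hs B hgen
  obtain ⟨m0, hm0⟩ := hden c
  have hcK : algebraMap A K c ≠ 0 := by
    intro h
    exact hc (hAK (by rw [h, map_zero]))
  set u : B := ⟨β0 ^ m0 * algebraMap A K c, hm0⟩ with hu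
  have hu0 : u ≠ 0 := by
    intro h
    have := congrArg Subtype.val h
    exact mul_ne_zero (pow_ne_zero _ hβ0) hcK this
  have hβ0' : (⟨β0, hβ0B⟩ : B) ≠ 0 := by
    intro h
    exact hβ0 (congrArg Subtype.val h)
  obtain ⟨N1, hN1⟩ := exists_prime_avoiding ((⟨β0, hβ0B⟩ : B) * u) (mul_ne_zero hβ0' hu0)
  -- the residue ring of `B`
  let ψ : B →+* ResidueField V := (residue V).comp (Subring.inclusion hBV : B →+* V.toSubring)
  have := charZero_residue V hVQ
  have : CharZero ψ.range := by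
    apply charZero_of_inj_zero
    intro n hn
    have h1 := congrArg Subtype.val hn
    have h2 : ((n : ℕ) : ResidueField V) = 0 := by
      simpa using h1
    exact_mod_cast h2
  have : Algebra.FiniteType ℤ ψ.range :=
    Algebra.FiniteType.of_surjective (ψ.rangeRestrict.toIntAlgHom) ψ.rangeRestrict_surjective
  obtain ⟨p, hp, hpN, hmp, ⟨g⟩⟩ := exists_hom_cyclotomic ψ.range m hm (max N N1)
  have hpf : Fact p.Prime := ⟨hp⟩
  refine ⟨p, hp, lt_of_le_of_lt (le_max_left _ _) hpN, hmp, ?_⟩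
  let f' : B →+* ZMod p := g.comp ψ.rangeRestrict
  have hker' : (RingHom.ker f').IsPrime := RingHom.ker_isPrime f'
  have hpker : (p : B) ∈ RingHom.ker f' := by
    rw [RingHom.mem_ker, map_natCast]
    exact CharP.cast_eq_zero (ZMod p) p
  obtain ⟨Q, hQ, hpQ, hβQ, hQQ'⟩ := hN1 p hp (lt_of_le_of_lt (le_max_right _ _) hpN)
    (RingHom.ker f') hker' hpker
  let kp := FractionRing (B ⧸ Q)
  let f : B →+* kp := (algebraMap (B ⧸ Q) kp).comp (Ideal.Quotient.mk Q)
  have hfker : ∀ z : B, f z = 0 ↔ z ∈ Q := by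
    intro z
    rw [← Ideal.Quotient.eq_zero_iff_mem (I := Q)]
    constructor
    · intro h
      exact (IsFractionRing.injective (B ⧸ Q) kp) (by rw [map_zero]; exact h)
    · intro h
      change algebraMap (B ⧸ Q) kp (Ideal.Quotient.mk Q z) = 0
      rw [h, map_zero]
  have hkp0 : ((p : ℕ) : kp) = 0 := by
    rw [← map_natCast f p]
    exact (hfker _).2 hpQ
  have hcharp : CharP kp p := charP_of_cast_eq_zero hp hkp0
  obtain ⟨T', F, hF, hT'⟩ := exists_extension B f
  have hfβ0 : f ⟨β0, hβ0B⟩ ≠ 0 := by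
    intro h
    exact hβQ (Q.mul_mem_right _ ((hfker _).1 h))
  have hfu : f u ≠ 0 := by
    intro h
    exact hβQ (Q.mul_mem_left _ ((hfker _).1 h))
  have hAT : ∀ y : A, algebraMap A K y ∈ T' := by
    intro y
    obtain ⟨m', hm'⟩ := hden y
    apply hT'
    refine ⟨⟨_, hm'⟩, (⟨β0, hβ0B⟩ : B) ^ m', ?_, ?_⟩
    · rw [map_pow]
      exact pow_ne_zero _ hfβ0
    · push_cast
      ring
  have hST : ∀ y ∈ S, y ∈ T' := fun y hy => (hF y (hSB y hy)).1
  -- a valuation ring of `kp` above `Q' / Q`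
  set I1 : Ideal f.range := (RingHom.ker f').map f.rangeRestrict with hI1
  have hfr : ∀ z : B, z ∈ Q ↔ f.rangeRestrict z = 0 := by
    intro z
    rw [← hfker]
    constructor
    · intro h
      exact Subtype.ext h
    · intro h
      exact congrArg Subtype.val h
  have hI1ne : I1 ≠ ⊤ := by
    intro h
    have h1 := Ideal.comap_map_of_surjective f.rangeRestrict f.rangeRestrict_surjective
      (RingHom.ker f')
    rw [← hI1, h, Ideal.comap_top] at h1
    have h2 : RingHom.ker f' ⊔ Ideal.comap f.rangeRestrict ⊥ ≤ RingHom.ker f' := by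
      rw [sup_le_iff]
      refine ⟨le_rfl, ?_⟩
      intro z hz
      rw [Ideal.mem_comap, Ideal.mem_bot] at hz
      exact hQQ' ((hfr z).2 hz)
    rw [← h1] at h2
    exact hker'.ne_top (top_le_iff.1 h2)
  obtain ⟨W, hW1, hW2⟩ := Ideal.image_subset_nonunits_valuationSubring I1 hI1ne
  have hfW : ∀ z : B, f z ∈ W := fun z => hW1 ⟨z, rfl⟩
  have hfW2 : ∀ z : B, f' z = 0 → W.valuation (f z) < 1 := by
    intro z hz
    apply (ValuationSubring.mem_nonunits_iff W).1
    apply hW2
    refine ⟨f.rangeRestrict z, ?_, rfl⟩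
    exact Ideal.mem_map_of_mem _ ((RingHom.mem_ker).2 hz)
  refine ⟨kp, inferInstance, hcharp, T', F, W, hAT, hST, ?_, ?_⟩
  · intro h0
    apply hfu
    obtain ⟨h1, h2⟩ := hF _ u.2
    rw [← h2]
    obtain ⟨h3, h4⟩ := hF _ (B.pow_mem hβ0B m0)
    have h5 : (⟨(u : K), h1⟩ : T') = ⟨β0 ^ m0, h3⟩ * ⟨algebraMap A K c, hAT c⟩ := rfl
    rw [h5, map_mul, h0, mul_zero]
  · intro y hy
    obtain ⟨h1, h2⟩ := hF y (hSB y hy)
    have h2' : F ⟨y, hST y hy⟩ = f ⟨y, hSB y hy⟩ := h2
    rw [h2']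
    refine ⟨hfW _, ?_, ?_⟩
    · intro hlt
      apply hfW2
      have h3 : ψ ⟨y, hSB y hy⟩ = 0 := by
        change residue V ⟨y, hBV (hSB y hy)⟩ = 0
        rw [residue_eq_zero_iff, V.valuation_lt_one_iff]
        exact hlt
      have h4 : ψ.rangeRestrict ⟨y, hSB y hy⟩ = 0 := Subtype.ext h3
      change g _ = 0
      rw [h4, map_zero]
    · refine ⟨(f' ⟨y, hSB y hy⟩).val, ?_⟩
      have h3 : f' (⟨y, hSB y hy⟩ - (((f' ⟨y, hSB y hy⟩).val : ℕ) : B)) = 0 := by
        rw [map_sub, map_natCast, ZMod.natCast_zmod_val, sub_self]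
      have h4 := hfW2 _ h3
      rwa [map_sub, map_natCast] at h4

end

end MPadc574
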