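import Mathlib

/-! # Relations among almost algebraically independent elements -/

namespace MPadc574

open MvPolynomial

noncomputable section

variable {ι : Type*}

/-- If all the `x m` but one are algebraically independent, the relations between the `x m` are
generated by one prime element. -/
theorem exists_generator {E : Type*} [Field E] [CharZero E] (x : ι → E) (m0 : ι)
    (hind : AlgebraicIndependent ℚ (fun m : {m // m ≠ m0} => x m))
    (hdep : ¬ AlgebraicIndependent ℚ x) :
    ∃ G : MvPolynomial ι ℚ, Prime G ∧ aeval x G = 0 ∧ ∀ F, aeval x F = 0 → G ∣ F := by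
  classical
  set I : Ideal (MvPolynomial ι ℚ) := RingHom.ker (aeval x : MvPolynomial ι ℚ →ₐ[ℚ] E) with hI
  have hIp : I.IsPrime := RingHom.ker_isPrime _
  have hIne : I ≠ ⊥ := by
    intro h
    apply hdep
    rw [AlgebraicIndependent, injective_iff_map_eq_zero]
    intro F hF
    have : F ∈ I := (RingHom.mem_ker).2 hF
    rw [h] at this
    exact (Ideal.mem_bot).1 this
  obtain ⟨G, hGI, hG⟩ := hIp.exists_mem_prime_of_ne_bot hIne
  refine ⟨G, hG, (RingHom.mem_ker).1 hGI, ?_⟩
  let S := MvPolynomial {m // m ≠ m0} ℚ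
  let Φ : MvPolynomial ι ℚ ≃ₐ[ℚ] Polynomial S :=
    (renameEquiv ℚ (Equiv.optionSubtypeNe m0).symm).trans (optionEquivLeft ℚ _)
  let ev0 : S →ₐ[ℚ] E := aeval (fun m : {m // m ≠ m0} => x m)
  have hev0 : Function.Injective ev0 := hind
  have hΦ : ∀ F, aeval x F = Polynomial.eval₂ (ev0 : S →+* E) (x m0) (Φ F) := by
    intro F
    have h1 : (aeval x : MvPolynomial ι ℚ →ₐ[ℚ] E) =
        (Polynomial.eval₂AlgHom ev0 (x m0) (fun a => mul_comm _ _)).comp (Φ : MvPolynomial ι ℚ →ₐ[ℚ] Polynomial S) := by
      apply MvPolynomial.algHom_ext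
      intro i
      rw [aeval_X, AlgHom.comp_apply]
      by_cases h : i = m0
      · subst h
        have h2 : Φ (X i) = Polynomial.X := by
          simp only [Φ, AlgEquiv.trans_apply, renameEquiv_apply, rename_X,
            Equiv.optionSubtypeNe_symm_self]
          exact optionEquivLeft_X_none ℚ _
        change x i = Polynomial.eval₂ (ev0 : S →+* E) (x i) (Φ (X i))
        rw [h2, Polynomial.eval₂_X]
      · have h2 : Φ (X i) = Polynomial.C (X ⟨i, h⟩) := by
          simp only [Φ, AlgEquiv.trans_apply, renameEquiv_apply, rename_X,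
            Equiv.optionSubtypeNe_symm_of_ne h]
          exact optionEquivLeft_X_some ℚ _ _
        change x i = Polynomial.eval₂ (ev0 : S →+* E) (x m0) (Φ (X i))
        rw [h2, Polynomial.eval₂_C]
        exact (aeval_X (fun m : {m // m ≠ m0} => x m) ⟨i, h⟩).symm
    rw [h1]
    rfl
  let L := FractionRing S
  let ev1 : L →+* E := IsFractionRing.lift (A := S) (K := L) (g := (ev0 : S →+* E)) hev0
  have hev1 : ∀ f : Polynomial S, Polynomial.eval₂ (ev0 : S →+* E) (x m0) f =
      Polynomial.eval₂ ev1 (x m0) (f.map (algebraMap S L)) := by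
    intro f
    rw [Polynomial.eval₂_map]
    congr 1
    apply RingHom.ext
    intro s
    exact (IsFractionRing.lift_algebraMap (A := S) (K := L) (g := (ev0 : S →+* E)) hev0 s).symm
  have hg : Irreducible (Φ G) := (MulEquiv.irreducible_iff (Φ : MvPolynomial ι ℚ ≃* Polynomial S)).2 hG.irreducible
  have hg0 : Φ G ≠ 0 := hg.ne_zero
  have hGx : Polynomial.eval₂ (ev0 : S →+* E) (x m0) (Φ G) = 0 := by
    rw [← hΦ]
    exact (RingHom.mem_ker).1 hGI
  have hdeg : (Φ G).natDegree ≠ 0 := by
    intro h
    obtain ⟨s, hs⟩ := Polynomial.natDegree_eq_zero.1 h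
    rw [← hs, Polynomial.eval₂_C] at hGx
    have h1 : s = 0 := hev0 (by rw [map_zero]; exact hGx)
    rw [h1, Polynomial.C_0] at hs
    exact hg0 hs.symm
  have hprim : (Φ G).IsPrimitive := hg.isPrimitive hdeg
  have hgL : Irreducible ((Φ G).map (algebraMap S L)) :=
    (hprim.irreducible_iff_irreducible_map_fraction_map (K := L)).1 hg
  intro F hF
  rw [hΦ] at hF
  have hdvd : Φ G ∣ Φ F := by
    by_cases hF0 : Φ F = 0
    · rw [hF0]
      exact dvd_zero _
    have h1 : (Φ G).map (algebraMap S L) ∣ (Φ F).map (algebraMap S L) := by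
      by_contra h
      obtain ⟨a, b, hab⟩ := (hgL.coprime_iff_not_dvd).2 h
      have h2 := congrArg (Polynomial.eval₂ ev1 (x m0)) hab
      rw [Polynomial.eval₂_add, Polynomial.eval₂_mul, Polynomial.eval₂_mul, ← hev1, ← hev1, hGx, hF,
        mul_zero, mul_zero, add_zero, Polynomial.eval₂_one] at h2
      exact zero_ne_one h2
    exact hprim.dvd_of_fraction_map_dvd_fraction_map h1
  exact (map_dvd_iff (Φ : MvPolynomial ι ℚ ≃* Polynomial S)).1 hdvd

/-- `X m ↦ X m T ^ (w m)`: the coefficients of the image are the weighted components. -/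
def Theta (w : ι → ℕ) : MvPolynomial ι ℚ →ₐ[ℚ] Polynomial (MvPolynomial ι ℚ) :=
  aeval (fun m => Polynomial.C (X m) * Polynomial.X ^ w m)

theorem theta_X (w : ι → ℕ) (m : ι) :
    Theta w (X m) = Polynomial.C (X m) * Polynomial.X ^ w m := by
  rw [Theta, aeval_X]

theorem theta_C (w : ι → ℕ) (a : ℚ) : Theta w (C a) = Polynomial.C (C a) := by
  rw [Theta, aeval_C]
  rfl

theorem theta_coeff_theta (w : ι → ℕ) (F : MvPolynomial ι ℚ) : ∀ i,
    Theta w ((Theta w F).coeff i) = Polynomial.C ((Theta w F).coeff i) * Polynomial.X ^ i := by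
  induction F using MvPolynomial.induction_on with
  | C a =>
    intro i
    rw [theta_C, Polynomial.coeff_C]
    split_ifs with h
    · subst h
      rw [theta_C, pow_zero, mul_one]
    · rw [map_zero, map_zero, zero_mul]
  | add p q hp hq =>
    intro i
    rw [map_add, Polynomial.coeff_add, map_add, hp i, hq i, map_add, add_mul]
  | mul_X p m hp =>
    intro i
    rw [map_mul, theta_X, ← mul_assoc, Polynomial.coeff_mul_X_pow']
    split_ifs with h
    · rw [Polynomial.coeff_mul_C, map_mul, hp, theta_X, map_mul]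
      have h1 : (Polynomial.X : Polynomial (MvPolynomial ι ℚ)) ^ i =
          Polynomial.X ^ (i - w m) * Polynomial.X ^ w m := by
        rw [← pow_add]
        congr 1
        omega
      rw [h1]
      ring
    · rw [map_zero, map_zero, zero_mul]

theorem eval_one_theta (w : ι → ℕ) (F : MvPolynomial ι ℚ) : (Theta w F).eval 1 = F := by
  induction F using MvPolynomial.induction_on with
  | C a => rw [theta_C, Polynomial.eval_C]
  | add p q hp hq => rw [map_add, Polynomial.eval_add, hp, hq]
  | mul_X p m hp =>
    rw [map_mul, Polynomial.eval_mul, hp, theta_X, Polynomial.eval_mul, Polynomial.eval_C,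
      Polynomial.eval_pow, Polynomial.eval_X, one_pow, mul_one]

theorem theta_ne_zero (w : ι → ℕ) {F : MvPolynomial ι ℚ} (hF : F ≠ 0) : Theta w F ≠ 0 := by
  intro h
  apply hF
  rw [← eval_one_theta w F, h, Polynomial.eval_zero]

theorem constantCoeff_theta (w : ι → ℕ) (F : MvPolynomial ι ℚ) :
    (Theta w F).map (constantCoeff : MvPolynomial ι ℚ →+* ℚ) = Polynomial.C (constantCoeff F) := by
  induction F using MvPolynomial.induction_on with
  | C a => rw [theta_C, Polynomial.map_C]
  | add p q hp hq => rw [map_add, Polynomial.map_add, hp, hq, map_add, map_add]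
  | mul_X p m hp =>
    rw [map_mul, Polynomial.map_mul, theta_X, Polynomial.map_mul, Polynomial.map_C,
      constantCoeff_X, map_zero, zero_mul, mul_zero, map_mul, constantCoeff_X, mul_zero, map_zero]

/-- The prime ideal of initial forms. -/
theorem exists_initial_prime {E : Type*} [Field E] [CharZero E] (x : ι → E) (m0 : ι)
    (hind : AlgebraicIndependent ℚ (fun m : {m // m ≠ m0} => x m))
    (hconst : ∀ F : MvPolynomial ι ℚ, aeval x F = 0 → constantCoeff F = 0) (w : ι → ℕ) :
    ∃ P : Ideal (MvPolynomial ι ℚ), P.IsPrime ∧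
      (∀ m m', X m ∈ P → X m' ∈ P → m = m') ∧
      ∀ (F : MvPolynomial ι ℚ) (k : ℕ), aeval x F = 0 → (∀ j < k, (Theta w F).coeff j = 0) →
        (Theta w F).coeff k ∈ P := by
  by_cases hx : AlgebraicIndependent ℚ x
  · refine ⟨⊥, Ideal.isPrime_bot, ?_, ?_⟩
    · intro m m' h
      exact absurd ((Ideal.mem_bot).1 h) (X_ne_zero m)
    · intro F k hF _
      have h1 : F = 0 := (algebraicIndependent_iff.1 hx) F hF
      rw [h1, map_zero, Polynomial.coeff_zero]
      exact Ideal.zero_mem _
  · obtain ⟨G, hG, hGx, hdvd⟩ := exists_generator x m0 hind hx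
    have hT : Theta w G ≠ 0 := theta_ne_zero w hG.ne_zero
    set G0 := (Theta w G).trailingCoeff with hG0
    have hG00 : G0 ≠ 0 := (Polynomial.trailingCoeff_nonzero_iff_nonzero).2 hT
    have hG0c : constantCoeff G0 = 0 := by
      have h1 := constantCoeff_theta w G
      rw [hconst G hGx, map_zero] at h1
      have h2 := congrArg (fun q => Polynomial.coeff q (Theta w G).natTrailingDegree) h1
      simp only [Polynomial.coeff_map, Polynomial.coeff_zero] at h2
      exact h2
    have hG0u : ¬ IsUnit G0 := by
      intro h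
      have h1 := h.map (constantCoeff : MvPolynomial ι ℚ →+* ℚ)
      rw [hG0c] at h1
      exact not_isUnit_zero h1
    obtain ⟨π, hπ, hπG⟩ := WfDvdMonoid.exists_irreducible_factor hG0u hG00
    have hπp : Prime π := (UniqueFactorizationMonoid.irreducible_iff_prime).1 hπ
    refine ⟨Ideal.span {π}, (Ideal.span_singleton_prime hπp.ne_zero).2 hπp, ?_, ?_⟩
    · intro m m' h h'
      rw [Ideal.mem_span_singleton] at h h'
      have hX : ∀ m : ι, Irreducible (X m : MvPolynomial ι ℚ) := fun m => (X_prime).irreducible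
      have h1 : Associated π (X m) := (hπ.associated_of_dvd (hX m) h)
      have h2 : Associated π (X m') := (hπ.associated_of_dvd (hX m') h')
      have h3 := (h1.symm.trans h2).dvd
      exact (X_dvd_X).1 h3
    · intro F k hF hk
      obtain ⟨Q, rfl⟩ := hdvd F hF
      by_cases hQ : Q = 0
      · rw [hQ, mul_zero, map_zero, Polynomial.coeff_zero]
        exact Ideal.zero_mem _
      have hTQ : Theta w Q ≠ 0 := theta_ne_zero w hQ
      rcases lt_trichotomy k (Theta w (G * Q)).natTrailingDegree with h | h | h
      · rw [Polynomial.coeff_eq_zero_of_lt_natTrailingDegree h]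
        exact Ideal.zero_mem _
      · rw [h]
        change (Theta w (G * Q)).trailingCoeff ∈ _
        rw [map_mul, Polynomial.trailingCoeff_mul, Ideal.mem_span_singleton]
        exact hπG.mul_right _
      · exfalso
        have h1 := hk _ h
        have h2 : (Theta w (G * Q)).trailingCoeff = 0 := h1
        rw [Polynomial.trailingCoeff_eq_zero] at h2
        rw [map_mul] at h2
        exact mul_ne_zero hT hTQ h2

end

end MPadc574
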