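import Mathlib
import Pool.Agent.Lib.MP_adc574_ag.Hyp.Gen

/-! # A valuation with prescribed values on all but one coefficient -/

namespace MPadc574

open MvPolynomial

noncomputable section

theorem exists_valuation_prime {K : Type*} [Field K] (R : Subring K) (P : Ideal R) [hP : P.IsPrime] :
    ∃ V : ValuationSubring K, R ≤ V.toSubring ∧
      ∀ z : R, (z ∈ P → V.valuation (z : K) < 1) ∧ (z ∉ P → V.valuation (z : K) = 1) := by
  obtain ⟨V, hV⟩ := (LocalSubring.ofPrime R P).exists_le_valuationSubring
  have hRA := LocalSubring.le_ofPrime R P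
  obtain ⟨hle, hloc⟩ := hV
  refine ⟨V, hRA.trans hle, ?_⟩
  intro z
  constructor
  · intro hz
    have h1 : ¬ IsUnit (algebraMap R (LocalSubring.ofPrime R P).toSubring z) := by
      rw [IsLocalization.AtPrime.isUnit_to_map_iff (LocalSubring.ofPrime R P).toSubring P]
      intro h
      exact h hz
    have h2 : ¬ IsUnit (Subring.inclusion hle (algebraMap R (LocalSubring.ofPrime R P).toSubring z)) :=
      fun h => h1 (hloc.map_nonunit _ h)
    have h3 : (⟨(z : K), (hRA.trans hle) z.2⟩ : V) ∈ IsLocalRing.maximalIdeal V := h2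
    exact (V.valuation_lt_one_iff _).1 h3
  · intro hz
    have h1 : IsUnit (algebraMap R (LocalSubring.ofPrime R P).toSubring z) := by
      rw [IsLocalization.AtPrime.isUnit_to_map_iff (LocalSubring.ofPrime R P).toSubring P]
      exact hz
    have h2 := h1.map (Subring.inclusion hle)
    have h3 : IsUnit (⟨(z : K), (hRA.trans hle) z.2⟩ : V) := h2
    exact (V.valuation_eq_one_iff _).1 h3

variable {ι : Type*}

theorem key_initial {E K : Type*} [Field E] [CharZero E] [Field K] [CharZero K] [Algebra E K] (τ : K)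
    (hτ : Transcendental E τ) (x : ι → E) (w : ι → ℕ) (b : ι → K)
    (hb : ∀ m, b m * τ ^ w m = algebraMap E K (x m)) (P : Ideal (MvPolynomial ι ℚ))
    (hP : ∀ (F : MvPolynomial ι ℚ) (k : ℕ), aeval x F = 0 → (∀ j < k, (Theta w F).coeff j = 0) →
        (Theta w F).coeff k ∈ P) (H : Polynomial (MvPolynomial ι ℚ))
    (hH : Polynomial.eval₂ ((aeval b : MvPolynomial ι ℚ →ₐ[ℚ] K) : MvPolynomial ι ℚ →+* K) τ H = 0) :
    H.coeff 0 ∈ P := by
  classical
  have hτ0 : τ ≠ 0 := fun h => hτ (by rw [h]; exact isAlgebraic_zero)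
  let evx : MvPolynomial ι ℚ →+* E := ((aeval x : MvPolynomial ι ℚ →ₐ[ℚ] E) : MvPolynomial ι ℚ →+* E)
  let f : ℕ → Polynomial (MvPolynomial ι ℚ) := fun j => Theta w (H.coeff j)
  set J := H.natDegree with hJ
  set N := ∑ j ∈ Finset.range (J + 1), (f j).natDegree with hN
  have hfN : ∀ j, (f j).natDegree ≤ N := by
    intro j
    by_cases h : j ≤ J
    · exact Finset.single_le_sum (f := fun j => (f j).natDegree) (fun _ _ => Nat.zero_le _)
        (Finset.mem_range.2 (Nat.lt_succ_of_le h))
    · have : H.coeff j = 0 := Polynomial.coeff_eq_zero_of_natDegree_lt (by omega)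
      simp only [f]
      rw [this, map_zero, Polynomial.natDegree_zero]
      exact Nat.zero_le _
  let q : ℕ → Polynomial E := fun j => Polynomial.reflect N ((f j).map evx)
  -- evaluation of `F` at `b`
  have hev : ∀ F : MvPolynomial ι ℚ, aeval b F =
      Polynomial.eval₂ (algebraMap E K) τ⁻¹ ((Theta w F).map evx) := by
    intro F
    induction F using MvPolynomial.induction_on with
    | C a =>
      rw [theta_C, Polynomial.map_C, Polynomial.eval₂_C, aeval_C]
      change _ = algebraMap E K (aeval x (C a))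
      rw [aeval_C]
      simp
    | add p q hp hq => rw [map_add, map_add, Polynomial.map_add, Polynomial.eval₂_add, hp, hq]
    | mul_X p m hp =>
      rw [map_mul, map_mul, Polynomial.map_mul, Polynomial.eval₂_mul, ← hp, theta_X,
        Polynomial.map_mul, Polynomial.map_C, Polynomial.map_pow, Polynomial.map_X,
        Polynomial.eval₂_mul, Polynomial.eval₂_C, Polynomial.eval₂_pow, Polynomial.eval₂_X, aeval_X]
      have h1 : evx (X m) = x m := aeval_X x m
      rw [h1, ← hb m, inv_pow]
      congr 1
      field_simp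
  have hev2 : ∀ j, aeval b (H.coeff j) * τ ^ N = Polynomial.eval₂ (algebraMap E K) τ (q j) := by
    intro j
    rw [hev]
    let : Invertible (τ⁻¹) := invertibleOfNonzero (inv_ne_zero hτ0)
    have h1 := Polynomial.eval₂_reflect_mul_pow (algebraMap E K) (τ⁻¹) N ((f j).map evx)
      ((Polynomial.natDegree_map_le).trans (hfN j))
    have h2 : ⅟(τ⁻¹) = τ := by
      rw [invOf_eq_inv, inv_inv]
    rw [h2] at h1
    rw [← h1, mul_assoc, ← mul_pow, inv_mul_cancel₀ hτ0, one_pow, mul_one]
  set Q : Polynomial E := ∑ j ∈ Finset.range (J + 1), q j * Polynomial.X ^ j with hQ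
  have hQ0 : Q = 0 := by
    apply (transcendental_iff).1 hτ
    rw [hQ, map_sum]
    rw [Polynomial.eval₂_eq_sum_range] at hH
    have h1 := congrArg (fun y => y * τ ^ N) hH
    simp only [zero_mul] at h1
    rw [← h1, Finset.sum_mul]
    apply Finset.sum_congr rfl
    intro j _
    rw [map_mul, map_pow, Polynomial.aeval_X, Polynomial.aeval_def, ← hev2]
    change _ = aeval b (H.coeff j) * τ ^ j * τ ^ N
    ring
  have hFk : ∀ k ≤ N, aeval x (∑ j ∈ Finset.range (J + 1), (f j).coeff (j + k)) = 0 := by
    intro k hk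
    have h1 := congrArg (fun y => Polynomial.coeff y (N - k)) hQ0
    simp only [hQ, Polynomial.finsetSum_coeff, Polynomial.coeff_zero] at h1
    rw [map_sum, ← h1]
    apply Finset.sum_congr rfl
    intro j _
    rw [Polynomial.coeff_mul_X_pow']
    split_ifs with h
    · simp only [q]
      rw [Polynomial.coeff_reflect, Polynomial.coeff_map, Polynomial.revAt_le (by omega)]
      have : N - (N - k - j) = j + k := by omega
      rw [this]
      rfl
    · rw [Polynomial.coeff_eq_zero_of_natDegree_lt (lt_of_le_of_lt (hfN j) (by omega)), map_zero]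
  have hk : ∀ k ≤ N, (f 0).coeff k ∈ P := by
    intro k hk
    have hth : ∀ i, (Theta w (∑ j ∈ Finset.range (J + 1), (f j).coeff (j + k))).coeff i =
        ∑ j ∈ Finset.range (J + 1), if i = j + k then (f j).coeff (j + k) else 0 := by
      intro i
      rw [map_sum, Polynomial.finsetSum_coeff]
      apply Finset.sum_congr rfl
      intro j _
      simp only [f]
      rw [theta_coeff_theta, Polynomial.coeff_C_mul, Polynomial.coeff_X_pow]
      split_ifs with h
      · rw [mul_one]
      · rw [mul_zero]
    have h1 := hP _ k (hFk k hk) (by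
      intro i hi
      rw [hth]
      apply Finset.sum_eq_zero
      intro j _
      rw [if_neg (by omega)])
    rw [hth, Finset.sum_eq_single 0] at h1
    · rw [if_pos (by omega)] at h1
      rwa [zero_add] at h1
    · intro j _ hj
      rw [if_neg (by omega)]
    · intro h
      exact absurd (Finset.mem_range.2 (Nat.succ_pos _)) h
  rw [← eval_one_theta w (H.coeff 0), Polynomial.eval_eq_sum_range]
  apply Ideal.sum_mem
  intro k hk'
  rw [one_pow, mul_one]
  exact hk k ((Nat.lt_succ_iff.1 (Finset.mem_range.1 hk')).trans (hfN 0))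

theorem exists_valuation_weights {E K : Type*} [Field E] [CharZero E] [Field K] [CharZero K]
    [Algebra E K] (τ : K) (hτ : Transcendental E τ) (x : ι → E) (m0 : ι)
    (hind : AlgebraicIndependent ℚ (fun m : {m // m ≠ m0} => x m))
    (hconst : ∀ F : MvPolynomial ι ℚ, aeval x F = 0 → constantCoeff F = 0)
    (w : ι → ℕ) (b : ι → K) (hb : ∀ m, b m * τ ^ w m = algebraMap E K (x m)) :
    ∃ V : ValuationSubring K, (∀ q : ℚ, (q : K) ∈ V) ∧ V.valuation τ < 1 ∧ (∀ m, b m ∈ V) ∧
      ∃ m1, ∀ m, m ≠ m1 → V.valuation (b m) = 1 := by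
  classical
  obtain ⟨P, hPp, hPX, hP⟩ := exists_initial_prime x m0 hind hconst w
  let ev : Polynomial (MvPolynomial ι ℚ) →+* K :=
    Polynomial.eval₂RingHom ((aeval b : MvPolynomial ι ℚ →ₐ[ℚ] K) : MvPolynomial ι ℚ →+* K) τ
  let θ : Polynomial (MvPolynomial ι ℚ) →+* (MvPolynomial ι ℚ ⧸ P) :=
    (Ideal.Quotient.mk P).comp Polynomial.constantCoeff
  have hker : RingHom.ker ev ≤ RingHom.ker θ := by
    intro H hH
    rw [RingHom.mem_ker] at hH ⊢
    change Ideal.Quotient.mk P (H.coeff 0) = 0
    rw [Ideal.Quotient.eq_zero_iff_mem]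
    exact key_initial τ hτ x w b hb P hP H hH
  have hθp : (RingHom.ker θ).IsPrime := RingHom.ker_isPrime θ
  set R : Subring K := ev.range with hR
  set Q : Ideal R := (RingHom.ker θ).map ev.rangeRestrict with hQ
  have hker2 : RingHom.ker ev.rangeRestrict ≤ RingHom.ker θ := by
    intro H hH
    apply hker
    rw [RingHom.mem_ker] at hH ⊢
    exact congrArg Subtype.val hH
  have hQp : Q.IsPrime := Ideal.map_isPrime_of_surjective ev.rangeRestrict_surjective hker2
  have hmem : ∀ H, ev.rangeRestrict H ∈ Q ↔ θ H = 0 := by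
    intro H
    have h1 := Ideal.comap_map_of_surjective ev.rangeRestrict ev.rangeRestrict_surjective
      (RingHom.ker θ)
    have h2 : RingHom.ker θ ⊔ Ideal.comap ev.rangeRestrict ⊥ = RingHom.ker θ := by
      rw [sup_eq_left]
      exact hker2
    rw [h2] at h1
    rw [← RingHom.mem_ker, ← h1, Ideal.mem_comap]
  obtain ⟨V, hRV, hV⟩ := exists_valuation_prime R Q
  have hevC : ∀ F : MvPolynomial ι ℚ, ev (Polynomial.C F) = aeval b F := by
    intro F
    exact Polynomial.eval₂_C _ _
  have hθC : ∀ F : MvPolynomial ι ℚ, θ (Polynomial.C F) = Ideal.Quotient.mk P F := by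
    intro F
    change Ideal.Quotient.mk P ((Polynomial.C F).coeff 0) = _
    rw [Polynomial.coeff_C_zero]
  refine ⟨V, ?_, ?_, ?_, ?_⟩
  · intro q
    apply hRV
    refine ⟨Polynomial.C (C q), ?_⟩
    rw [hevC, aeval_C]
    simp
  · have h1 : ((ev.rangeRestrict Polynomial.X : R) : K) = τ := Polynomial.eval₂_X _ _
    rw [← h1]
    apply (hV _).1
    rw [hmem]
    change Ideal.Quotient.mk P ((Polynomial.X : Polynomial (MvPolynomial ι ℚ)).coeff 0) = 0
    rw [Polynomial.coeff_X_zero, map_zero]
  · intro m
    apply hRV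
    refine ⟨Polynomial.C (X m), ?_⟩
    rw [hevC, aeval_X]
  · by_cases hex : ∃ m1, X m1 ∈ P
    · obtain ⟨m1, hm1⟩ := hex
      refine ⟨m1, ?_⟩
      intro m hm
      have h1 : ((ev.rangeRestrict (Polynomial.C (X m)) : R) : K) = b m := by
        change ev _ = _
        rw [hevC, aeval_X]
      rw [← h1]
      apply (hV _).2
      rw [hmem, hθC, Ideal.Quotient.eq_zero_iff_mem]
      intro h
      exact hm (hPX m m1 h hm1)
    · refine ⟨m0, ?_⟩
      intro m _
      have h1 : ((ev.rangeRestrict (Polynomial.C (X m)) : R) : K) = b m := by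
        change ev _ = _
        rw [hevC, aeval_X]
      rw [← h1]
      apply (hV _).2
      rw [hmem, hθC, Ideal.Quotient.eq_zero_iff_mem]
      intro h
      exact hex ⟨m, h⟩

end

end MPadc574
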