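import Mathlib
import Pool.Agent.Lib.MP_adc574_ag.Hyp.Base
import Pool.Agent.Lib.MP_adc574_ag.Hyp.Transfer
import Pool.Agent.Lib.MP_adc574_ag.Hyp.Val

/-! # The core theorem for hypersurfaces -/

namespace MPadc574

open MvPolynomial IsLocalRing

noncomputable section

theorem HH_map {R R' : Type*} [CommSemiring R] [CommSemiring R'] (f : R →+* R') (r : ℕ) (z : R) :
    f (HH r z) = HH r (f z) := by
  unfold HH
  rw [map_sum]
  apply Finset.sum_congr rfl
  intro t _
  split_ifs
  · rw [map_pow]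
  · rw [map_zero]

theorem val_HH {k : Type*} [Field k] {p : ℕ} [Fact p.Prime] [CharP k p] (h9 : 9 ∣ p - 1)
    (W : ValuationSubring k) (y : k) (hy : y ∈ W) (n : ℕ) (hn : W.valuation (y - n) < 1) :
    W.valuation (HH (p - 1) y) = 1 := by
  have hp : p.Prime := Fact.out
  have h1 : residue W (⟨y, hy⟩ : W) = n := by
    have h2 : (⟨y, hy⟩ - (n : W) : W) ∈ maximalIdeal W := by
      rw [W.valuation_lt_one_iff]
      exact hn
    have h3 := (residue_eq_zero_iff _).2 h2
    rw [map_sub, map_natCast, sub_eq_zero] at h3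
    exact h3
  have hchar : CharP (ResidueField W) p := by
    apply charP_of_cast_eq_zero hp
    have h2 : ((p : ℕ) : W) = 0 := by
      apply Subtype.ext
      change ((p : ℕ) : k) = 0
      exact CharP.cast_eq_zero k p
    rw [← map_natCast (residue W), h2, map_zero]
  have h4 : residue W (HH (p - 1) (⟨y, hy⟩ : W)) ≠ 0 := by
    rw [HH_map, h1]
    have h5 : ((n : ℕ) : ResidueField W) = ZMod.castHom (dvd_refl p) (ResidueField W) (n : ZMod p) := by
      rw [map_natCast]
    rw [h5, ← HH_map]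
    intro h
    exact HH_ne_zero h9 (n : ZMod p) ((map_eq_zero _).1 h)
  have h5 := (residue_ne_zero_iff_isUnit _).1 h4
  have h6 := (W.valuation_eq_one_iff _).1 h5
  have h7 : ((HH (p - 1) (⟨y, hy⟩ : W) : W) : k) = HH (p - 1) y := by
    exact HH_map W.subtype (p - 1) (⟨y, hy⟩ : W)
  rwa [h7] at h6

theorem inj_eval₂ {R F L : Type*} [CommRing R] [Field F] [Field L] [Algebra F L] (g : R →+* F)
    (hg : Function.Injective g) (t : L) (ht : Transcendental F t) :
    Function.Injective (Polynomial.eval₂RingHom ((algebraMap F L).comp g) t) := by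
  rw [injective_iff_map_eq_zero]
  intro P hP
  have h1 : Polynomial.aeval t (P.map g) = 0 := by
    rw [Polynomial.aeval_def, Polynomial.eval₂_map]
    exact hP
  have h2 := (transcendental_iff.1 ht) _ h1
  exact (Polynomial.map_eq_zero_iff hg).1 h2

theorem exists_data {K : Type*} [Field K] [IsAlgClosed K] (V : ValuationSubring K)
    {σ : Type*} [Fintype σ] [DecidableEq σ] (j : Fin 3 → σ) (hj : Function.Injective j) (τ : K)
    (hτ : τ ≠ 0) (b : (σ →₀ ℕ) → K) (d : ℕ) (m1 : σ →₀ ℕ)
    (hb1 : ∀ m ∈ Mon σ d, m ≠ m1 → V.valuation (b m) = 1)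
    {I : Type*} (e : I → σ →₀ ℕ)
    (hed : ∀ i, ∑ l, e i l = d) (hei : ∀ i l, 1 ≤ e i l) :
    ∃ δ y : K, V.valuation δ = 1 ∧ y ∈ V ∧ ((∀ i, e i ≠ m1) ∨
      (V.valuation y < 1 ∧ y * b m1 = τ ^ rho j m1) ∨
      (δ ^ 3 = b (nb j m1 0) * b (nb j m1 1) * b (nb j m1 2) ∧ b m1 = y * (δ * τ ^ rho j m1))) := by
  by_cases h1 : ∀ i, e i ≠ m1
  · exact ⟨1, 1, map_one _, V.one_mem, Or.inl h1⟩
  · push Not at h1
    obtain ⟨i, hi⟩ := h1
    have hw : ∀ l, 1 ≤ m1 l := by
      rw [← hi]
      exact hei i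
    have hwd : ∑ l, m1 l = d := by
      rw [← hi]
      exact hed i
    by_cases h2 : V.valuation (τ ^ rho j m1) < V.valuation (b m1)
    · have hbm : b m1 ≠ 0 := by
        intro h
        rw [h, map_zero] at h2
        exact absurd h2 (not_lt.2 zero_le)
      have h3 : V.valuation (τ ^ rho j m1 / b m1) < 1 := by
        rw [map_div₀]
        exact (div_lt_one₀ (by rw [Valuation.pos_iff]; exact hbm)).2 h2
      refine ⟨1, τ ^ rho j m1 / b m1, map_one _, ?_, Or.inr (Or.inl ⟨h3, ?_⟩)⟩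
      · rw [← V.valuation_le_one_iff]
        exact h3.le
      · rw [div_mul_cancel₀ _ hbm]
    · push Not at h2
      obtain ⟨δ, hδ⟩ := IsAlgClosed.exists_pow_nat_eq (b (nb j m1 0) * b (nb j m1 1) * b (nb j m1 2))
        (show 0 < 3 by norm_num)
      have hnb : ∀ k', V.valuation (b (nb j m1 k')) = 1 := by
        intro k'
        apply hb1 _ _ (nb_ne_self j hj hw k')
        rw [mem_Mon, sum_nb j hj hw, hwd]
      have hδ1 : V.valuation δ = 1 := by
        have h3 : V.valuation δ ^ 3 = 1 := by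
          rw [← map_pow, hδ, map_mul, map_mul, hnb, hnb, hnb, one_mul, one_mul]
        rcases lt_trichotomy (V.valuation δ) 1 with h | h | h
        · exact absurd h3 (pow_lt_one' h (by norm_num)).ne
        · exact h
        · exact absurd h3 (one_lt_pow' h (by norm_num)).ne'
      have hδ0 : δ ≠ 0 := by
        intro h
        rw [h, map_zero] at hδ1
        exact zero_ne_one hδ1
      have hτ' : τ ^ rho j m1 ≠ 0 := pow_ne_zero _ hτ
      refine ⟨δ, b m1 / (δ * τ ^ rho j m1), hδ1, ?_, Or.inr (Or.inr ⟨hδ, ?_⟩)⟩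
      · rw [← V.valuation_le_one_iff, map_div₀, map_mul, hδ1, one_mul]
        exact (div_le_one₀ (by rw [Valuation.pos_iff]; exact hτ')).2 h2
      · rw [div_mul_cancel₀ _ (mul_ne_zero hδ0 hτ')]

theorem finiteType_poly (A : Type*) [CommRing A] [h : Algebra.FiniteType ℤ A] :
    @Algebra.FiniteType ℤ (Polynomial A) _ _ (Ring.toIntAlgebra _) := by
  have h1 : Algebra.FiniteType ℤ (Polynomial A) :=
    Algebra.FiniteType.trans (S := A) inferInstance inferInstance
  have h2 : (Polynomial.algebraOfAlgebra : Algebra ℤ (Polynomial A)) = Ring.toIntAlgebra _ := by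
    apply Algebra.algebra_ext
    intro r
    exact (eq_intCast _ r).trans (eq_intCast _ r).symm
  rw [← h2]
  exact h1

theorem det_scale {k : Type*} [Field k] {σ : Type*} [Fintype σ] [DecidableEq σ]
    {I : Type*} [Fintype I] [DecidableEq I] (e : I → σ →₀ ℕ) (p : ℕ) (M : Finset (σ →₀ ℕ))
    (f g : (σ →₀ ℕ) → k) (s : k) (hg : ∀ m ∈ M, g m = s * f m)
    (h : (Matrix.of (fun u w : I => coeff (p • e w) (monomial (e u) 1 *
        (∑ m ∈ M, monomial m (g m)) ^ (p - 1)))).det ≠ 0) :
    (Matrix.of (fun u w : I => coeff (p • e w) (monomial (e u) 1 *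
        (∑ m ∈ M, monomial m (f m)) ^ (p - 1)))).det ≠ 0 := by
  apply det_ne_zero_of_scaled _ (Matrix.of (fun u w : I => coeff (p • e w) (monomial (e u) 1 *
        (∑ m ∈ M, monomial m (g m)) ^ (p - 1)))) (fun _ => s ^ (p - 1)) (fun _ => 1) _
        (fun _ => one_ne_zero) h
  intro u w'
  simp only [Matrix.of_apply]
  rw [mul_one]
  have h1 : ∀ m ∈ M, (monomial m (g m) : MvPolynomial σ k) = C s * monomial m (f m) := by
    intro m hm
    rw [C_mul_monomial, hg m hm]
  rw [Finset.sum_congr rfl h1, ← Finset.mul_sum, mul_pow, ← C_pow, mul_left_comm, coeff_C_mul]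

universe u v

theorem coreH {A : Type v} {K0 E K : Type u} [CommRing A] [IsDomain A] [Algebra.FiniteType ℤ A]
    [Field K0] [Field E] [CharZero E] [Field K] [CharZero K] [IsAlgClosed K] [Algebra A K0]
    [Algebra K0 E] [Algebra E K] (hAK : Function.Injective (algebraMap A K0))
    (s : E) (hs : Transcendental K0 s) (τ : K) (hτ : Transcendental E τ)
    {σ : Type*} [Fintype σ] [DecidableEq σ] (j : Fin 3 → σ) (hj : Function.Injective j) (d : ℕ)
    (c : (σ →₀ ℕ) → A) (m0 : Mon σ d)
    (hind : AlgebraicIndependent ℚ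
      (fun m : {m : Mon σ d // m ≠ m0} => s * algebraMap K0 E (algebraMap A K0 (c m.1))))
    {I : Type*} [Fintype I] [DecidableEq I] (e : I → σ →₀ ℕ) (he : Function.Injective e)
    (hed : ∀ i, ∑ l, e i l = d) (hei : ∀ i l, 1 ≤ e i l) (a : A) (ha : a ≠ 0) (N : ℕ) :
    ∃ p : ℕ, p.Prime ∧ N < p ∧ ∃ (k : Type u) (_ : Field k) (_ : CharP k p) (φ : A →+* k),
      φ a ≠ 0 ∧ (Matrix.of (fun u w : I => coeff (p • e w) (monomial (e u) 1 *
        (∑ m ∈ Mon σ d, monomial m (φ (c m))) ^ (p - 1)))).det ≠ 0 := by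
  classical
  have hτ0 : τ ≠ 0 := fun h => hτ (by rw [h]; exact isAlgebraic_zero)
  let x : Mon σ d → E := fun m => s * algebraMap K0 E (algebraMap A K0 (c m.1))
  have hconst : ∀ F : MvPolynomial (Mon σ d) ℚ, aeval x F = 0 → constantCoeff F = 0 := by
    intro F hF
    have hQ : CharZero K0 := by
      have := (algebraMap K0 E).charZero_iff (algebraMap K0 E).injective
      exact this.2 inferInstance
    let G : MvPolynomial (Mon σ d) ℚ →ₐ[ℚ] Polynomial K0 :=
      aeval (fun m => Polynomial.C (algebraMap A K0 (c m.1)) * Polynomial.X)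
    have h1 : ∀ H : MvPolynomial (Mon σ d) ℚ, Polynomial.aeval s (G H) = aeval x H := by
      intro H
      induction H using MvPolynomial.induction_on with
      | C q =>
        rw [aeval_C]
        simp only [G, aeval_C]
        simp
      | add f g hf hg => rw [map_add, map_add, map_add, hf, hg]
      | mul_X f m hf =>
        rw [map_mul, map_mul, map_mul, hf, aeval_X]
        simp only [G, aeval_X, map_mul, Polynomial.aeval_C, Polynomial.aeval_X, x]
        ring
    have h2 : G F = 0 := (transcendental_iff.1 hs) _ (by rw [h1, hF])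
    have h3 : ∀ H : MvPolynomial (Mon σ d) ℚ, Polynomial.eval 0 (G H) = constantCoeff H := by
      intro H
      induction H using MvPolynomial.induction_on with
      | C q =>
        simp only [G, aeval_C]
        simp
      | add f g hf hg => rw [map_add, Polynomial.eval_add, hf, hg, map_add, Rat.cast_add]
      | mul_X f m hf =>
        rw [map_mul, Polynomial.eval_mul, map_mul]
        simp [G]
    have h4 := h3 F
    rw [h2, Polynomial.eval_zero] at h4
    exact_mod_cast h4.symm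
  let w : Mon σ d → ℕ := fun m => (wt j m.1).toNat
  let b : Mon σ d → K := fun m => algebraMap E K (x m) / τ ^ w m
  have hb : ∀ m, b m * τ ^ w m = algebraMap E K (x m) := fun m =>
    div_mul_cancel₀ _ (pow_ne_zero _ hτ0)
  obtain ⟨V, hVQ, hτV, hbV, m1, hm1⟩ :=
    exists_valuation_weights τ hτ x m0 hind hconst w b hb
  -- the data in `K`
  let bb : (σ →₀ ℕ) → K := fun m => if h : m ∈ Mon σ d then b ⟨m, h⟩ else 1
  have hbb : ∀ (m : σ →₀ ℕ) (h : m ∈ Mon σ d), bb m = b ⟨m, h⟩ := fun m h => dif_pos h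
  have hbb1 : ∀ m ∈ Mon σ d, m ≠ m1.1 → V.valuation (bb m) = 1 := by
    intro m hm hne
    rw [hbb m hm]
    apply hm1
    intro h
    exact hne (congrArg Subtype.val h)
  obtain ⟨δ, y, hδ, hy, hcase⟩ := exists_data V j hj τ hτ0 bb d m1.1 hbb1 e hed hei
  have hδ0 : δ ≠ 0 := by
    intro h
    rw [h, map_zero] at hδ
    exact zero_ne_one hδ
  let S : Finset K := {τ, δ, δ⁻¹, y} ∪ (Finset.univ.image b ∪
    ((Finset.univ.erase m1).image (fun m => (b m)⁻¹)))
  have hbne : ∀ m, m ≠ m1 → b m ≠ 0 := by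
    intro m hm h
    have h1 := hm1 m hm
    rw [h, map_zero] at h1
    exact zero_ne_one h1
  have hS : ∀ z ∈ S, z ∈ V := by
    intro z hz
    rw [← V.valuation_le_one_iff]
    simp only [S, Finset.mem_union, Finset.mem_insert, Finset.mem_singleton, Finset.mem_image] at hz
    rcases hz with (rfl | rfl | rfl | rfl) | ⟨m, _, rfl⟩ | ⟨m, hm, rfl⟩
    · exact hτV.le
    · exact hδ.le
    · rw [map_inv₀, hδ, inv_one]
    · exact (V.valuation_le_one_iff _).2 hy
    · exact (V.valuation_le_one_iff _).2 (hbV m)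
    · rw [map_inv₀, hm1 m (Finset.ne_of_mem_erase hm), inv_one]
  have hSτ : τ ∈ S := by simp [S]
  have hSδ : δ ∈ S := by simp [S]
  have hSδ' : δ⁻¹ ∈ S := by simp [S]
  have hSy : y ∈ S := by simp [S]
  have hSb : ∀ m, b m ∈ S := by
    intro m
    apply Finset.mem_union_right
    apply Finset.mem_union_left
    exact Finset.mem_image_of_mem _ (Finset.mem_univ _)
  have hSb' : ∀ m, m ≠ m1 → (b m)⁻¹ ∈ S := by
    intro m hm
    apply Finset.mem_union_right
    apply Finset.mem_union_right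
    exact Finset.mem_image_of_mem _ (Finset.mem_erase.2 ⟨hm, Finset.mem_univ _⟩)
  -- the ring of all parameters
  let g1 : Polynomial A →+* E :=
    Polynomial.eval₂RingHom ((algebraMap K0 E).comp (algebraMap A K0)) s
  have hg1 : Function.Injective g1 := inj_eval₂ _ hAK s hs
  let ρ : Polynomial (Polynomial A) →+* K :=
    Polynomial.eval₂RingHom ((algebraMap E K).comp g1) τ
  have hρ : Function.Injective ρ := inj_eval₂ _ hg1 τ hτ
  let : Algebra (Polynomial (Polynomial A)) K := ρ.toAlgebra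
  have hft1 := finiteType_poly A
  have hft := @finiteType_poly (Polynomial A) _ hft1
  let c' : Polynomial (Polynomial A) :=
    Polynomial.C (Polynomial.C a) * (Polynomial.C Polynomial.X * Polynomial.X)
  have hc' : c' ≠ 0 := by
    refine mul_ne_zero ?_ (mul_ne_zero ?_ Polynomial.X_ne_zero)
    · rw [Polynomial.C_ne_zero, Polynomial.C_ne_zero]
      exact ha
    · rw [Polynomial.C_ne_zero]
      exact Polynomial.X_ne_zero
  obtain ⟨p, hp, hNp, h9, k, _, _, T, F, W, hAT, hST, hFc, hFS⟩ :=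
    transfer (A := Polynomial (Polynomial A)) hρ V hVQ S hS c' hc' 9 (by norm_num) N
  have hpf : Fact p.Prime := ⟨hp⟩
  let θ : Polynomial (Polynomial A) →+* T :=
    (algebraMap (Polynomial (Polynomial A)) K).codRestrict T hAT
  let G : Polynomial (Polynomial A) →+* k := F.comp θ
  let φ : A →+* k := G.comp (Polynomial.C.comp Polynomial.C)
  have hGc : G c' ≠ 0 := hFc
  have hGc2 : φ a ≠ 0 ∧ G (Polynomial.C Polynomial.X) ≠ 0 ∧ G Polynomial.X ≠ 0 := by
    rw [map_mul, map_mul] at hGc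
    exact ⟨left_ne_zero_of_mul hGc, left_ne_zero_of_mul (right_ne_zero_of_mul hGc),
      right_ne_zero_of_mul (right_ne_zero_of_mul hGc)⟩
  obtain ⟨hφa, hs'0, hτ'0⟩ := hGc2
  set s' : k := G (Polynomial.C Polynomial.X) with hs'
  set τ' : k := G Polynomial.X with hτ'
  refine ⟨p, hp, hNp, k, inferInstance, inferInstance, φ, hφa, ?_⟩
  have hFτ : F ⟨τ, hST τ hSτ⟩ = τ' := by
    have h1 : (⟨τ, hST τ hSτ⟩ : T) = θ Polynomial.X := by
      apply Subtype.ext
      change τ = ρ Polynomial.X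
      exact (Polynomial.eval₂_X _ _).symm
    rw [h1]
    rfl
  have hFb : ∀ m : Mon σ d, F ⟨b m, hST _ (hSb m)⟩ * τ' ^ w m = s' * φ (c m.1) := by
    intro m
    have h1 : (⟨b m, hST _ (hSb m)⟩ : T) * (⟨τ, hST τ hSτ⟩ : T) ^ w m =
        θ (Polynomial.C Polynomial.X * Polynomial.C (Polynomial.C (c m.1))) := by
      apply Subtype.ext
      change b m * τ ^ w m = ρ (Polynomial.C Polynomial.X * Polynomial.C (Polynomial.C (c m.1)))
      rw [hb m]
      have h2 : ρ (Polynomial.C Polynomial.X) = algebraMap E K s := by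
        change Polynomial.eval₂ _ _ _ = _
        rw [Polynomial.eval₂_C]
        change algebraMap E K (Polynomial.eval₂ _ _ _) = _
        rw [Polynomial.eval₂_X]
      have h3 : ρ (Polynomial.C (Polynomial.C (c m.1))) =
          algebraMap E K (algebraMap K0 E (algebraMap A K0 (c m.1))) := by
        change Polynomial.eval₂ _ _ _ = _
        rw [Polynomial.eval₂_C]
        change algebraMap E K (Polynomial.eval₂ _ _ _) = _
        rw [Polynomial.eval₂_C]
        rfl
      have h4 := map_mul ρ (Polynomial.C Polynomial.X) (Polynomial.C (Polynomial.C (c m.1)))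
      rw [h4, h2, h3]
      exact map_mul _ _ _
    have h2 := congrArg F h1
    rw [map_mul, map_pow, hFτ] at h2
    rw [h2]
    change G _ = _
    rw [map_mul]
    rfl
  let b' : (σ →₀ ℕ) → k := fun m => s' * φ (c m) / τ' ^ (wt j m)
  have hb' : ∀ (m : σ →₀ ℕ) (h : m ∈ Mon σ d), F ⟨b ⟨m, h⟩, hST _ (hSb _)⟩ = b' m := by
    intro m h
    simp only [b']
    rw [← hFb ⟨m, h⟩]
    have h1 : τ' ^ (wt j m) = τ' ^ w ⟨m, h⟩ := by
      conv_lhs => rw [← Int.toNat_of_nonneg (wt_nonneg j m), zpow_natCast]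
    rw [h1, mul_div_cancel_right₀ _ (pow_ne_zero _ hτ'0)]
  have hunit : ∀ (z : K) (h1 : z ∈ S) (h2 : z⁻¹ ∈ S), z ≠ 0 →
      W.valuation (F ⟨z, hST z h1⟩) = 1 := by
    intro z h1 h2 hz
    have h3 : (⟨z, hST z h1⟩ : T) * ⟨z⁻¹, hST _ h2⟩ = 1 := Subtype.ext (mul_inv_cancel₀ hz)
    have h4 := congrArg (fun t => W.valuation (F t)) h3
    simp only [map_mul, map_one] at h4
    have h5 := (W.valuation_le_one_iff _).2 (hFS z h1).1
    have h6 := (W.valuation_le_one_iff _).2 (hFS _ h2).1
    exact le_antisymm h5 (by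
      by_contra hcon
      push Not at hcon
      exact absurd h4 (mul_lt_one_of_lt_of_le hcon h6).ne)
  have hvτ : W.valuation τ' < 1 := by
    rw [← hFτ]
    exact (hFS τ hSτ).2.1 hτV
  have hvb : ∀ m ∈ Mon σ d, m ≠ m1.1 → W.valuation (b' m) = 1 := by
    intro m hm hne
    have hne' : (⟨m, hm⟩ : Mon σ d) ≠ m1 := fun h => hne (congrArg Subtype.val h)
    rw [← hb' m hm]
    exact hunit _ (hSb _) (hSb' _ hne') (hbne _ hne')
  have hvb1 : W.valuation (b' m1.1) ≤ 1 := by
    rw [← hb' m1.1 m1.2]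
    exact (W.valuation_le_one_iff _).2 (hFS _ (hSb _)).1
  have hcase' : (∀ i, e i ≠ m1.1) ∨ W.valuation (τ' ^ rho j m1.1) < W.valuation (b' m1.1) ∨
      ∃ ξ δ : k, W.valuation ξ ≤ 1 ∧ W.valuation δ = 1 ∧
        δ ^ 3 = b' (nb j m1.1 0) * b' (nb j m1.1 1) * b' (nb j m1.1 2) ∧
        b' m1.1 = ξ * (δ * τ' ^ rho j m1.1) ∧ W.valuation (HH (p - 1) ξ) = 1 := by
    rcases hcase with h | ⟨h1, h2⟩ | ⟨h1, h2⟩
    · exact Or.inl h
    · right; left
      have h3 : F ⟨y, hST y hSy⟩ * b' m1.1 = τ' ^ rho j m1.1 := by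
        rw [← hb' m1.1 m1.2, ← hFτ, ← map_mul, ← map_pow]
        congr 1
        apply Subtype.ext
        change y * b m1 = τ ^ rho j m1.1
        rw [← h2, hbb m1.1 m1.2]
      have h4 := (hFS y hSy).2.1 h1
      have h5 : b' m1.1 ≠ 0 := by
        intro h
        rw [h, mul_zero] at h3
        exact pow_ne_zero _ hτ'0 h3.symm
      rw [← h3, map_mul]
      have h6 : 0 < W.valuation (b' m1.1) := by
        rw [Valuation.pos_iff]
        exact h5
      calc W.valuation (F ⟨y, hST y hSy⟩) * W.valuation (b' m1.1)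
          < 1 * W.valuation (b' m1.1) := by
            exact mul_lt_mul_of_pos_right h4 h6
        _ = W.valuation (b' m1.1) := one_mul _
    · by_cases hA : ∀ i, e i ≠ m1.1
      · exact Or.inl hA
      right; right
      push Not at hA
      obtain ⟨i1, hi1⟩ := hA
      have hm1' : ∀ l, 1 ≤ m1.1 l := by
        rw [← hi1]
        exact hei i1
      have hnb : ∀ k', nb j m1.1 k' ∈ Mon σ d := by
        intro k'
        rw [mem_Mon, sum_nb j hj hm1', mem_Mon.1 m1.2]
      obtain ⟨h3, _, n, hn⟩ := hFS y hSy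
      refine ⟨F ⟨y, hST y hSy⟩, F ⟨δ, hST δ hSδ⟩, (W.valuation_le_one_iff _).2 h3,
        hunit δ hSδ hSδ' hδ0, ?_, ?_, val_HH h9 W _ h3 n hn⟩
      · rw [← hb' _ (hnb 0), ← hb' _ (hnb 1), ← hb' _ (hnb 2), ← map_pow, ← map_mul, ← map_mul]
        congr 1
        apply Subtype.ext
        change δ ^ 3 = b _ * b _ * b _
        rw [h1, hbb _ (hnb 0), hbb _ (hnb 1), hbb _ (hnb 2)]
      · rw [← hb' m1.1 m1.2, ← hFτ, ← map_pow, ← map_mul, ← map_mul]
        congr 1
        apply Subtype.ext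
        change b m1 = y * (δ * τ ^ rho j m1.1)
        rw [← h2, hbb m1.1 m1.2]
  apply det_scale e p (Mon σ d) (fun m => φ (c m)) (fun m => b' m * τ' ^ (wt j m)) s'
  · intro m _
    simp only [b']
    rw [div_mul_cancel₀ _ (zpow_ne_zero _ hτ'0)]
  · exact hw_det_ne_zero W hp.pos j hj τ' hτ'0 hvτ b' d m1.1 hvb hvb1 e he hed hei hcase'

end

end MPadc574
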