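import Mathlib
import Pool.Agent.Lib.MP_adc574_ag.CartierW
import Pool.Agent.Lib.MP_adc574_ag.Trdeg

/-! # From the transcendence degree of the ratios to independent coefficients -/

namespace MPadc574

open Cardinal

theorem exists_index {ι K0 : Type*} [Fintype ι] [DecidableEq ι] [Field K0] [CharZero K0]
    (c : ι → K0)
    (htr : (Fintype.card ι : Cardinal) ≤
      Algebra.trdeg ℚ (IntermediateField.adjoin ℚ {x | ∃ m m', x = c m / c m'}) + 2)
    (h2 : 2 < Fintype.card ι) {E : Type*} [Field E] [CharZero E] [Algebra K0 E] (s : E)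
    (hs : Transcendental K0 s) :
    ∃ m0 : ι, AlgebraicIndependent ℚ (fun m : {m // m ≠ m0} => s * algebraMap K0 E (c m)) := by
  classical
  set S : Set K0 := {x | ∃ m m', x = c m / c m'} with hS
  have hSfin : S.Finite := by
    have : S = Set.range (fun z : ι × ι => c z.1 / c z.2) := by
      ext x
      constructor
      · rintro ⟨i, j, rfl⟩
        exact ⟨(i, j), rfl⟩
      · rintro ⟨⟨i, j⟩, rfl⟩
        exact ⟨i, j, rfl⟩
    rw [this]
    exact Set.finite_range _
  obtain ⟨r, hr, x, hxind, hxS⟩ := exists_independentW S hSfin (Fintype.card ι) 2 htr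
  have hr0 : 0 < r := by omega
  obtain ⟨m, m2, hm2⟩ := hxS ⟨0, hr0⟩
  have hcm2 : c m2 ≠ 0 := by
    intro h
    apply hxind.ne_zero ⟨0, hr0⟩
    rw [hm2, h, div_zero]
  set F := IntermediateField.adjoin ℚ (Set.range (fun m : ι => s * algebraMap K0 E (c m))) with hF
  have hs0 : s ≠ 0 := fun h => hs (by rw [h]; exact isAlgebraic_zero)
  have hyF : s * algebraMap K0 E (c m2) ∈ F := IntermediateField.subset_adjoin _ _ ⟨m2, rfl⟩
  have hxF : ∀ t, algebraMap K0 E (x t) ∈ F := by
    intro t
    obtain ⟨l, l', h⟩ := hxS t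
    have h1 : algebraMap K0 E (x t) =
        (s * algebraMap K0 E (c l)) / (s * algebraMap K0 E (c l')) := by
      rw [h, map_div₀, mul_div_mul_left _ _ hs0]
    rw [h1]
    exact F.div_mem (IntermediateField.subset_adjoin _ _ ⟨l, rfl⟩)
      (IntermediateField.subset_adjoin _ _ ⟨l', rfl⟩)
  have hytr : Transcendental K0 (s * algebraMap K0 E (c m2)) := by
    intro h
    apply hs
    have h1 : IsAlgebraic K0 (s * algebraMap K0 E (c m2) * algebraMap K0 E (c m2)⁻¹) :=
      h.mul (isAlgebraic_algebraMap _)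
    rwa [mul_assoc, ← map_mul, mul_inv_cancel₀ hcm2, map_one, mul_one] at h1
  have hy : AlgebraicIndependent K0 (fun _ : Unit => s * algebraMap K0 E (c m2)) :=
    (algebraicIndependent_unique_type_iff).2 hytr
  have hxy := hxind.sumElim_comp hy
  have hxyF : AlgebraicIndependent ℚ (Sum.elim (fun _ : Unit => (⟨_, hyF⟩ : F))
      (fun t => (⟨_, hxF t⟩ : F))) := by
    apply AlgebraicIndependent.of_comp F.val
    convert hxy using 1
    ext o
    rcases o with o | o
    · rfl
    · rfl
  have h3 := hxyF.lift_cardinalMk_le_trdeg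
  have h4 : ((r + 1 : ℕ) : Cardinal) ≤ Algebra.trdeg ℚ F := by
    have h5 : #(Unit ⊕ Fin r) = ((r + 1 : ℕ) : Cardinal) := by
      rw [Cardinal.mk_fintype]
      simp [add_comm]
    rw [h5] at h3
    simpa using h3
  have h5 : (Fintype.card ι : Cardinal) ≤ Algebra.trdeg ℚ F + (1 : ℕ) := by
    calc (Fintype.card ι : Cardinal) ≤ ((r + 1 : ℕ) : Cardinal) + (1 : ℕ) := by
          exact_mod_cast (show Fintype.card ι ≤ r + 1 + 1 by omega)
      _ ≤ Algebra.trdeg ℚ F + (1 : ℕ) := by gcongr
  obtain ⟨r', hr', z, hzind, hzS⟩ := exists_independentW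
    (Set.range (fun m : ι => s * algebraMap K0 E (c m))) (Set.finite_range _) (Fintype.card ι) 1 h5
  choose idx hidx using hzS
  have hinj : Function.Injective idx := by
    intro t t' h
    apply hzind.injective
    rw [← hidx t, ← hidx t', h]
  have hcard : (Finset.univ.image idx).card = r' := by
    rw [Finset.card_image_of_injective _ hinj, Finset.card_univ, Fintype.card_fin]
  have hm0 : ∃ m0, ∀ m, m ≠ m0 → m ∈ Finset.univ.image idx := by
    by_contra hcon
    push Not at hcon
    have hne : Nonempty ι := ⟨m2⟩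
    obtain ⟨m3, hm3, hm3'⟩ := hcon m2
    obtain ⟨m4, hm4, hm4'⟩ := hcon m3
    have hsub : Finset.univ.image idx ⊆ (Finset.univ.erase m3).erase m4 := by
      intro l hl
      rw [Finset.mem_erase, Finset.mem_erase]
      refine ⟨?_, ?_, Finset.mem_univ _⟩
      · rintro rfl
        exact hm4' hl
      · rintro rfl
        exact hm3' hl
    have h6 := Finset.card_le_card hsub
    rw [hcard, Finset.card_erase_of_mem (Finset.mem_erase.2 ⟨hm4, Finset.mem_univ _⟩),
      Finset.card_erase_of_mem (Finset.mem_univ _), Finset.card_univ] at h6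
    omega
  obtain ⟨m0, hm0⟩ := hm0
  refine ⟨m0, ?_⟩
  have h7 : ∀ m : {m // m ≠ m0}, ∃ t, idx t = m.1 := by
    intro m
    obtain ⟨t, _, ht⟩ := Finset.mem_image.1 (hm0 m.1 m.2)
    exact ⟨t, ht⟩
  choose tt htt using h7
  have hinj2 : Function.Injective tt := by
    intro m m' h
    apply Subtype.ext
    rw [← htt m, ← htt m', h]
  have h8 := hzind.comp tt hinj2
  convert h8 using 1
  ext m
  rw [Function.comp_apply, ← hidx (tt m), htt m]

end MPadc574
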