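import Mathlib
import Pool.Agent.Lib.MP_adc574_ag.Hyp.Det

/-! # Invariance of the Hasse-Witt condition under linear substitutions -/

namespace MPadc574

open MvPolynomial

noncomputable section

section Subst

variable {R : Type*} [CommRing R] {σ : Type*} [Fintype σ] [DecidableEq σ]

/-- The polynomial `f (T x)`. -/
def lsub (T : Matrix σ σ R) : MvPolynomial σ R →ₐ[R] MvPolynomial σ R :=
  aeval (fun i => ∑ l, C (T i l) * X l)

omit [DecidableEq σ] in
theorem lsub_X (T : Matrix σ σ R) (i : σ) : lsub T (X i) = ∑ l, C (T i l) * X l := aeval_X _ _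

omit [DecidableEq σ] in
theorem lsub_lsub (T S : Matrix σ σ R) (f : MvPolynomial σ R) :
    lsub S (lsub T f) = lsub (T * S) f := by
  have h : (lsub S).comp (lsub T) = lsub (T * S) := by
    apply algHom_ext
    intro i
    rw [AlgHom.comp_apply, lsub_X, lsub_X, map_sum]
    have h1 : ∀ l, lsub S (C (T i l) * X l) = ∑ m, C (T i l * S l m) * X m := by
      intro l
      rw [map_mul, lsub_X, Finset.mul_sum]
      apply Finset.sum_congr rfl
      intro m _
      have h2 : lsub S (C (T i l)) = C (T i l) := aeval_C _ _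
      rw [h2, C_mul, mul_assoc]
    rw [Finset.sum_congr rfl (fun l _ => h1 l), Finset.sum_comm]
    apply Finset.sum_congr rfl
    intro m _
    rw [Matrix.mul_apply, map_sum, Finset.sum_mul]
  rw [← h]
  rfl

theorem lsub_one (f : MvPolynomial σ R) : lsub (1 : Matrix σ σ R) f = f := by
  have h : lsub (1 : Matrix σ σ R) = AlgHom.id R _ := by
    apply algHom_ext
    intro i
    rw [lsub_X, Finset.sum_eq_single i]
    · simp
    · intro l _ hl
      rw [Matrix.one_apply_ne hl.symm]
      simp
    · intro h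
      exact absurd (Finset.mem_univ _) h
  rw [h]
  rfl

omit [DecidableEq σ] in
theorem lsub_homogeneous (T : Matrix σ σ R) {f : MvPolynomial σ R} {d : ℕ}
    (hf : f.IsHomogeneous d) : (lsub T f).IsHomogeneous d := by
  have h := hf.aeval (n := 1) (fun i => ∑ l, C (T i l) * X l) (by
    intro i
    apply IsHomogeneous.sum
    intro l _
    have h1 := (isHomogeneous_C σ (T i l)).mul (isHomogeneous_X R l)
    rwa [zero_add] at h1)
  rwa [one_mul] at h

omit [DecidableEq σ] in
theorem pderiv_lsub (T : Matrix σ σ R) (f : MvPolynomial σ R) (j : σ) :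
    pderiv j (lsub T f) = ∑ i, C (T i j) * lsub T (pderiv i f) := by
  classical
  induction f using MvPolynomial.induction_on with
  | C a =>
    have h2 : lsub T (C a) = C a := aeval_C _ _
    rw [h2, pderiv_C]
    simp
  | add f g hf hg =>
    rw [map_add, map_add, hf, hg, ← Finset.sum_add_distrib]
    apply Finset.sum_congr rfl
    intro i _
    rw [map_add, map_add, mul_add]
  | mul_X f l hf =>
    rw [map_mul, pderiv_mul, hf]
    have h1 : pderiv j (lsub T (X l)) = C (T l j) := by
      rw [lsub_X, map_sum, Finset.sum_eq_single j]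
      · rw [pderiv_C_mul, pderiv_X_self, mul_one]
      · intro m _ hm
        rw [pderiv_C_mul, pderiv_X_of_ne hm, mul_zero]
      · intro h
        exact absurd (Finset.mem_univ _) h
    rw [h1, Finset.sum_mul]
    have h2 : ∀ i, C (T i j) * lsub T (pderiv i (f * X l)) =
        C (T i j) * lsub T (pderiv i f) * lsub T (X l) +
          (if i = l then lsub T f * C (T l j) else 0) := by
      intro i
      rw [pderiv_mul]
      by_cases hi : i = l
      · subst hi
        rw [pderiv_X_self, if_pos rfl, map_add, map_mul, mul_one]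
        ring
      · rw [pderiv_X_of_ne (fun h => hi h.symm), if_neg hi, mul_zero, add_zero, map_mul]
        ring
    rw [Finset.sum_congr rfl (fun i _ => h2 i), Finset.sum_add_distrib, Finset.sum_ite_eq',
      if_pos (Finset.mem_univ _)]

omit [DecidableEq σ] in
theorem lsub_map {R' : Type*} [CommRing R'] (φ : R →+* R') (T : Matrix σ σ R)
    (f : MvPolynomial σ R) : (lsub T f).map φ = lsub (T.map φ) (f.map φ) := by
  induction f using MvPolynomial.induction_on with
  | C a =>
    have h2 : lsub T (C a) = C a := aeval_C _ _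
    have h3 : lsub (T.map φ) (C (φ a)) = C (φ a) := aeval_C _ _
    rw [h2, map_C, h3]
  | add f g hf hg => rw [map_add, map_add, map_add, map_add, hf, hg]
  | mul_X f l hf =>
    rw [map_mul, map_mul, map_mul, map_mul, hf, map_X, lsub_X, lsub_X, map_sum]
    congr 1
    apply Finset.sum_congr rfl
    intro m _
    rw [map_mul, map_C, map_X]
    rfl

end Subst

section Exact

variable {κ : Type*} [Field κ] {p : ℕ} [Fact p.Prime] [CharP κ p] {σ : Type*} [Fintype σ]
  [DecidableEq σ]

/-- Sums of partial derivatives. -/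
def IsEx (h : MvPolynomial σ κ) : Prop := ∃ h' : σ → MvPolynomial σ κ, h = ∑ i, pderiv i (h' i)

omit [DecidableEq σ] in
theorem IsEx.add {h1 h2 : MvPolynomial σ κ} (e1 : IsEx h1) (e2 : IsEx h2) : IsEx (h1 + h2) := by
  obtain ⟨a, ha⟩ := e1
  obtain ⟨b, hb⟩ := e2
  refine ⟨fun i => a i + b i, ?_⟩
  rw [ha, hb, ← Finset.sum_add_distrib]
  apply Finset.sum_congr rfl
  intro i _
  rw [map_add]

omit [DecidableEq σ] in
theorem isEx_zero : IsEx (0 : MvPolynomial σ κ) := ⟨fun _ => 0, by simp⟩

theorem isEx_pderiv (i : σ) (h : MvPolynomial σ κ) : IsEx (pderiv i h) := by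
  refine ⟨fun l => if l = i then h else 0, ?_⟩
  rw [Finset.sum_eq_single i]
  · simp
  · intro l _ hl
    simp [hl]
  · intro h
    exact absurd (Finset.mem_univ _) h

omit [DecidableEq σ] in
theorem isEx_sum {α : Type*} (s : Finset α) (f : α → MvPolynomial σ κ) (h : ∀ a ∈ s, IsEx (f a)) :
    IsEx (∑ a ∈ s, f a) := by
  classical
  induction s using Finset.induction_on with
  | empty => rw [Finset.sum_empty]; exact isEx_zero
  | insert a s ha ih =>
    rw [Finset.sum_insert ha]
    exact (h a (Finset.mem_insert_self _ _)).add (ih (fun b hb => h b (Finset.mem_insert_of_mem hb)))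

include p in
theorem isEx_iff (h : MvPolynomial σ κ) :
    IsEx h ↔ ∀ m : σ →₀ ℕ, (∀ i, p ∣ m i + 1) → coeff m h = 0 := by
  constructor
  · rintro ⟨h', rfl⟩ m hm
    rw [coeff_sum]
    apply Finset.sum_eq_zero
    intro i _
    rw [coeff_pderiv]
    have h1 : ((m i + 1 : ℕ) : κ) = 0 := (CharP.cast_eq_zero_iff κ p _).2 (hm i)
    push_cast at h1
    rw [h1, mul_zero]
  · intro hm
    rw [← support_sum_monomial_coeff h]
    apply isEx_sum
    intro m hms
    have h1 : ∃ i, ¬ p ∣ m i + 1 := by
      by_contra hcon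
      push Not at hcon
      exact (mem_support_iff.1 hms) (hm m hcon)
    obtain ⟨i, hi⟩ := h1
    have h2 : ((m i + 1 : ℕ) : κ) ≠ 0 := fun h => hi ((CharP.cast_eq_zero_iff κ p _).1 h)
    have h3 : monomial m (coeff m h) =
        pderiv i (monomial (m + Finsupp.single i 1) (coeff m h / ((m i + 1 : ℕ) : κ))) := by
      rw [pderiv_monomial]
      have h4 : (m + Finsupp.single i 1 : σ →₀ ℕ) i = m i + 1 := by simp
      rw [h4, div_mul_cancel₀ _ h2, add_tsub_cancel_right]
    rw [h3]
    exact isEx_pderiv _ _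

theorem isEx_lsub {T : Matrix σ σ κ} (hT : T.det ≠ 0) {h : MvPolynomial σ κ} (hh : IsEx h) :
    IsEx (lsub T h) := by
  obtain ⟨h', rfl⟩ := hh
  rw [map_sum]
  apply isEx_sum
  intro i _
  have hu : IsUnit T.det := isUnit_iff_ne_zero.2 hT
  have h1 : lsub T (pderiv i (h' i)) = ∑ j, pderiv j (C (T⁻¹ j i) * lsub T (h' i)) := by
    have h2 : ∀ j, pderiv j (C (T⁻¹ j i) * lsub T (h' i)) =
        ∑ l, C (T l j * T⁻¹ j i) * lsub T (pderiv l (h' i)) := by
      intro j
      rw [pderiv_C_mul, pderiv_lsub, Finset.mul_sum]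
      apply Finset.sum_congr rfl
      intro l _
      rw [C_mul]
      ring
    rw [Finset.sum_congr rfl (fun j _ => h2 j), Finset.sum_comm]
    have h3 : ∀ l, ∑ j, C (T l j * T⁻¹ j i) * lsub T (pderiv l (h' i)) =
        C ((1 : Matrix σ σ κ) l i) * lsub T (pderiv l (h' i)) := by
      intro l
      rw [← Finset.sum_mul, ← map_sum, ← Matrix.mul_apply, Matrix.mul_nonsing_inv _ hu]
    rw [Finset.sum_congr rfl (fun l _ => h3 l), Finset.sum_eq_single i]
    · rw [Matrix.one_apply_eq, C_1, one_mul]
    · intro l _ hl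
      rw [Matrix.one_apply_ne hl, C_0, zero_mul]
    · intro h
      exact absurd (Finset.mem_univ _) h
  rw [h1]
  apply isEx_sum
  intro j _
  exact isEx_pderiv _ _

/-- No nonzero form `g` of degree `e` has `g F ^ (p - 1)` a sum of partial derivatives. -/
def NoEx (p e : ℕ) (F : MvPolynomial σ κ) : Prop :=
  ∀ g : MvPolynomial σ κ, g.IsHomogeneous e → IsEx (g * F ^ (p - 1)) → g = 0

omit [Fact p.Prime] [CharP κ p] in
theorem noEx_of_lsub {e : ℕ} {T : Matrix σ σ κ} (hT : T.det ≠ 0) {F : MvPolynomial σ κ}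
    (h : NoEx p e (lsub T F)) : NoEx p e F := by
  intro g hg hex
  have h1 := isEx_lsub hT hex
  rw [map_mul, map_pow] at h1
  have h2 := h (lsub T g) (lsub_homogeneous T hg) h1
  have hu : IsUnit T.det := isUnit_iff_ne_zero.2 hT
  rw [← lsub_one g, ← Matrix.mul_nonsing_inv _ hu, ← lsub_lsub, h2, map_zero]

end Exact

section HWM

variable {σ : Type*} [Fintype σ] [DecidableEq σ]

/-- The exponent `(1, …, 1)`. -/
def ones (σ : Type*) [Fintype σ] : σ →₀ ℕ := Finsupp.equivFunOnFinite.symm (fun _ => 1)

omit [DecidableEq σ] in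
@[simp] theorem ones_apply (i : σ) : ones σ i = 1 := rfl

/-- The Hasse-Witt matrix. -/
def hwm {R : Type*} [CommRing R] (p e : ℕ) (F : MvPolynomial σ R) :
    Matrix (Mon σ e) (Mon σ e) R :=
  fun u w => coeff (p • w.1 + (p - 1) • ones σ) (monomial u.1 1 * F ^ (p - 1))

theorem hwm_map {R R' : Type*} [CommRing R] [CommRing R'] (φ : R →+* R') (p e : ℕ)
    (F : MvPolynomial σ R) : (hwm p e F).map φ = hwm p e (F.map φ) := by
  ext u w
  rw [Matrix.map_apply]
  unfold hwm
  rw [← coeff_map, map_mul, map_monomial, map_one, map_pow]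

theorem hwm_eq {R : Type*} [CommRing R] {p : ℕ} (hp : 0 < p) (e : ℕ) (F : MvPolynomial σ R)
    (u w : Mon σ e) : hwm p e F u w =
      coeff (p • (w.1 + ones σ)) (monomial (u.1 + ones σ) 1 * F ^ (p - 1)) := by
  unfold hwm
  have h1 : (monomial (u.1 + ones σ) 1 : MvPolynomial σ R) = monomial (ones σ) 1 * monomial u.1 1 := by
    rw [monomial_mul, one_mul, add_comm]
  have h2 : p • (w.1 + ones σ) = ones σ + (p • w.1 + (p - 1) • ones σ) := by
    ext i
    simp only [Finsupp.smul_apply, Finsupp.add_apply, ones_apply, smul_eq_mul]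
    have : p = 1 + (p - 1) := by omega
    nlinarith
  rw [h1, h2, mul_assoc, coeff_monomial_mul, one_mul]

variable {κ : Type*} [Field κ] {p : ℕ} [Fact p.Prime] [CharP κ p]

omit [Fact p.Prime] [CharP κ p] in
theorem coeff_form_mul (e : ℕ) (F : MvPolynomial σ κ) (g : MvPolynomial σ κ)
    (hg : g.IsHomogeneous e) (w : Mon σ e) :
    coeff (p • w.1 + (p - 1) • ones σ) (g * F ^ (p - 1)) =
      Matrix.vecMul (fun u : Mon σ e => coeff u.1 g) (hwm p e F) w := by
  have h1 : g = ∑ u ∈ Mon σ e, monomial u (coeff u g) := by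
    ext m
    rw [coeff_sum]
    by_cases hm : m ∈ Mon σ e
    · rw [Finset.sum_eq_single m]
      · rw [coeff_monomial, if_pos rfl]
      · intro u _ hu
        rw [coeff_monomial, if_neg hu]
      · intro h
        exact absurd hm h
    · have h2 : coeff m g = 0 := by
        apply hg.coeff_eq_zero
        intro h
        apply hm
        rw [mem_Mon, ← h, Finsupp.degree_eq_sum]
      rw [h2]
      symm
      apply Finset.sum_eq_zero
      intro u hu
      rw [coeff_monomial, if_neg]
      rintro rfl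
      exact hm hu
  conv_lhs => rw [h1]
  rw [Finset.sum_mul, coeff_sum, Matrix.vecMul, dotProduct]
  rw [← Finset.sum_coe_sort (Mon σ e)]
  apply Finset.sum_congr rfl
  intro u _
  unfold hwm
  have h2 : (monomial u.1 (coeff u.1 g) : MvPolynomial σ κ) = C (coeff u.1 g) * monomial u.1 1 := by
    rw [C_mul_monomial, mul_one]
  rw [h2, mul_assoc, coeff_C_mul]

theorem noEx_of_det {e : ℕ} {F : MvPolynomial σ κ} (h : (hwm p e F).det ≠ 0) : NoEx p e F := by
  intro g hg hex
  have hp : 0 < p := (Fact.out : p.Prime).pos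
  have h1 : Matrix.vecMul (fun u : Mon σ e => coeff u.1 g) (hwm p e F) = 0 := by
    ext w
    rw [← coeff_form_mul e F g hg w]
    apply (isEx_iff (p := p) _).1 hex
    intro i
    simp only [Finsupp.smul_apply, Finsupp.add_apply, ones_apply, smul_eq_mul, mul_one]
    refine ⟨w.1 i + 1, ?_⟩
    rw [mul_add, mul_one]
    omega
  have h2 := Matrix.eq_zero_of_vecMul_eq_zero h h1
  ext m
  rw [coeff_zero]
  by_cases hm : m ∈ Mon σ e
  · exact congrFun h2 ⟨m, hm⟩
  · apply hg.coeff_eq_zero
    intro h
    apply hm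
    rw [mem_Mon, ← h, Finsupp.degree_eq_sum]

theorem det_of_noEx {e d : ℕ} {F : MvPolynomial σ κ} (hF : F.IsHomogeneous d)
    (hed : e + Fintype.card σ = d) (h : NoEx p e F) : (hwm p e F).det ≠ 0 := by
  intro h0
  have hp : 0 < p := (Fact.out : p.Prime).pos
  obtain ⟨v, hv0, hv⟩ := Matrix.exists_vecMul_eq_zero_iff.2 h0
  let g : MvPolynomial σ κ := ∑ u : Mon σ e, monomial u.1 (v u)
  have hgc : ∀ u : Mon σ e, coeff u.1 g = v u := by
    intro u
    rw [coeff_sum, Finset.sum_eq_single u]
    · rw [coeff_monomial, if_pos rfl]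
    · intro u' _ hu
      rw [coeff_monomial, if_neg (fun h => hu (Subtype.ext h))]
    · intro h
      exact absurd (Finset.mem_univ _) h
  have hg : g.IsHomogeneous e := by
    apply IsHomogeneous.sum
    intro u _
    apply isHomogeneous_monomial
    rw [Finsupp.degree_eq_sum]
    exact mem_Mon.1 u.2
  have hg0 : g ≠ 0 := by
    intro hg0
    apply hv0
    ext u
    rw [← hgc u, hg0, coeff_zero]
    rfl
  apply hg0
  apply h g hg
  rw [isEx_iff (p := p)]
  intro m hm
  by_cases hdeg : m.degree = e + d * (p - 1)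
  · choose w' hw' using hm
    have hw1 : ∀ i, 1 ≤ w' i := by
      intro i
      by_contra hcon
      have h5 : w' i = 0 := by omega
      have h6 := hw' i
      rw [h5] at h6
      omega
    let w : σ →₀ ℕ := Finsupp.equivFunOnFinite.symm (fun i => w' i - 1)
    have hmw : m = p • w + (p - 1) • ones σ := by
      ext i
      have h1 : w i = w' i - 1 := rfl
      simp only [Finsupp.smul_apply, Finsupp.add_apply, ones_apply, smul_eq_mul, mul_one, h1]
      have h2 := hw' i
      obtain ⟨q, hq⟩ : ∃ q, w' i = q + 1 := ⟨w' i - 1, by have := hw1 i; omega⟩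
      rw [hq] at h2 ⊢
      rw [mul_add, mul_one] at h2
      rw [Nat.add_sub_cancel]
      omega
    have hwM : w ∈ Mon σ e := by
      rw [mem_Mon]
      rw [Finsupp.degree_eq_sum, hmw] at hdeg
      simp only [Finsupp.smul_apply, Finsupp.add_apply, ones_apply, smul_eq_mul, mul_one] at hdeg
      rw [Finset.sum_add_distrib, ← Finset.mul_sum, Finset.sum_const, Finset.card_univ,
        smul_eq_mul, ← hed] at hdeg
      have h3 : p * ∑ i, w i + Fintype.card σ * (p - 1) = p * e + Fintype.card σ * (p - 1) := by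
        rw [hdeg, add_mul]
        obtain ⟨q, rfl⟩ : ∃ q, p = q + 1 := ⟨p - 1, by omega⟩
        rw [Nat.add_sub_cancel]
        ring
      exact Nat.eq_of_mul_eq_mul_left hp (Nat.add_right_cancel h3)
    rw [hmw, coeff_form_mul e F g hg ⟨w, hwM⟩]
    have h4 : (fun u : Mon σ e => coeff u.1 g) = v := funext hgc
    rw [h4, hv]
    rfl
  · apply (hg.mul (hF.pow (p - 1))).coeff_eq_zero
    exact hdeg

end HWM

end

end MPadc574
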