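import Mathlib
import Pool.Agent.Lib.MP_adc574_ag.Hyp.Core
import Pool.Agent.Lib.MP_adc574_ag.Hyp.Index
import Pool.Agent.Lib.MP_adc574_ag.Hyp.Inv

/-! # Main theorem for hypersurfaces: points of good characteristic -/

namespace MPadc574

open MvPolynomial

noncomputable section

theorem sum_monomial_of_homogeneous {R : Type*} [CommRing R] {σ : Type*} [Fintype σ]
    [DecidableEq σ] {d : ℕ} {F : MvPolynomial σ R} (hF : F.IsHomogeneous d) :
    ∑ m ∈ Mon σ d, monomial m (coeff m F) = F := by
  ext m
  rw [coeff_sum]
  by_cases hm : m ∈ Mon σ d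
  · rw [Finset.sum_eq_single m]
    · rw [coeff_monomial, if_pos rfl]
    · intro u _ hu
      rw [coeff_monomial, if_neg hu]
    · intro h
      exact absurd hm h
  · have h2 : coeff m F = 0 := by
      apply hF.coeff_eq_zero
      intro h
      apply hm
      rw [mem_Mon, ← h, Finsupp.degree_eq_sum]
    rw [h2]
    apply Finset.sum_eq_zero
    intro u hu
    rw [coeff_monomial, if_neg]
    rintro rfl
    exact hm hu

theorem card_Mon (n d : ℕ) : (Mon (Fin (n + 1)) d).card = (n + d).choose d := by
  unfold Mon
  rw [Finset.card_finsuppAntidiag_nat_eq_choose, Finset.card_univ, Fintype.card_fin]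
  congr 1
  omega

universe u v

theorem mainH {k : Type v} [Field k] [CharZero k] (A : Subalgebra ℤ k) (hA : A.FG) {n d : ℕ}
    (hn : 2 ≤ n) (hd : n + 1 ≤ d) (f : MvPolynomial (Fin (n + 1)) A) (hf : f.IsHomogeneous d)
    {L : Type u} [Field L] [CharZero L] [Algebra k L] (T : Matrix (Fin (n + 1)) (Fin (n + 1)) L)
    (hT : T.det ≠ 0)
    (htr : (((n + d).choose d : ℕ) : Cardinal) ≤
      Algebra.trdeg ℚ (IntermediateField.adjoin ℚ {x | ∃ m m',
        x = coeff m (lsub T (f.map ((algebraMap k L).comp (algebraMap A k)))) /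
          coeff m' (lsub T (f.map ((algebraMap k L).comp (algebraMap A k))))}) + 2)
    (b : A) (hb : b ≠ 0) (N : ℕ) :
    ∃ p : ℕ, p.Prime ∧ N < p ∧ ∃ (κ : Type u) (_ : Field κ) (_ : CharP κ p) (φ : A →+* κ),
      φ b ≠ 0 ∧ φ (hwm p (d - (n + 1)) f).det ≠ 0 := by
  classical
  set θ : A →+* L := (algebraMap k L).comp (algebraMap A k) with hθ
  have hθinj : Function.Injective θ := (algebraMap k L).injective.comp Subtype.val_injective
  obtain ⟨s, hs⟩ := hA
  -- the ring of parameters
  have hsA : ∀ y ∈ s, y ∈ A := by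
    intro y hy
    rw [← hs]
    exact Algebra.subset_adjoin hy
  let S : Finset L := s.image (algebraMap k L) ∪ Finset.univ.image (fun z : Fin (n + 1) × Fin (n + 1) => T z.1 z.2)
  set A1 : Subring L := Subring.closure (S : Set L) with hA1
  have hft : Algebra.FiniteType ℤ A1 := finiteType_closure S
  have hTA1 : ∀ i l, T i l ∈ A1 := by
    intro i l
    apply Subring.subset_closure
    rw [Finset.mem_coe]
    apply Finset.mem_union_right
    exact Finset.mem_image_of_mem (fun z : Fin (n + 1) × Fin (n + 1) => T z.1 z.2)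
      (Finset.mem_univ (i, l))
  have hθA1 : ∀ a : A, θ a ∈ A1 := by
    rintro ⟨a, ha⟩
    change algebraMap k L a ∈ A1
    rw [← hs] at ha
    induction ha using Algebra.adjoin_induction with
    | mem x hx =>
      apply Subring.subset_closure
      rw [Finset.mem_coe]
      apply Finset.mem_union_left
      exact Finset.mem_image_of_mem _ hx
    | algebraMap r =>
      rw [eq_intCast, map_intCast]
      exact intCast_mem _ r
    | add x y _ _ hx hy =>
      rw [map_add]
      exact A1.add_mem hx hy
    | mul x y _ _ hx hy =>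
      rw [map_mul]
      exact A1.mul_mem hx hy
  let ι : A →+* A1 := θ.codRestrict A1 hθA1
  let T1 : Matrix (Fin (n + 1)) (Fin (n + 1)) A1 := Matrix.of (fun i l => ⟨T i l, hTA1 i l⟩)
  have hT1 : T1.map A1.subtype = T := by
    ext i l
    rfl
  have hdet1 : T1.det ≠ 0 := by
    intro h
    apply hT
    rw [← hT1]
    have h1 := A1.subtype.map_det T1
    rw [h, map_zero] at h1
    exact h1.symm
  set F1 : MvPolynomial (Fin (n + 1)) A1 := lsub T1 (f.map ι) with hF1
  have hfι : (f.map ι).IsHomogeneous d := hf.map ι
  have hF1h : F1.IsHomogeneous d := lsub_homogeneous T1 hfι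
  have hF1L : F1.map A1.subtype = lsub T (f.map θ) := by
    rw [hF1, lsub_map, hT1, MvPolynomial.map_map]
    rfl
  have hcoef : ∀ m, algebraMap A1 L (coeff m F1) = coeff m (lsub T (f.map θ)) := by
    intro m
    rw [← hF1L, coeff_map]
    rfl
  -- independent coefficients
  let E := RatFunc L
  have hEchar : CharZero E := charZero_of_injective_algebraMap (algebraMap L E).injective
  have hE2char : CharZero (RatFunc E) :=
    charZero_of_injective_algebraMap (algebraMap E (RatFunc E)).injective
  let K := AlgebraicClosure (RatFunc E)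
  have hKchar : CharZero K :=
    charZero_of_injective_algebraMap (algebraMap (RatFunc E) K).injective
  have hs1 : Transcendental L (RatFunc.X : E) := RatFunc.transcendental_X
  have hτ : Transcendental E (algebraMap (RatFunc E) K RatFunc.X) :=
    (transcendental_algebraMap_iff (algebraMap (RatFunc E) K).injective).2 RatFunc.transcendental_X
  have hcard : Fintype.card (Mon (Fin (n + 1)) d) = (n + d).choose d := by
    rw [Fintype.card_coe, card_Mon]
  have hbig : 2 < (n + d).choose d := by
    rw [← card_Mon]
    have h1 : (Finset.univ.image (fun i : Fin (n + 1) => Finsupp.single i d)) ⊆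
        Mon (Fin (n + 1)) d := by
      intro m hm
      obtain ⟨i, _, rfl⟩ := Finset.mem_image.1 hm
      rw [mem_Mon, Finset.sum_eq_single i]
      · simp
      · intro l _ hl
        simp [Ne.symm hl]
      · intro h
        exact absurd (Finset.mem_univ _) h
    have h2 := Finset.card_le_card h1
    rw [Finset.card_image_of_injective _ (Finsupp.single_left_injective (by omega)),
      Finset.card_univ, Fintype.card_fin] at h2
    omega
  have hF1hL : (lsub T (f.map θ)).IsHomogeneous d := lsub_homogeneous T (hf.map θ)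
  have hadj : IntermediateField.adjoin ℚ {x | ∃ m m',
        x = coeff m (lsub T (f.map θ)) / coeff m' (lsub T (f.map θ))} =
      IntermediateField.adjoin ℚ {x | ∃ m m' : Mon (Fin (n + 1)) d,
        x = coeff m.1 (lsub T (f.map θ)) / coeff m'.1 (lsub T (f.map θ))} := by
    apply le_antisymm
    · rw [IntermediateField.adjoin_le_iff]
      rintro x ⟨m, m', rfl⟩
      have hz : ∀ m, m ∉ Mon (Fin (n + 1)) d → coeff m (lsub T (f.map θ)) = 0 := by
        intro m hm
        apply hF1hL.coeff_eq_zero
        intro h
        apply hm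
        rw [mem_Mon, ← h, Finsupp.degree_eq_sum]
      by_cases hm : m ∈ Mon (Fin (n + 1)) d
      · by_cases hm' : m' ∈ Mon (Fin (n + 1)) d
        · exact IntermediateField.subset_adjoin _ _ ⟨⟨m, hm⟩, ⟨m', hm'⟩, rfl⟩
        · rw [hz m' hm', div_zero]
          exact IntermediateField.zero_mem _
      · rw [hz m hm, zero_div]
        exact IntermediateField.zero_mem _
    · rw [IntermediateField.adjoin_le_iff]
      rintro x ⟨m, m', rfl⟩
      exact IntermediateField.subset_adjoin _ _ ⟨m.1, m'.1, rfl⟩
  rw [hadj] at htr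
  obtain ⟨m0, hind⟩ := exists_index (ι := Mon (Fin (n + 1)) d)
    (fun m => coeff m.1 (lsub T (f.map θ))) (by
      rw [hcard]
      exact htr) (by rw [hcard]; exact hbig) (RatFunc.X : E) hs1
  -- the core theorem
  have hj : Function.Injective (Fin.castLE (show 3 ≤ n + 1 by omega)) := Fin.castLE_injective _
  let e : Mon (Fin (n + 1)) (d - (n + 1)) → (Fin (n + 1) →₀ ℕ) := fun u => u.1 + ones _
  have he : Function.Injective e := by
    intro u u' h
    exact Subtype.ext (add_right_cancel h)
  have hed : ∀ i, ∑ l, e i l = d := by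
    intro u
    simp only [e, Finsupp.add_apply, ones_apply]
    rw [Finset.sum_add_distrib, mem_Mon.1 u.2]
    simp
    omega
  have hei : ∀ i l, 1 ≤ e i l := by
    intro u l
    simp only [e, Finsupp.add_apply, ones_apply]
    omega
  have hιb : ι b ≠ 0 := by
    intro h
    apply hb
    apply hθinj
    rw [map_zero]
    exact congrArg Subtype.val h
  obtain ⟨p, hp, hNp, κ, _, _, φ, hφ, hdet⟩ := coreH (A := A1) (K0 := L) (E := E) (K := K)
    Subtype.val_injective (RatFunc.X : E) hs1 (algebraMap (RatFunc E) K RatFunc.X) hτ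
    (Fin.castLE (show 3 ≤ n + 1 by omega)) hj d (fun m => coeff m F1) m0 (by
      convert hind using 3
      exact congrArg _ (hcoef _)) e he hed hei (ι b * T1.det) (mul_ne_zero hιb hdet1) N
  have hpf : Fact p.Prime := ⟨hp⟩
  rw [map_mul] at hφ
  have hsum : ∑ m ∈ Mon (Fin (n + 1)) d, monomial m (φ (coeff m F1)) = F1.map φ := by
    rw [← sum_monomial_of_homogeneous (hF1h.map φ)]
    apply Finset.sum_congr rfl
    intro m _
    rw [coeff_map]
  have hdet2 : (hwm p (d - (n + 1)) (F1.map φ)).det ≠ 0 := by
    convert hdet using 2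
    ext u w
    rw [hwm_eq hp.pos, Matrix.of_apply, hsum]
  have hmap : F1.map φ = lsub (T1.map φ) (f.map (φ.comp ι)) := by
    rw [hF1, lsub_map, MvPolynomial.map_map]
  have hTφ : (T1.map φ).det ≠ 0 := by
    have h1 := φ.map_det T1
    intro h
    apply right_ne_zero_of_mul hφ
    rw [h1]
    exact h
  have h1 := noEx_of_det hdet2
  rw [hmap] at h1
  have h2 := noEx_of_lsub hTφ h1
  have h3 := det_of_noEx (hf.map (φ.comp ι)) (by
    rw [Fintype.card_fin]
    omega) h2
  refine ⟨p, hp, hNp, κ, inferInstance, inferInstance, φ.comp ι, left_ne_zero_of_mul hφ, ?_⟩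
  rw [RingHom.map_det]
  rw [← hwm_map] at h3
  exact h3

end

end MPadc574
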